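import Pool.Agent.H533R2.VO.All
import Pool.Agent.Y560.TG.Base

set_option autoImplicit false

/-!
# Additively coloured weak orders with rigid blocks: definitions and gluing

Structures live on `ℕ`: a linear order `Adj M x y` and symmetric colour relations `ac M.2 s x y`,
unary predicates `co M.2 k x`. The colour of a pair `x < z` is the product (for an arbitrary binary
operation `μ`) of the colours of `(x, y)` and `(y, z)` if `x < y < z`.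
-/

namespace Pool.Agent.N643.AX

open Set
open Pool.Agent.H899R2.VP
open Pool.Agent.H533R2.VO (Ic Ge Le Gt Lt Lev Lw Uw Lx NoLast Mt Cls Cl Rk Rr Bg rev revS resBF
  resIso resGe resLe resGt resLt resIc resIsoLt resIsoIc resIsoGe bf_id bf_comp0 bf_comp1 bf_comp2
  bf_symm0 bf_symm1 bf_symm2 iso_symm0 iso_trans0 iso_refl0 bf_mem_right bf_mem_left mem_Ic mem_Ge
  mem_Le Lw_ge mem_Lx)
open Pool.Agent.H566P (ar R2 v2 lt ac co mk)

/-- structures -/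
abbrev SM : Type := St ar

/-- the colour of a pair -/
noncomputable def cl (M : SM) (x y : ℕ) : ℕ := sInf {s | ac M.2 s x y}

/-- The functions which determine the colours of an additively coloured weak order. -/
structure Par where
  /-- `x < y < z` -/
  m : ℕ → ℕ → ℕ
  /-- `x ~ y < z` -/
  u : ℕ → ℕ → ℕ → ℕ
  /-- `z < x ~ y` -/
  d : ℕ → ℕ → ℕ → ℕ
  /-- `x ~ y ~ z` -/
  b : ℕ → ℕ → ℕ → ℕ → ℕ
  /-- unary predicates in a block -/
  k : ℕ → ℕ → ℕ → ℕ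

/-- Strict weak orders with an additive colouring and finite rigid blocks, with finitely many
colours on bounded intervals. -/
structure AC (μ : Par) (M : SM) : Prop where
  irr : ∀ x, ¬ Adj M x x
  tr : ∀ x y z, Adj M x y → Adj M y z → Adj M x z
  ntr : ∀ x y z, Adj M x z → Adj M x y ∨ Adj M y z
  nl : ∀ x y, ¬ lt M.2 x y
  sy : ∀ x y, Adj M x y → cl M x y = cl M y x
  col : ∀ s x y, ac M.2 s x y ↔ cl M x y = s
  mul : ∀ x y z, Adj M x y → Adj M y z → cl M x z = μ.m (cl M x y) (cl M y z)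
  bu : ∀ x y z, ¬ Adj M x y → ¬ Adj M y x → Adj M y z →
    cl M x z = μ.u (cl M x y) (cl M y x) (cl M y z)
  bd : ∀ x y z, ¬ Adj M x y → ¬ Adj M y x → Adj M z y →
    cl M x z = μ.d (cl M x y) (cl M y x) (cl M y z)
  bb : ∀ x y z, ¬ Adj M x y → ¬ Adj M y x → ¬ Adj M z y → ¬ Adj M y z →
    cl M x z = μ.b (cl M x y) (cl M y x) (cl M y z) (cl M z y)
  una : ∀ x y k, ¬ Adj M x y → ¬ Adj M y x →
    (co M.2 k x ↔ co M.2 (μ.k k (cl M x y) (cl M y x)) y)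
  rig : ∀ x y z, ¬ Adj M x y → ¬ Adj M y x → ¬ Adj M x z → ¬ Adj M z x → cl M x y = cl M x z →
    y = z
  fin : ∀ x y, {s | ∃ p q, ¬ Adj M p x ∧ ¬ Adj M q p ∧ ¬ Adj M y q ∧ cl M p q = s}.Finite

section order

variable {μ : Par} {M : SM} {x y z : ℕ}

theorem AC.asymm (h : AC μ M) (h1 : Adj M x y) : ¬ Adj M y x := fun h2 => h.irr x (h.tr x y x h1 h2)

theorem AC.ne (h : AC μ M) (h1 : Adj M x y) : x ≠ y := by
  rintro rfl
  exact h.irr x h1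

theorem AC.le_trans (h : AC μ M) (h1 : ¬ Adj M y x) (h2 : ¬ Adj M z y) : ¬ Adj M z x := by
  intro h3
  rcases h.ntr z y x h3 with h4 | h4
  · exact h2 h4
  · exact h1 h4

theorem AC.lt_le (h : AC μ M) (h1 : Adj M x y) (h2 : ¬ Adj M z y) : Adj M x z := by
  rcases h.ntr x z y h1 with h4 | h4
  · exact h4
  · exact absurd h4 h2

theorem AC.le_lt (h : AC μ M) (h1 : ¬ Adj M y x) (h2 : Adj M y z) : Adj M x z := by
  rcases h.ntr y x z h2 with h4 | h4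
  · exact absurd h4 h1
  · exact h4

theorem AC.lt_trans (h : AC μ M) (h1 : Adj M x y) (h2 : Adj M y z) : Adj M x z := h.tr x y z h1 h2

theorem AC.cl_comm (h : AC μ M) (h1 : Adj M x y) : cl M x y = cl M y x := h.sy x y h1

theorem AC.blk_l (h : AC μ M) (h1 : ¬ Adj M x y) (h2 : ¬ Adj M y x) (u : ℕ) :
    Adj M u x ↔ Adj M u y := ⟨fun h3 => h.lt_le h3 h2, fun h3 => h.lt_le h3 h1⟩

theorem AC.blk_r (h : AC μ M) (h1 : ¬ Adj M x y) (h2 : ¬ Adj M y x) (u : ℕ) :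
    Adj M x u ↔ Adj M y u := ⟨fun h3 => h.le_lt h1 h3, fun h3 => h.le_lt h2 h3⟩

/-- colours to a point of a block above -/
theorem AC.br (h : AC μ M) {a b d : ℕ} (h1 : ¬ Adj M d b) (h2 : ¬ Adj M b d) (h3 : Adj M a b) :
    cl M a d = μ.d (cl M d b) (cl M b d) (cl M a b) := by
  rw [h.sy a d ((h.blk_l h1 h2 a).2 h3), h.bd d b a h1 h2 h3, h.sy a b h3]

theorem left_mem_Ic (h : AC μ M) (h1 : ¬ Adj M y x) : x ∈ Ic M x y := ⟨h.irr x, h1⟩

theorem right_mem_Ic (h : AC μ M) (h1 : ¬ Adj M y x) : y ∈ Ic M x y := ⟨h1, h.irr y⟩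

theorem block_finite (h : AC μ M) (x : ℕ) : (Ic M x x).Finite := by
  refine Set.Finite.of_finite_image (f := fun y => cl M x y) ((h.fin x x).subset ?_) ?_
  · rintro _ ⟨y, hy, rfl⟩
    exact ⟨x, y, h.irr x, hy.1, hy.2, rfl⟩
  · intro y hy z hz e
    exact h.rig x y z hy.2 hy.1 hz.2 hz.1 e

end order

section piso

variable {μ : Par} {M N : SM} {p : Set (ℕ × ℕ)}

/-- the atomic facts, without assumptions -/
theorem piso_raw : PIso M N p ↔ (∀ u ∈ p, ∀ v ∈ p, (u.1 = v.1 ↔ u.2 = v.2)) ∧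
    (∀ u ∈ p, ∀ v ∈ p, (Adj M u.1 v.1 ↔ Adj N u.2 v.2)) ∧
    (∀ u ∈ p, ∀ v ∈ p, (lt M.2 u.1 v.1 ↔ lt N.2 u.2 v.2)) ∧
    (∀ s, ∀ u ∈ p, ∀ v ∈ p, (ac M.2 s u.1 v.1 ↔ ac N.2 s u.2 v.2)) ∧
    (∀ k, ∀ u ∈ p, (co M.2 k u.1 ↔ co N.2 k u.2)) := by
  constructor
  · intro h
    have h2 : PIso (Pool.Agent.H533R2.VO.lift M.2) (Pool.Agent.H533R2.VO.lift N.2) p :=
      ⟨h.1, fun _ _ _ _ => rfl, h.2.2⟩
    rw [Pool.Agent.Y560.TG.piso_iff] at h2
    exact ⟨h.1, fun u hu v hv => Bool.eq_iff_iff.1 (h.2.1 u hu v hv), h2.2.1, h2.2.2.1, h2.2.2.2⟩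
  · rintro ⟨h1, h2, h3, h4, h5⟩
    have h6 : PIso (Pool.Agent.H533R2.VO.lift M.2) (Pool.Agent.H533R2.VO.lift N.2) p :=
      Pool.Agent.Y560.TG.piso_iff.2 ⟨h1, h3, h4, h5⟩
    exact ⟨h1, fun u hu v hv => Bool.eq_iff_iff.2 (h2 u hu v hv), h6.2.2⟩

/-- the atomic facts for coloured orders -/
theorem piso_iff (hM : AC μ M) (hN : AC μ N) : PIso M N p ↔
    (∀ u ∈ p, ∀ v ∈ p, (Adj M u.1 v.1 ↔ Adj N u.2 v.2)) ∧
    (∀ u ∈ p, ∀ v ∈ p, ¬ Adj M v.1 u.1 → cl M u.1 v.1 = cl N u.2 v.2) ∧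
    (∀ k, ∀ u ∈ p, (co M.2 k u.1 ↔ co N.2 k u.2)) := by
  rw [piso_raw]
  constructor
  · rintro ⟨h1, h2, h3, h4, h5⟩
    refine ⟨h2, fun u hu v hv _ => ?_, h5⟩
    have h6 : ac M.2 (cl M u.1 v.1) u.1 v.1 := (hM.col _ _ _).2 rfl
    exact ((hN.col _ _ _).1 ((h4 _ u hu v hv).1 h6)).symm
  · rintro ⟨h2, h4, h5⟩
    have hc : ∀ u ∈ p, ∀ v ∈ p, cl M u.1 v.1 = cl N u.2 v.2 := by
      intro u hu v hv
      by_cases h6 : Adj M v.1 u.1
      · rw [← hM.cl_comm h6, ← hN.cl_comm ((h2 v hv u hu).1 h6)]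
        exact h4 v hv u hu (hM.asymm h6)
      · exact h4 u hu v hv h6
    have h1 : ∀ u ∈ p, ∀ v ∈ p, (u.1 = v.1 ↔ u.2 = v.2) := by
      intro u hu v hv
      constructor
      · intro h
        refine hN.rig u.2 u.2 v.2 (hN.irr _) (hN.irr _) ?_ ?_ ?_
        · rw [← h2 u hu v hv, h]
          exact hM.irr _
        · rw [← h2 v hv u hu, h]
          exact hM.irr _
        · rw [← hc u hu v hv, ← hc u hu u hu, h]
      · intro h
        refine hM.rig u.1 u.1 v.1 (hM.irr _) (hM.irr _) ?_ ?_ ?_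
        · rw [h2 u hu v hv, h]
          exact hN.irr _
        · rw [h2 v hv u hu, h]
          exact hN.irr _
        · rw [hc u hu v hv, hc u hu u hu, h]
    refine ⟨h1, h2, fun u _ v _ => ⟨fun h => absurd h (hM.nl _ _), fun h => absurd h (hN.nl _ _)⟩,
      fun s u hu v hv => ?_, h5⟩
    rw [hM.col, hN.col, hc u hu v hv]

theorem piso_cl' (hM : AC μ M) (hN : AC μ N) (h : PIso M N p) {x x' y y' : ℕ} (hx : (x, x') ∈ p)
    (hy : (y, y') ∈ p) : cl M x y = cl N x' y' := by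
  by_cases h1 : Adj M y x
  · have h2 := (((piso_iff hM hN).1 h).1 _ hy _ hx).1 h1
    rw [← hM.cl_comm h1, ← hN.cl_comm h2]
    exact ((piso_iff hM hN).1 h).2.1 _ hy _ hx (hM.asymm h1)
  · exact ((piso_iff hM hN).1 h).2.1 _ hx _ hy h1

theorem piso_cl (hM : AC μ M) (hN : AC μ N) (h : PIso M N p) {x x' y y' : ℕ} (hx : (x, x') ∈ p)
    (hy : (y, y') ∈ p) (_ : Adj M x y) : cl M x y = cl N x' y' := piso_cl' hM hN h hx hy

/-- Two partial isomorphisms which agree at a point agree on its block. -/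
theorem piso_block (hM : AC μ M) (hN : AC μ N) {q : Set (ℕ × ℕ)} (h : PIso M N p)
    (h' : PIso M N q) {y y' x w w' : ℕ} (hy : (y, y') ∈ p) (hy' : (y, y') ∈ q)
    (hx : (x, w) ∈ p) (hx' : (x, w') ∈ q) (h1 : ¬ Adj M x y) (h2 : ¬ Adj M y x) : w = w' := by
  refine hN.rig y' w w' ?_ ?_ ?_ ?_ ?_
  · exact fun h3 => h2 ((h.adj hy hx).2 h3)
  · exact fun h3 => h1 ((h.adj hx hy).2 h3)
  · exact fun h3 => h2 ((h'.adj hy' hx').2 h3)
  · exact fun h3 => h1 ((h'.adj hx' hy').2 h3)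
  · rw [← piso_cl' hM hN h hy hx, ← piso_cl' hM hN h' hy' hx']

/-- Adding a point of a block. -/
theorem piso_add (hM : AC μ M) (hN : AC μ N) (h : PIso M N p) {x w y y' : ℕ} (hy : (y, y') ∈ p)
    (h1 : ¬ Adj M x y) (h2 : ¬ Adj M y x) (h3 : ¬ Adj N w y') (h4 : ¬ Adj N y' w)
    (h5 : cl M x y = cl N w y') (h6 : cl M y x = cl N y' w) : PIso M N (insert (x, w) p) := by
  have ha : ∀ u ∈ p, (Adj M u.1 x ↔ Adj N u.2 w) ∧ (Adj M x u.1 ↔ Adj N w u.2) := by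
    intro u hu
    rw [hM.blk_l h1 h2, hM.blk_r h1 h2, hN.blk_l h3 h4, hN.blk_r h3 h4]
    exact ⟨h.adj (x := u.1) (x' := u.2) hu hy, h.adj (y := u.1) (y' := u.2) hy hu⟩
  have hc : ∀ u ∈ p, cl M u.1 x = cl N u.2 w ∧ cl M x u.1 = cl N w u.2 := by
    intro u hu
    have k1 : cl M y u.1 = cl N y' u.2 := piso_cl' hM hN h hy (y := u.1) (y' := u.2) hu
    have k2 : cl M u.1 y = cl N u.2 y' := piso_cl' hM hN h (x := u.1) (x' := u.2) hu hy
    by_cases h7 : Adj M y u.1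
    · have h8 : Adj N y' u.2 := (h.adj (y := u.1) (y' := u.2) hy hu).1 h7
      have e : cl M x u.1 = cl N w u.2 := by
        rw [hM.bu x y u.1 h1 h2 h7, hN.bu w y' u.2 h3 h4 h8, h5, h6, k1]
      exact ⟨by rw [← hM.sy x u.1 ((hM.blk_r h1 h2 _).2 h7),
        ← hN.sy w u.2 ((hN.blk_r h3 h4 _).2 h8), e], e⟩
    by_cases h9 : Adj M u.1 y
    · have h8 : Adj N u.2 y' := (h.adj (x := u.1) (x' := u.2) hu hy).1 h9
      have e : cl M x u.1 = cl N w u.2 := by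
        rw [hM.bd x y u.1 h1 h2 h9, hN.bd w y' u.2 h3 h4 h8, h5, h6, k1]
      exact ⟨by rw [hM.sy u.1 x ((hM.blk_l h1 h2 _).2 h9),
        hN.sy u.2 w ((hN.blk_l h3 h4 _).2 h8), e], e⟩
    have g1 : ¬ Adj N y' u.2 := fun h10 => h7 ((h.adj (y := u.1) (y' := u.2) hy hu).2 h10)
    have g2 : ¬ Adj N u.2 y' := fun h10 => h9 ((h.adj (x := u.1) (x' := u.2) hu hy).2 h10)
    refine ⟨?_, ?_⟩
    · rw [hM.bb u.1 y x h9 h7 h1 h2, hN.bb u.2 y' w g2 g1 h3 h4, k1, k2, h5, h6]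
    · rw [hM.bb x y u.1 h1 h2 h9 h7, hN.bb w y' u.2 h3 h4 g2 g1, k1, k2, h5, h6]
  have hxx : cl M x x = cl N w w := by
    rw [hM.bb x y x h1 h2 h1 h2, hN.bb w y' w h3 h4 h3 h4, h5, h6]
  have hx := (piso_iff hM hN).1 h
  refine (piso_iff hM hN).2 ⟨?_, ?_, ?_⟩
  · rintro u (rfl | hu) v (rfl | hv)
    · exact ⟨fun h7 => absurd h7 (hM.irr _), fun h7 => absurd h7 (hN.irr _)⟩
    · exact (ha v hv).2
    · exact (ha u hu).1
    · exact hx.1 u hu v hv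
  · rintro u (rfl | hu) v (rfl | hv) h7
    · exact hxx
    · exact (hc v hv).2
    · exact (hc u hu).1
    · exact hx.2.1 u hu v hv h7
  · rintro k u (rfl | hu)
    · simp only
      rw [hM.una x y k h1 h2, hN.una w y' k h3 h4, h5, h6]
      exact hx.2.2 _ _ hy
    · exact hx.2.2 k u hu

theorem bf_add (hM : AC μ M) (hN : AC μ N) {X Y : Set ℕ} {o : Ordinal.{0}}
    (h : BF M N X Y o p) {x w y y' : ℕ} (hy : (y, y') ∈ p)
    (h1 : ¬ Adj M x y) (h2 : ¬ Adj M y x) (h3 : ¬ Adj N w y') (h4 : ¬ Adj N y' w)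
    (h5 : cl M x y = cl N w y') (h6 : cl M y x = cl N y' w) :
    BF M N X Y o (insert (x, w) p) := by
  induction o using WellFoundedLT.induction generalizing p with
  | ind o ih =>
    rw [BF_iff]
    refine ⟨piso_add hM hN h.piso hy h1 h2 h3 h4 h5 h6, fun o' ho' => ⟨fun z hz => ?_,
      fun z hz => ?_⟩⟩
    · obtain ⟨z', hz', hb⟩ := h.forth ho' hz
      refine ⟨z', hz', ?_⟩
      rw [insert_comm]
      exact ih o' ho' hb (mem_insert_of_mem _ hy)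
    · obtain ⟨z', hz', hb⟩ := h.back ho' hz
      refine ⟨z', hz', ?_⟩
      rw [insert_comm]
      exact ih o' ho' hb (mem_insert_of_mem _ hy)

theorem piso_union (hM : AC μ M) (hN : AC μ N) {r r' : Set (ℕ × ℕ)} {y y' : ℕ}
    (h : PIso M N p) (hy : (y, y') ∈ p) (hr : PIso M N r) (hyr : (y, y') ∈ r)
    (hsub : ∀ w ∈ r', w ∈ r ∧ ¬ Adj M w.1 y ∧ ¬ Adj M y w.1) : PIso M N (p ∪ r') := by
  have key : ∀ w ∈ r', PIso M N (insert w p) := by
    intro w hw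
    obtain ⟨h1, h2, h3⟩ := hsub w hw
    refine piso_add hM hN h (x := w.1) (w := w.2) hy h2 h3 ?_ ?_ ?_ ?_
    · exact fun h4 => h2 ((hr.adj (x := w.1) (x' := w.2) h1 hyr).2 h4)
    · exact fun h4 => h3 ((hr.adj (y := w.1) (y' := w.2) hyr h1).2 h4)
    · exact piso_cl' hM hN hr (x := w.1) (x' := w.2) h1 hyr
    · exact piso_cl' hM hN hr (y := w.1) (y' := w.2) hyr h1
  have main : ∀ u ∈ p ∪ r', ∀ v ∈ p ∪ r', ∃ q, PIso M N q ∧ u ∈ q ∧ v ∈ q := by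
    rintro u (hu | hu) v (hv | hv)
    · exact ⟨p, h, hu, hv⟩
    · exact ⟨_, key v hv, Or.inr hu, Or.inl rfl⟩
    · exact ⟨_, key u hu, Or.inl rfl, Or.inr hv⟩
    · exact ⟨r, hr, (hsub u hu).1, (hsub v hv).1⟩
  refine piso_raw.2 ⟨?_, ?_, ?_, ?_, ?_⟩
  · intro u hu v hv
    obtain ⟨q, hq, h1, h2⟩ := main u hu v hv
    exact (piso_raw.1 hq).1 u h1 v h2
  · intro u hu v hv
    obtain ⟨q, hq, h1, h2⟩ := main u hu v hv
    exact (piso_raw.1 hq).2.1 u h1 v h2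
  · intro u hu v hv
    obtain ⟨q, hq, h1, h2⟩ := main u hu v hv
    exact (piso_raw.1 hq).2.2.1 u h1 v h2
  · intro s u hu v hv
    obtain ⟨q, hq, h1, h2⟩ := main u hu v hv
    exact (piso_raw.1 hq).2.2.2.1 s u h1 v h2
  · intro k u hu
    obtain ⟨q, hq, h1, h2⟩ := main u hu u hu
    exact (piso_raw.1 hq).2.2.2.2 k u h1

theorem bf_block (hM : AC μ M) (hN : AC μ N) {r r' : Set (ℕ × ℕ)} {y y' : ℕ} {X Y : Set ℕ}
    {o : Ordinal.{0}} (h : BF M N X Y o p) (hy : (y, y') ∈ p) (hr : PIso M N r)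
    (hyr : (y, y') ∈ r) (hsub : ∀ w ∈ r', w ∈ r ∧ ¬ Adj M w.1 y ∧ ¬ Adj M y w.1) :
    BF M N X Y o (p ∪ r') := by
  induction o using WellFoundedLT.induction generalizing p with
  | ind o ih =>
    rw [BF_iff]
    refine ⟨piso_union hM hN h.piso hy hr hyr hsub, fun o' ho' => ⟨fun z hz => ?_,
      fun z hz => ?_⟩⟩
    · obtain ⟨z', hz', hb⟩ := h.forth ho' hz
      refine ⟨z', hz', ?_⟩
      rw [← insert_union]
      exact ih o' ho' hb (mem_insert_of_mem _ hy)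
    · obtain ⟨z', hz', hb⟩ := h.back ho' hz
      refine ⟨z', hz', ?_⟩
      rw [← insert_union]
      exact ih o' ho' hb (mem_insert_of_mem _ hy)

theorem iso_block (hM : AC μ M) (hN : AC μ N) {r r' : Set (ℕ × ℕ)} {y y' : ℕ} {X Y : Set ℕ}
    (h : IsoOn M N X Y p) (hy : (y, y') ∈ p) (hr : PIso M N r)
    (hyr : (y, y') ∈ r) (hsub : ∀ w ∈ r', w ∈ r ∧ ¬ Adj M w.1 y ∧ ¬ Adj M y w.1 ∧ w.1 ∈ X) :
    IsoOn M N X Y (p ∪ r') := by
  obtain ⟨q, q1, q2, q3, q4, q5⟩ := h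
  refine ⟨q, ?_, q2, q3, q4, q5⟩
  rintro w (hw | hw)
  · exact q1 hw
  · obtain ⟨h1, h2, h3, h4⟩ := hsub w hw
    obtain ⟨z, hz⟩ := q4 w.1 h4
    have e := piso_block hM hN hr q3 hyr (q1 hy) (x := w.1) (w := w.2) h1 hz h2 h3
    have e2 : w = (w.1, z) := Prod.ext rfl e
    rw [e2]
    exact hz

/-- Gluing of partial isomorphisms at a point. -/
theorem gluePIso (hM : AC μ M) (hN : AC μ N) {y y' : ℕ} (hy : (y, y') ∈ p)
    (h : PIso M N {u | u ∈ p ∧ ¬ Adj M y u.1}) (h' : PIso M N {u | u ∈ p ∧ ¬ Adj M u.1 y}) :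
    PIso M N p := by
  have hyl : (y, y') ∈ {u | u ∈ p ∧ ¬ Adj M y u.1} := ⟨hy, hM.irr y⟩
  have hyr : (y, y') ∈ {u | u ∈ p ∧ ¬ Adj M u.1 y} := ⟨hy, hM.irr y⟩
  -- position
  have hl : ∀ u ∈ p, Adj M u.1 y → Adj N u.2 y' := fun u hu hlt =>
    (h.adj (x := u.1) (x' := u.2) ⟨hu, hM.asymm hlt⟩ hyl).1 hlt
  have hr : ∀ u ∈ p, Adj M y u.1 → Adj N y' u.2 := fun u hu hlt =>
    (h'.adj hyr (y := u.1) (y' := u.2) ⟨hu, hM.asymm hlt⟩).1 hlt
  have hadj : ∀ u ∈ p, ∀ v ∈ p, (Adj M u.1 v.1 ↔ Adj N u.2 v.2) := by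
    intro u hu v hv
    by_cases h1 : Adj M y u.1
    · by_cases h2 : Adj M v.1 y
      · refine ⟨fun h3 => absurd (hM.tr _ _ _ h1 h3) (hM.asymm h2), fun h3 => ?_⟩
        exact absurd (hN.tr _ _ _ (hr u hu h1) h3) (hN.asymm (hl v hv h2))
      · exact h'.adj (x := u.1) (x' := u.2) (y := v.1) (y' := v.2) ⟨hu, hM.asymm h1⟩ ⟨hv, h2⟩
    · by_cases h2 : Adj M y v.1
      · by_cases h3 : Adj M u.1 y
        · exact ⟨fun _ => hN.tr _ _ _ (hl u hu h3) (hr v hv h2), fun _ => hM.tr _ _ _ h3 h2⟩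
        · exact h'.adj (x := u.1) (x' := u.2) (y := v.1) (y' := v.2) ⟨hu, h3⟩ ⟨hv, hM.asymm h2⟩
      · exact h.adj (x := u.1) (x' := u.2) (y := v.1) (y' := v.2) ⟨hu, h1⟩ ⟨hv, h2⟩
  refine (piso_iff hM hN).2 ⟨hadj, fun u hu v hv huv => ?_, fun k u hu => ?_⟩
  · by_cases h1 : Adj M y v.1
    · by_cases h2 : Adj M u.1 y
      · rw [hM.mul u.1 y v.1 h2 h1, hN.mul u.2 y' v.2 (hl u hu h2) (hr v hv h1),
          piso_cl hM hN h (x := u.1) (x' := u.2) ⟨hu, hM.asymm h2⟩ hyl h2,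
          piso_cl hM hN h' hyr (y := v.1) (y' := v.2) ⟨hv, hM.asymm h1⟩ h1]
      · exact piso_cl' hM hN h' (x := u.1) (x' := u.2) (y := v.1) (y' := v.2) ⟨hu, h2⟩
          ⟨hv, hM.asymm h1⟩
    · exact piso_cl' hM hN h (x := u.1) (x' := u.2) (y := v.1) (y' := v.2)
        ⟨hu, fun h2 => h1 (hM.lt_le h2 huv)⟩ ⟨hv, h1⟩
  · by_cases h1 : Adj M y u.1
    · exact ((piso_iff hM hN).1 h').2.2 k u ⟨hu, hM.asymm h1⟩
    · exact ((piso_iff hM hN).1 h).2.2 k u ⟨hu, h1⟩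

/-- Gluing of equivalences at a point. -/
theorem glueBF {X Y : Set ℕ} {o : Ordinal.{0}} (hM : AC μ M) (hN : AC μ N) {y y' : ℕ}
    (hy : (y, y') ∈ p)
    (h : BF M N (X ∩ Le M y) (Y ∩ Le N y') o {u | u ∈ p ∧ ¬ Adj M y u.1})
    (h' : BF M N (X ∩ Ge M y) (Y ∩ Ge N y') o {u | u ∈ p ∧ ¬ Adj M u.1 y}) : BF M N X Y o p := by
  induction o using WellFoundedLT.induction generalizing p with
  | ind o ih =>
    rw [BF_iff]
    have hp := gluePIso hM hN hy h.piso h'.piso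
    have hyl : (y, y') ∈ {u | u ∈ p ∧ ¬ Adj M y u.1} := ⟨hy, hM.irr y⟩
    have hyr : (y, y') ∈ {u | u ∈ p ∧ ¬ Adj M u.1 y} := ⟨hy, hM.irr y⟩
    have ins1 : ∀ x x', ¬ Adj M y x → {u | u ∈ insert (x, x') p ∧ ¬ Adj M y u.1} =
        insert (x, x') {u | u ∈ p ∧ ¬ Adj M y u.1} := by
      intro x x' hx
      ext u
      constructor
      · rintro ⟨hu | hu, hu'⟩
        · exact Or.inl hu
        · exact Or.inr ⟨hu, hu'⟩
      · rintro (hu | hu)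
        · exact ⟨Or.inl hu, by rw [hu]; exact hx⟩
        · exact ⟨Or.inr hu.1, hu.2⟩
    have ins2 : ∀ x x', Adj M x y → {u | u ∈ insert (x, x') p ∧ ¬ Adj M u.1 y} =
        {u | u ∈ p ∧ ¬ Adj M u.1 y} := by
      intro x x' hx
      ext u
      constructor
      · rintro ⟨hu | hu, hu'⟩
        · exact absurd hx (by rw [hu] at hu'; exact hu')
        · exact ⟨hu, hu'⟩
      · exact fun hu => ⟨Or.inr hu.1, hu.2⟩
    have ins3 : ∀ x x', ¬ Adj M x y → {u | u ∈ insert (x, x') p ∧ ¬ Adj M u.1 y} =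
        insert (x, x') {u | u ∈ p ∧ ¬ Adj M u.1 y} := by
      intro x x' hx
      ext u
      constructor
      · rintro ⟨hu | hu, hu'⟩
        · exact Or.inl hu
        · exact Or.inr ⟨hu, hu'⟩
      · rintro (hu | hu)
        · exact ⟨Or.inl hu, by rw [hu]; exact hx⟩
        · exact ⟨Or.inr hu.1, hu.2⟩
    have ins4 : ∀ x x', Adj M y x → {u | u ∈ insert (x, x') p ∧ ¬ Adj M y u.1} =
        {u | u ∈ p ∧ ¬ Adj M y u.1} := by
      intro x x' hx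
      ext u
      constructor
      · rintro ⟨hu | hu, hu'⟩
        · exact absurd hx (by rw [hu] at hu'; exact hu')
        · exact ⟨hu, hu'⟩
      · exact fun hu => ⟨Or.inr hu.1, hu.2⟩
    refine ⟨hp, fun o' ho' => ⟨fun x hx => ?_, fun z hz => ?_⟩⟩
    · by_cases h1 : Adj M x y
      · obtain ⟨w, hw, hb⟩ := h.forth ho' (x := x) ⟨hx, hM.asymm h1⟩
        refine ⟨w, hw.1, ih o' ho' (mem_insert_of_mem _ hy) ?_ ?_⟩
        · rw [ins1 x w (hM.asymm h1)]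
          exact hb
        · rw [ins2 x w h1]
          exact h'.mono ho'.le
      by_cases h2 : Adj M y x
      · obtain ⟨w, hw, hb⟩ := h'.forth ho' (x := x) ⟨hx, hM.asymm h2⟩
        refine ⟨w, hw.1, ih o' ho' (mem_insert_of_mem _ hy) ?_ ?_⟩
        · rw [ins4 x w h2]
          exact h.mono ho'.le
        · rw [ins3 x w (hM.asymm h2)]
          exact hb
      obtain ⟨w, hw, hb⟩ := h.forth ho' (x := x) ⟨hx, h2⟩
      obtain ⟨w', hw', hb'⟩ := h'.forth ho' (x := x) ⟨hx, h1⟩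
      obtain rfl := piso_block hM hN hb.piso hb'.piso (mem_insert_of_mem _ hyl)
        (mem_insert_of_mem _ hyr) (mem_insert _ _) (mem_insert _ _) h1 h2
      refine ⟨w, hw.1, ih o' ho' (mem_insert_of_mem _ hy) ?_ ?_⟩
      · rw [ins1 x w h2]
        exact hb
      · rw [ins3 x w h1]
        exact hb'
    · by_cases h1 : Adj N z y'
      · obtain ⟨w, hw, hb⟩ := h.back ho' (y := z) ⟨hz, hN.asymm h1⟩
        have hwy : Adj M w y := (hb.piso.adj (mem_insert _ _) (mem_insert_of_mem _ hyl)).2 h1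
        refine ⟨w, hw.1, ih o' ho' (mem_insert_of_mem _ hy) ?_ ?_⟩
        · rw [ins1 w z (hM.asymm hwy)]
          exact hb
        · rw [ins2 w z hwy]
          exact h'.mono ho'.le
      by_cases h2 : Adj N y' z
      · obtain ⟨w, hw, hb⟩ := h'.back ho' (y := z) ⟨hz, hN.asymm h2⟩
        have hwy : Adj M y w := (hb.piso.adj (mem_insert_of_mem _ hyr) (mem_insert _ _)).2 h2
        refine ⟨w, hw.1, ih o' ho' (mem_insert_of_mem _ hy) ?_ ?_⟩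
        · rw [ins4 w z hwy]
          exact h.mono ho'.le
        · rw [ins3 w z (hM.asymm hwy)]
          exact hb
      obtain ⟨w, hw, hb⟩ := h.back ho' (y := z) ⟨hz, h2⟩
      obtain ⟨w', hw', hb'⟩ := h'.back ho' (y := z) ⟨hz, h1⟩
      have k1 : ¬ Adj M w y := fun h3 =>
        h1 ((hb.piso.adj (mem_insert _ _) (mem_insert_of_mem _ hyl)).1 h3)
      have k2 : ¬ Adj M y w := fun h3 =>
        h2 ((hb.piso.adj (mem_insert_of_mem _ hyl) (mem_insert _ _)).1 h3)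
      have k1' : ¬ Adj M w' y := fun h3 =>
        h1 ((hb'.piso.adj (mem_insert _ _) (mem_insert_of_mem _ hyr)).1 h3)
      have k2' : ¬ Adj M y w' := fun h3 =>
        h2 ((hb'.piso.adj (mem_insert_of_mem _ hyr) (mem_insert _ _)).1 h3)
      have e : w = w' := by
        refine hM.rig y w w' k2 k1 k2' k1' ?_
        rw [piso_cl' hM hN hb.piso (mem_insert_of_mem _ hyl) (mem_insert _ _),
          piso_cl' hM hN hb'.piso (mem_insert_of_mem _ hyr) (mem_insert _ _)]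
      subst e
      refine ⟨w, hw.1, ih o' ho' (mem_insert_of_mem _ hy) ?_ ?_⟩
      · rw [ins1 w z k2]
        exact hb
      · rw [ins3 w z k1]
        exact hb'

/-- Gluing of isomorphisms at a point. -/
theorem glueIso {X Y : Set ℕ} (hM : AC μ M) (hN : AC μ N) {y y' : ℕ}
    (hyX : y ∈ X) (hy : (y, y') ∈ p)
    (h : IsoOn M N (X ∩ Le M y) (Y ∩ Le N y') {u | u ∈ p ∧ ¬ Adj M y u.1})
    (h' : IsoOn M N (X ∩ Ge M y) (Y ∩ Ge N y') {u | u ∈ p ∧ ¬ Adj M u.1 y}) : IsoOn M N X Y p := by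
  obtain ⟨q, q1, q2, q3, q4, q5⟩ := h
  obtain ⟨r, r1, r2, r3, r4, r5⟩ := h'
  have hyq : (y, y') ∈ q := q1 ⟨hy, hM.irr y⟩
  have hyr : (y, y') ∈ r := r1 ⟨hy, hM.irr y⟩
  have e1 : {u | u ∈ q ∪ r ∧ ¬ Adj M y u.1} ⊆ q := by
    rintro ⟨u, u'⟩ ⟨hu | hu, hu'⟩
    · exact hu
    · obtain ⟨w, hw⟩ := q4 u ⟨(r2 hu).1.1, hu'⟩
      rw [piso_block hM hN r3 q3 hyr hyq hu hw (r2 hu).1.2 hu']
      exact hw
  have e2 : {u | u ∈ q ∪ r ∧ ¬ Adj M u.1 y} ⊆ r := by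
    rintro ⟨u, u'⟩ ⟨hu | hu, hu'⟩
    · obtain ⟨w, hw⟩ := r4 u ⟨(q2 hu).1.1, hu'⟩
      rw [piso_block hM hN q3 r3 hyq hyr hu hw hu' (q2 hu).1.2]
      exact hw
    · exact hu
  refine ⟨q ∪ r, ?_, ?_, gluePIso hM hN (Or.inl hyq) (q3.mono e1) (r3.mono e2), ?_, ?_⟩
  · intro u hu
    by_cases h1 : Adj M y u.1
    · exact Or.inr (r1 ⟨hu, hM.asymm h1⟩)
    · exact Or.inl (q1 ⟨hu, h1⟩)
  · rintro u (hu | hu)
    · exact ⟨(q2 hu).1.1, (q2 hu).2.1⟩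
    · exact ⟨(r2 hu).1.1, (r2 hu).2.1⟩
  · intro x hx
    by_cases h1 : Adj M y x
    · obtain ⟨z, hz⟩ := r4 x ⟨hx, hM.asymm h1⟩
      exact ⟨z, Or.inr hz⟩
    · obtain ⟨z, hz⟩ := q4 x ⟨hx, h1⟩
      exact ⟨z, Or.inl hz⟩
  · intro x hx
    by_cases h1 : Adj N y' x
    · obtain ⟨z, hz⟩ := r5 x ⟨hx, hN.asymm h1⟩
      exact ⟨z, Or.inr hz⟩
    · obtain ⟨z, hz⟩ := q5 x ⟨hx, h1⟩
      exact ⟨z, Or.inl hz⟩

/-- Upgrade: an equivalence above `w` extends to a lower point `x`. -/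
theorem bf_upgrade (hM : AC μ M) {o : Ordinal.{0}} {L : Set ℕ} {x w b b' : ℕ} (hwL : w ∈ L)
    (hxL : x ∈ L) (hxw : ¬ Adj M w x) (hw : Adj M w b)
    (h : BF M M (L ∩ Ge M w) (L ∩ Ge M w) o {(w, w), (b, b')}) :
    BF M M L L o {(x, x), (w, w), (b, b')} := by
  have hwb : Adj M w b' := (h.piso.adj (Or.inl rfl) (Or.inr rfl)).1 hw
  refine glueBF hM hM (y := w) (y' := w) (Or.inr (Or.inl rfl)) ?_ ?_
  · refine bf_id ?_
    rintro ⟨u, u'⟩ ⟨hu | hu | hu, hu'⟩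
    · obtain ⟨rfl, rfl⟩ := Prod.mk.inj hu
      exact ⟨rfl, hxL, hxw⟩
    · obtain ⟨rfl, rfl⟩ := Prod.mk.inj hu
      exact ⟨rfl, hwL, hM.irr _⟩
    · obtain ⟨rfl, rfl⟩ := Prod.mk.inj hu
      exact absurd hw hu'
  · by_cases h1 : Adj M x w
    · refine h.subset ?_
      rintro ⟨u, u'⟩ ⟨hu | hu, hu'⟩
      · obtain ⟨rfl, rfl⟩ := Prod.mk.inj hu
        exact absurd h1 hu'
      · exact hu
    · refine (bf_add hM hM h (Or.inl rfl) h1 hxw h1 hxw rfl rfl).subset ?_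
      rintro ⟨u, u'⟩ ⟨hu, hu'⟩
      exact hu

end piso

end Pool.Agent.N643.AX
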