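import Pool.Agent.N643.AX.Rank
import Mathlib.Order.Filter.Ultrafilter.Basic

set_option autoImplicit false

/-!
# Canonical cuts

Partial isomorphisms which respect a cut need not agree across the cut. But there are only finitely
many ways to continue across the cut, and a compactness argument applies.
-/

namespace Pool.Agent.N643.AX

open Set
open Pool.Agent.H899R2.VP
open Pool.Agent.H533R2.VO (Ic Ge Le Gt Lt Lev Lw Uw Lx NoLast Mt Cls Cl Rk Rr Bg rev revS resBF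
  resIso resGe resLe resGt resLt resIc resIsoLt resIsoIc resIsoGe bf_id bf_comp0 bf_comp1 bf_comp2
  bf_symm0 bf_symm1 bf_symm2 iso_symm0 iso_trans0 iso_refl0 bf_mem_right bf_mem_left mem_Ic mem_Ge
  mem_Le Lw_ge mem_Lx canpi canpi_mem canpi_le canpi_iff)
open Pool.Agent.H566P (ar R2 v2 lt ac co mk)

variable {μ : Par} {S : Set (SM × Set ℕ)} {l m n k o : Ordinal.{0}} {M M' : SM}
  {u u' x x' y y' : ℕ} {φ : Set (ℕ × ℕ)}

/-- A set of functions which are determined by their values far out, with values in a finite set,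
is finite. -/
theorem fin_fun {P : Type} (H : Set (P → ℕ))
    (dir : ∀ p q, ∃ t, ∀ h ∈ H, ∀ h' ∈ H, h t = h' t → h p = h' p ∧ h q = h' q)
    (F : Set ℕ) (hF : F.Finite) (hv : ∀ h ∈ H, ∀ p, h p ∈ F) : H.Finite := by
  classical
  rcases isEmpty_or_nonempty P with hP | ⟨⟨p0⟩⟩
  · exact (Set.subsingleton_of_subsingleton (s := H)).finite
  by_contra hinf
  obtain ⟨t, htH, htc⟩ := (show H.Infinite from hinf).exists_subset_card_eq
    (hF.toFinset.card + 1)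
  -- a point separating all members of `t`
  have key : ∀ A : Finset P, ∃ s, ∀ p ∈ A, ∀ h ∈ H, ∀ h' ∈ H, h s = h' s → h p = h' p := by
    intro A
    induction A using Finset.induction_on with
    | empty => exact ⟨p0, fun p hp => absurd hp (Finset.notMem_empty p)⟩
    | insert a A _ ih =>
      obtain ⟨s, hs⟩ := ih
      obtain ⟨s', hs'⟩ := dir s a
      refine ⟨s', fun p hp h hh h' hh' he => ?_⟩
      obtain ⟨e1, e2⟩ := hs' h hh h' hh' he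
      rcases Finset.mem_insert.1 hp with rfl | hp
      · exact e2
      · exact hs p hp h hh h' hh' e1
  have hsep : ∀ h h' : P → ℕ, ∃ p, h ≠ h' → h p ≠ h' p := by
    intro h h'
    by_cases he : h = h'
    · exact ⟨p0, fun h1 => absurd he h1⟩
    · obtain ⟨p, hp⟩ := Function.ne_iff.1 he
      exact ⟨p, fun _ => hp⟩
  choose sep hsep using hsep
  obtain ⟨s, hs⟩ := key ((t ×ˢ t).image fun q => sep q.1 q.2)
  have hinj : Set.InjOn (fun h : P → ℕ => h s) (t : Set (P → ℕ)) := by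
    intro h hh h' hh' he
    by_contra hne
    refine hsep h h' hne (hs _ ?_ h (htH hh) h' (htH hh') he)
    exact Finset.mem_image.2 ⟨(h, h'), Finset.mem_product.2 ⟨hh, hh'⟩, rfl⟩
  have hle : t.card ≤ hF.toFinset.card := by
    refine Finset.card_le_card_of_injOn (fun h => h s) ?_ hinj
    intro h hh
    exact hF.mem_toFinset.2 (hv h (htH hh) s)
  omega

theorem canpi_adj (hM : AC μ M) {L : Set ℕ} {D : ℕ → Set ℕ}
    (hi : ∀ n, ∀ z ∈ D n, ∀ w ∈ L, ¬ Adj M z w → w ∈ D n) (hc : ∀ z ∈ L, ∃ n, z ∈ D n) :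
    ∀ z ∈ L, ∀ w ∈ L, canpi D z < canpi D w → Adj M z w := by
  intro z hz w hw h
  by_contra h1
  exact absurd (canpi_le (hi _ _ (canpi_mem (hc z hz)) w hw h1)) (not_le.2 h)

/-- the cuts are respected, and cofinally many ways of crossing agree -/
theorem can_glue (hM : AC μ M) (hM' : AC μ M') {L L' : Set ℕ} {D D' : ℕ → Set ℕ}
    (hu' : ∀ z ∈ L', ¬ Adj M' z u')
    (hD : ∀ n, D n ⊆ L) (hD' : ∀ n, D' n ⊆ L')
    (hDi : ∀ n, ∀ z ∈ D n, ∀ w ∈ L, ¬ Adj M z w → w ∈ D n)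
    (hDi' : ∀ n, ∀ z ∈ D' n, ∀ w ∈ L', ¬ Adj M' z w → w ∈ D' n)
    (hmo : ∀ i j, i ≤ j → D i ⊆ D j) (hmo' : ∀ i j, i ≤ j → D' i ⊆ D' j)
    (hDc : ∀ z ∈ L, ∃ n, z ∈ D n) (hDc' : ∀ z ∈ L', ∃ n, z ∈ D' n)
    (hDe' : ∀ n, ∃ e ∈ L', e ∉ D' n)
    (Φ : ℕ → Set (ℕ × ℕ)) (h1 : ∀ n, PIso M M' (Φ n)) (h2 : ∀ n, Φ n ⊆ L ×ˢ L')
    (h3 : ∀ n, ∀ w ∈ Φ n, ∀ m, (w.1 ∈ D m ↔ w.2 ∈ D' m))
    (h4 : ∀ n, ∀ z ∈ D n, ∃ z', (z, z') ∈ Φ n) (h5 : ∀ n, ∀ z' ∈ D' n, ∃ z, (z, z') ∈ Φ n) :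
    IsoOn M M' L L' ∅ := by
  classical
  choose e he1 he2 using hDe'
  let 𝒰 : Ultrafilter ℕ := Filter.hyperfilter ℕ
  -- agreement at one cut
  have hU : ∀ i, ∃ U ∈ 𝒰, (∀ n ∈ U, i ≤ n) ∧ ∀ n ∈ U, ∀ n' ∈ U, ∀ x ∈ D i, ∀ x1 x2,
      (x, x1) ∈ Φ n → (x, x2) ∈ Φ n' → ∀ w ∈ L', w ∉ D' i → ¬ Adj M' (e i) w →
        cl M' x1 w = cl M' x2 w := by
    intro i
    let P : Type := {q : ℕ × ℕ // q.1 ∈ D i ∧ q.2 ∈ L' ∧ q.2 ∉ D' i ∧ ¬ Adj M' (e i) q.2}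
    have hf : ∀ n x, ∃ x1, i ≤ n → x ∈ D i → (x, x1) ∈ Φ n := by
      intro n x
      by_cases h : i ≤ n ∧ x ∈ D i
      · obtain ⟨x1, hx1⟩ := h4 n x (hmo i n h.1 h.2)
        exact ⟨x1, fun _ _ => hx1⟩
      · exact ⟨0, fun h6 h7 => absurd ⟨h6, h7⟩ h⟩
    choose f hf using hf
    let h : ℕ → P → ℕ := fun n q => cl M' (f n q.1.1) q.1.2
    have hlt : ∀ n, i ≤ n → ∀ x ∈ D i, ∀ w ∈ L', w ∉ D' i → Adj M' (f n x) w := by
      intro n hn x hx w hw hwD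
      by_contra hc
      exact hwD (hDi' i _ ((h3 n _ (hf n x hn hx) i).1 hx) w hw hc)
    have hfin : (h '' {n | i ≤ n}).Finite := by
      refine fin_fun _ ?_ _ (hM'.fin u' (e i)) ?_
      · rintro ⟨⟨x, w⟩, hx, hw, hwD, hwe⟩ ⟨⟨x2, w2⟩, hx2, hw2, hwD2, hwe2⟩
        simp only at hx hw hwD hwe hx2 hw2 hwD2 hwe2
        -- the larger of the first and the smaller of the second coordinates
        obtain ⟨a, ha, ha1, ha2⟩ : ∃ a ∈ D i, ¬ Adj M a x ∧ ¬ Adj M a x2 := by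
          by_cases hc : Adj M x x2
          · exact ⟨x2, hx2, hM.asymm hc, hM.irr x2⟩
          · exact ⟨x, hx, hM.irr x, hc⟩
        obtain ⟨b, hb, hbD, hbe, hb1, hb2⟩ : ∃ b ∈ L', b ∉ D' i ∧ ¬ Adj M' (e i) b ∧
            ¬ Adj M' w b ∧ ¬ Adj M' w2 b := by
          by_cases hc : Adj M' w w2
          · exact ⟨w, hw, hwD, hwe, hM'.irr w, hM'.asymm hc⟩
          · exact ⟨w2, hw2, hwD2, hwe2, hc, hM'.irr w2⟩
        have step : ∀ c ∈ D i, ¬ Adj M a c → ∀ d, ¬ Adj M' d b → ∀ n, i ≤ n → ∀ n', i ≤ n' →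
            cl M' (f n a) b = cl M' (f n' a) b → cl M' (f n c) d = cl M' (f n' c) d := by
          intro c hc hac d hbd n hn n' hn' heq
          have e1 : cl M' (f n c) b = cl M' (f n' c) b := by
            have hc1 := hf n c hn hc
            have ha1 := hf n a hn ha
            have hc2 := hf n' c hn' hc
            have ha2 := hf n' a hn' ha
            by_cases hca' : Adj M c a
            · rw [hM'.mul _ _ _ (((h1 n).adj hc1 ha1).1 hca') (hlt n hn a ha b hb hbD),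
                hM'.mul _ _ _ (((h1 n').adj hc2 ha2).1 hca') (hlt n' hn' a ha b hb hbD), heq,
                ← piso_cl hM hM' (h1 n) hc1 ha1 hca', ← piso_cl hM hM' (h1 n') hc2 ha2 hca']
            · rw [hM'.bu _ _ _ (fun h6 => hca' (((h1 n).adj hc1 ha1).2 h6))
                  (fun h6 => hac (((h1 n).adj ha1 hc1).2 h6)) (hlt n hn a ha b hb hbD),
                hM'.bu _ _ _ (fun h6 => hca' (((h1 n').adj hc2 ha2).2 h6))
                  (fun h6 => hac (((h1 n').adj ha2 hc2).2 h6)) (hlt n' hn' a ha b hb hbD), heq,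
                ← piso_cl' hM hM' (h1 n) hc1 ha1, ← piso_cl' hM hM' (h1 n') hc2 ha2,
                ← piso_cl' hM hM' (h1 n) ha1 hc1, ← piso_cl' hM hM' (h1 n') ha2 hc2]
          by_cases hdb' : Adj M' b d
          · rw [hM'.mul _ _ _ (hlt n hn c hc b hb hbD) hdb',
              hM'.mul _ _ _ (hlt n' hn' c hc b hb hbD) hdb', e1]
          · rw [hM'.br hbd hdb' (hlt n hn c hc b hb hbD),
              hM'.br hbd hdb' (hlt n' hn' c hc b hb hbD), e1]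
        refine ⟨⟨(a, b), ha, hb, hbD, hbe⟩, ?_⟩
        rintro _ ⟨n, hn, rfl⟩ _ ⟨n', hn', rfl⟩ heq
        exact ⟨step x hx ha1 w hb1 n hn n' hn' heq, step x2 hx2 ha2 w2 hb2 n hn n' hn' heq⟩
      · rintro _ ⟨n, hn, rfl⟩ ⟨⟨x, w⟩, hx, hw, hwD, hwe⟩
        have h6 := hf n x hn hx
        exact ⟨f n x, w, hu' _ (h2 n h6).2, hM'.asymm (hlt n hn x hx w hw hwD), hwe, rfl⟩
    have hmem : (⋃ g ∈ h '' {n | i ≤ n}, {n | i ≤ n ∧ h n = g}) ∈ 𝒰 := by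
      refine Filter.mem_of_superset (Filter.mem_hyperfilter_of_finite_compl
        (s := {n | i ≤ n}) ?_) ?_
      · refine (Set.finite_lt_nat i).subset fun n hn => ?_
        exact lt_of_not_ge fun h => hn (show i ≤ n from h)
      · intro n hn
        exact mem_biUnion (mem_image_of_mem h hn) ⟨hn, rfl⟩
    obtain ⟨g, -, hg⟩ := (Ultrafilter.finite_biUnion_mem_iff hfin).1 hmem
    refine ⟨_, hg, fun n hn => hn.1, ?_⟩
    intro n hn n' hn' x hx x1 x2 hx1 hx2 w hw hwD hwe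
    have e1 : x1 = f n x := (h1 n).snd_eq hx1 (hf n x hn.1 hx) rfl
    have e2 : x2 = f n' x := (h1 n').snd_eq hx2 (hf n' x hn'.1 hx) rfl
    have e3 : h n = h n' := hn.2.trans hn'.2.symm
    have e4 := congrFun e3 ⟨(x, w), hx, hw, hwD, hwe⟩
    rw [e1, e2]
    exact e4
  choose U hU1 hU2 hU3 using hU
  have hν : ∀ c, ∃ ν, ∀ i ≤ c, ν ∈ U i := by
    intro c
    have h6 : (⋂ i ∈ {i | i ≤ c}, U i) ∈ 𝒰 :=
      (Filter.biInter_mem (Set.finite_le_nat c)).2 fun i _ => hU1 i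
    obtain ⟨ν, hν⟩ := Ultrafilter.nonempty_of_mem h6
    exact ⟨ν, fun i hi => mem_iInter₂.1 hν i hi⟩
  choose ν hν using hν
  have hge : ∀ c, c ≤ ν c := fun c => hU2 c _ (hν c c le_rfl)
  have hkey : ∀ n, ∀ w ∈ Φ n, canpi D w.1 = canpi D' w.2 := by
    intro n w hw
    have h6 := (canpi_iff (c := canpi D' w.2) (hDc _ (h2 n hw).1)).2
    refine h6 ⟨(h3 n w hw _).2 (canpi_mem (hDc' _ (h2 n hw).2)), fun m hm hmem => ?_⟩
    exact absurd (canpi_le ((h3 n w hw m).1 hmem)) (not_le.2 hm)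
  let q : Set (ℕ × ℕ) := {w | w ∈ Φ (ν (canpi D w.1))}
  refine ⟨q, empty_subset _, fun w hw => h2 _ hw, (piso_iff hM hM').2 ⟨?_, ?_, ?_⟩, ?_, ?_⟩
  · intro v hv w hw
    have hv' : v ∈ Φ (ν (canpi D v.1)) := hv
    have hw' : w ∈ Φ (ν (canpi D w.1)) := hw
    have kv := hkey _ v hv'
    have kw := hkey _ w hw'
    rcases lt_trichotomy (canpi D v.1) (canpi D w.1) with h6 | h6 | h6
    · have a1 := canpi_adj hM hDi hDc _ (h2 _ hv').1 _ (h2 _ hw').1 h6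
      have a2 := canpi_adj hM' hDi' hDc' _ (h2 _ hv').2 _ (h2 _ hw').2 (by rw [← kv, ← kw]; exact h6)
      exact ⟨fun _ => a2, fun _ => a1⟩
    · rw [← h6] at hw'
      exact (h1 _).adj (x := v.1) (x' := v.2) (y := w.1) (y' := w.2) hv' hw'
    · have a1 := canpi_adj hM hDi hDc _ (h2 _ hw').1 _ (h2 _ hv').1 h6
      have a2 := canpi_adj hM' hDi' hDc' _ (h2 _ hw').2 _ (h2 _ hv').2 (by rw [← kv, ← kw]; exact h6)
      exact ⟨fun h7 => absurd h7 (hM.asymm a1), fun h7 => absurd h7 (hM'.asymm a2)⟩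
  · intro v hv w hw hvw
    have hv' : v ∈ Φ (ν (canpi D v.1)) := hv
    have hw' : w ∈ Φ (ν (canpi D w.1)) := hw
    have kv := hkey _ v hv'
    have kw := hkey _ w hw'
    rcases lt_trichotomy (canpi D v.1) (canpi D w.1) with h6 | h6 | h6
    · set i := canpi D v.1 with hi
      set j := canpi D w.1 with hj
      have hvD : v.1 ∈ D i := canpi_mem (hDc _ (h2 _ hv').1)
      have hvDj : v.1 ∈ D (ν j) := hmo i _ (h6.le.trans (hge j)) hvD
      obtain ⟨x2, hx2⟩ := h4 _ _ hvDj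
      have hwD : w.2 ∉ D' i := by
        intro h7
        have := canpi_le h7
        omega
      have hlt : ∀ n, ∀ z, (v.1, z) ∈ Φ n → ∀ t ∈ L', t ∉ D' i → Adj M' z t := by
        intro n z hz t ht htD
        by_contra hc
        exact htD (hDi' i z ((h3 n _ hz i).1 hvD) t ht hc)
      have e1 : cl M' v.2 w.2 = cl M' x2 w.2 := by
        by_cases h7 : Adj M' (e i) w.2
        · have h8 := hU3 i _ (hν i i le_rfl) _ (hν j i h6.le) v.1 hvD v.2 x2 hv' hx2 (e i)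
            (he1 i) (he2 i) (hM'.irr _)
          rw [hM'.mul _ _ _ (hlt _ v.2 hv' (e i) (he1 i) (he2 i)) h7,
            hM'.mul _ _ _ (hlt _ x2 hx2 (e i) (he1 i) (he2 i)) h7, h8]
        · exact hU3 i _ (hν i i le_rfl) _ (hν j i h6.le) v.1 hvD v.2 x2 hv' hx2 w.2
            (h2 _ hw').2 hwD h7
      rw [e1]
      exact piso_cl' hM hM' (h1 _) hx2 (y := w.1) (y' := w.2) hw'
    · rw [← h6] at hw'
      exact piso_cl' hM hM' (h1 _) (x := v.1) (x' := v.2) (y := w.1) (y' := w.2) hv' hw'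
    · exact absurd (canpi_adj hM hDi hDc _ (h2 _ hw').1 _ (h2 _ hv').1 h6) hvw
  · intro k v hv
    exact ((piso_iff hM hM').1 (h1 _)).2.2 k v hv
  · intro z hz
    have h6 : z ∈ D (ν (canpi D z)) := hmo _ _ (hge _) (canpi_mem (hDc z hz))
    obtain ⟨z', hz'⟩ := h4 _ z h6
    exact ⟨z', hz'⟩
  · intro z' hz'
    have h6 : z' ∈ D' (ν (canpi D' z')) := hmo' _ _ (hge _) (canpi_mem (hDc' z' hz'))
    obtain ⟨z, hz⟩ := h5 _ z' h6
    refine ⟨z, ?_⟩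
    show (z, z') ∈ Φ (ν (canpi D z))
    have h7 : canpi D z = canpi D' z' := hkey _ (z, z') hz
    rw [h7]
    exact hz

theorem t_CAN {ι : Type 1} (hS : Fam μ S) (hl : Lev S l) (hol : Ordinal.omega0 ≤ l)
    (hln : l ≤ n) (hnk : n < k) (hM : AC μ M) (hM' : AC μ M') (hNL : NoLast M (Lw S M u))
    (hx : x ∈ Lw S M u) (hbf : BF M M' (Lw S M u) (Lw S M' u') k {(u, u'), (x, x')})
    (A A' : ι → Set ℕ)
    (hA : ∀ i, ∀ z ∈ A i, z ∈ Lw S M u ∧ ∀ w ∈ Lw S M u, ¬ Adj M z w → w ∈ A i)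
    (hA' : ∀ i, ∀ z ∈ A' i, z ∈ Lw S M' u' ∧ ∀ w ∈ Lw S M' u', ¬ Adj M' z w → w ∈ A' i)
    (he : ∀ i, ∃ e ∈ Lw S M u, e ∉ A i) (hcov : ∀ z ∈ Lw S M u, ∃ i, z ∈ A i)
    (hinv : ∀ y y' φ, Mt S M M' u u' n y y' φ → (x, x') ∈ φ → Adj M x y →
      ∀ i, ∀ w ∈ φ, (w.1 ∈ A i ↔ w.2 ∈ A' i)) :
    IsoOn M M' (Lw S M u) (Lw S M' u') ∅ := by
  classical
  obtain ⟨hT1, hT2⟩ := t_MTX hS hl hol hln hnk hM hM' hNL hx hbf
  obtain ⟨i0, hi0⟩ := hcov x hx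
  have : Nonempty ι := ⟨i0⟩
  choose! kap hkap using hcov
  let D : ℕ → Set ℕ := fun n => {z | ∃ m ≤ n, m ∈ Lw S M u ∧ z ∈ A (kap m)}
  let D' : ℕ → Set ℕ := fun n => {z | ∃ m ≤ n, m ∈ Lw S M u ∧ z ∈ A' (kap m)}
  have hDL : ∀ n, D n ⊆ Lw S M u := by
    rintro n z ⟨m, hm, hmL, hz⟩
    exact (hA _ _ hz).1
  have hDL' : ∀ n, D' n ⊆ Lw S M' u' := by
    rintro n z ⟨m, hm, hmL, hz⟩
    exact (hA' _ _ hz).1
  have hDi : ∀ n, ∀ z ∈ D n, ∀ w ∈ Lw S M u, ¬ Adj M z w → w ∈ D n := by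
    rintro n z ⟨m, hm, hmL, hz⟩ w hw hzw
    exact ⟨m, hm, hmL, (hA _ _ hz).2 w hw hzw⟩
  have hDi' : ∀ n, ∀ z ∈ D' n, ∀ w ∈ Lw S M' u', ¬ Adj M' z w → w ∈ D' n := by
    rintro n z ⟨m, hm, hmL, hz⟩ w hw hzw
    exact ⟨m, hm, hmL, (hA' _ _ hz).2 w hw hzw⟩
  have hDe : ∀ n, ∃ e ∈ Lw S M u, e ∉ D n := by
    intro n
    induction n with
    | zero =>
      obtain ⟨e, he1, he2⟩ := he (kap 0)
      refine ⟨e, he1, ?_⟩
      rintro ⟨m, hm, hmL, hz⟩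
      have hm0 : m = 0 := by omega
      subst hm0
      exact he2 hz
    | succ n ih =>
      obtain ⟨e, he1, he2⟩ := ih
      obtain ⟨e', he1', he2'⟩ := he (kap (n + 1))
      by_cases hee : Adj M e' e
      · refine ⟨e, he1, ?_⟩
        rintro ⟨m, hm, hmL, hz⟩
        rcases Nat.lt_or_ge m (n + 1) with h1 | h1
        · exact he2 ⟨m, by omega, hmL, hz⟩
        · have hm0 : m = n + 1 := by omega
          subst hm0
          exact he2' ((hA _ _ hz).2 e' he1' (hM.asymm hee))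
      · refine ⟨e', he1', ?_⟩
        rintro ⟨m, hm, hmL, hz⟩
        rcases Nat.lt_or_ge m (n + 1) with h1 | h1
        · exact he2 (hDi n e' ⟨m, by omega, hmL, hz⟩ e he1 hee)
        · have hm0 : m = n + 1 := by omega
          subst hm0
          exact he2' hz
  have hphi : ∀ n, ∃ φ : Set (ℕ × ℕ), PIso M M' φ ∧ φ ⊆ Lw S M u ×ˢ Lw S M' u' ∧
      (∀ w ∈ φ, ∀ m, (w.1 ∈ D m ↔ w.2 ∈ D' m)) ∧ (∀ z ∈ D n, ∃ z', (z, z') ∈ φ) ∧
      (∀ z' ∈ D' n, ∃ z, (z, z') ∈ φ) ∧ ∃ e ∈ Lw S M' u', e ∉ D' n := by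
    intro n
    obtain ⟨e, he1, he2⟩ := hDe n
    obtain ⟨y, y', φ, hm, hxp, hxy, hey⟩ := hT1 e he1
    have hiff : ∀ w ∈ φ, ∀ m, (w.1 ∈ D m ↔ w.2 ∈ D' m) := by
      intro w hw m
      constructor
      · rintro ⟨m', h1, h2, h3⟩
        exact ⟨m', h1, h2, (hinv y y' φ hm hxp hxy _ w hw).1 h3⟩
      · rintro ⟨m', h1, h2, h3⟩
        exact ⟨m', h1, h2, (hinv y y' φ hm hxp hxy _ w hw).2 h3⟩
    have hyD : y ∉ D n := fun hy => he2 (hDi n y hy e he1 (hM.asymm hey))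
    have hyD' : y' ∉ D' n := fun hy => hyD ((hiff _ hm.top n).2 hy)
    refine ⟨φ, hm.piso, ?_, hiff, ?_, ?_, y', hm.memR, hyD'⟩
    · intro w hw
      have h1 := hm.subset hw
      exact ⟨Lw_Ic hS hM hm.memL h1.1, Lw_Ic hS hM' hm.memR h1.2⟩
    · intro z hz
      exact hm.total z ⟨(hDL n hz).1, fun h1 => hyD (hDi n z hz y hm.memL (hM.asymm h1))⟩
    · intro z hz
      exact hm.surj z ⟨(hDL' n hz).1, fun h1 => hyD' (hDi' n z hz y' hm.memR (hM'.asymm h1))⟩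
  have hDc : ∀ z ∈ Lw S M u, ∃ n, z ∈ D n := fun z hz => ⟨z, z, le_refl _, hz, hkap z hz⟩
  have hDc' : ∀ z ∈ Lw S M' u', ∃ n, z ∈ D' n := by
    intro z' hz'
    obtain ⟨y, y', φ, hm, hxp, hxy, hzy⟩ := hT2 z' hz'
    obtain ⟨z, hz⟩ := hm.surj z' ⟨hz'.1, hM'.asymm hzy⟩
    have hzL : z ∈ Lw S M u := Lw_Ic hS hM hm.memL (hm.subset hz).1
    exact ⟨z, z, le_refl _, hzL, (hinv y y' φ hm hxp hxy _ _ hz).1 (hkap z hzL)⟩
  choose Φ p1 p2 p3 p4 p5 p6 using hphi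
  refine can_glue (u' := u') hM hM' (fun z hz => hz.1) hDL hDL' hDi hDi' ?_ ?_ hDc hDc' p6 Φ p1 p2
    p3 p4 p5
  · rintro i j hij z ⟨m, hm, h7⟩
    exact ⟨m, hm.trans hij, h7⟩
  · rintro i j hij z ⟨m, hm, h7⟩
    exact ⟨m, hm.trans hij, h7⟩

end Pool.Agent.N643.AX
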