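import Pool.Agent.N643.AX.Cut

set_option autoImplicit false

/-!
# The cases with closed initial segments
-/

namespace Pool.Agent.N643.AX

open Set
open Pool.Agent.H899R2.VP
open Pool.Agent.H533R2.VO (Ic Ge Le Gt Lt Lev Lw Uw Lx NoLast Mt Cls Cl Rk Rr Bg rev revS resBF
  resIso resGe resLe resGt resLt resIc resIsoLt resIsoIc resIsoGe bf_id bf_comp0 bf_comp1 bf_comp2
  bf_symm0 bf_symm1 bf_symm2 iso_symm0 iso_trans0 iso_refl0 bf_mem_right bf_mem_left mem_Ic mem_Ge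
  mem_Le Lw_ge mem_Lx canpi canpi_mem canpi_le canpi_iff)
open Pool.Agent.H566P (ar R2 v2 lt ac co mk)

variable {μ : Par} {S : Set (SM × Set ℕ)} {l m n k o : Ordinal.{0}} {M M' : SM}
  {u u' x x' y y' v v' : ℕ} {φ : Set (ℕ × ℕ)} {A B A' B' C X Y : Set ℕ}

theorem chain_lt (hM : AC μ M) {c : ℕ → ℕ} (hc : ∀ i, Adj M (c i) (c (i + 1))) {i j : ℕ}
    (h : i ≤ j) : ¬ Adj M (c j) (c i) := by
  induction j, h using Nat.le_induction with
  | base => exact hM.irr _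
  | succ j _ ih => exact hM.le_trans ih (hM.asymm (hc j))

/-- gluing along a cofinal sequence -/
theorem t_GLW (hS : Fam μ S) (hM : AC μ M) (hM' : AC μ M') {c c' : ℕ → ℕ}
    (hcL : ∀ i, c i ∈ Lw S M u) (hcL' : ∀ i, c' i ∈ Lw S M' u')
    (hc : ∀ i, Adj M (c i) (c (i + 1))) (hc' : ∀ i, Adj M' (c' i) (c' (i + 1)))
    (hL : ∀ z ∈ Lw S M u, ∃ i, Adj M z (c i)) (hL' : ∀ z ∈ Lw S M' u', ∃ i, Adj M' z (c' i))
    (h0 : IsoOn M M' (Ic M u (c 0)) (Ic M' u' (c' 0)) {(c 0, c' 0)})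
    (hi : ∀ i, IsoOn M M' (Ic M (c i) (c (i + 1))) (Ic M' (c' i) (c' (i + 1)))
      {(c i, c' i), (c (i + 1), c' (i + 1))}) :
    IsoOn M M' (Lw S M u) (Lw S M' u') ∅ := by
  obtain ⟨q0, a1, a2, a3, a4, a5⟩ := h0
  choose r r1 r2 r3 r4 r5 using hi
  let q : ℕ → Set (ℕ × ℕ) := fun n => Nat.rec q0 (fun i q => q ∪ r i) n
  have hqs : ∀ n, q (n + 1) = q n ∪ r n := fun _ => rfl
  have key : ∀ n, (c n, c' n) ∈ q n ∧ q n ⊆ Ic M u (c n) ×ˢ Ic M' u' (c' n) ∧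
      PIso M M' (q n) ∧ (∀ z ∈ Ic M u (c n), ∃ z', (z, z') ∈ q n) ∧
      (∀ z' ∈ Ic M' u' (c' n), ∃ z, (z, z') ∈ q n) := by
    intro n
    induction n with
    | zero => exact ⟨a1 rfl, a2, a3, a4, a5⟩
    | succ n ih =>
      obtain ⟨b1, b2, b3, b4, b5⟩ := ih
      rw [hqs]
      have hcn : (c n, c' n) ∈ r n := r1 n (Or.inl rfl)
      have e1 : {w | w ∈ q n ∪ r n ∧ ¬ Adj M (c n) w.1} ⊆ q n := by
        rintro ⟨w, w'⟩ ⟨hw | hw, hw'⟩
        · exact hw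
        · obtain ⟨z, hz⟩ := b4 w ⟨hM.le_trans (hcL n).1 (r2 n hw).1.1, hw'⟩
          rw [piso_block hM hM' (r3 n) b3 hcn b1 hw hz (r2 n hw).1.1 hw']
          exact hz
      have e2 : {w | w ∈ q n ∪ r n ∧ ¬ Adj M w.1 (c n)} ⊆ r n := by
        rintro ⟨w, w'⟩ ⟨hw | hw, hw'⟩
        · obtain ⟨z, hz⟩ := r4 n w ⟨hw', hM.le_trans (b2 hw).1.2 (hM.asymm (hc n))⟩
          rw [piso_block hM hM' b3 (r3 n) b1 hcn hw hz hw' (b2 hw).1.2]
          exact hz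
        · exact hw
      refine ⟨Or.inr (r1 n (Or.inr rfl)), ?_,
        gluePIso hM hM' (Or.inl b1) (b3.mono e1) ((r3 n).mono e2), ?_, ?_⟩
      · rintro w (hw | hw)
        · exact ⟨⟨(b2 hw).1.1, hM.le_trans (b2 hw).1.2 (hM.asymm (hc n))⟩,
            ⟨(b2 hw).2.1, hM'.le_trans (b2 hw).2.2 (hM'.asymm (hc' n))⟩⟩
        · exact ⟨⟨hM.le_trans (hcL n).1 (r2 n hw).1.1, (r2 n hw).1.2⟩,
            ⟨hM'.le_trans (hcL' n).1 (r2 n hw).2.1, (r2 n hw).2.2⟩⟩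
      · rintro z ⟨h1, h2⟩
        by_cases h3 : Adj M (c n) z
        · obtain ⟨z', hz'⟩ := r4 n z ⟨hM.asymm h3, h2⟩
          exact ⟨z', Or.inr hz'⟩
        · obtain ⟨z', hz'⟩ := b4 z ⟨h1, h3⟩
          exact ⟨z', Or.inl hz'⟩
      · rintro z' ⟨h1, h2⟩
        by_cases h3 : Adj M' (c' n) z'
        · obtain ⟨z, hz⟩ := r5 n z' ⟨hM'.asymm h3, h2⟩
          exact ⟨z, Or.inr hz⟩
        · obtain ⟨z, hz⟩ := b5 z' ⟨h1, h3⟩
          exact ⟨z, Or.inl hz⟩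
  refine ⟨⋃ n, q n, empty_subset _, ?_, PIso.iUnion ?_ fun n => (key n).2.2.1, ?_, ?_⟩
  · intro w hw
    obtain ⟨n, hn⟩ := mem_iUnion.1 hw
    have h1 := (key n).2.1 hn
    exact ⟨Lw_Ic hS hM (hcL n) h1.1, Lw_Ic hS hM' (hcL' n) h1.2⟩
  · exact monotone_nat_of_le_succ fun n => by rw [hqs]; exact subset_union_left
  · intro z hz
    obtain ⟨i, hi⟩ := hL z hz
    obtain ⟨z', hz'⟩ := (key i).2.2.2.1 z ⟨hz.1, hM.asymm hi⟩
    exact ⟨z', mem_iUnion.2 ⟨i, hz'⟩⟩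
  · intro z' hz'
    obtain ⟨i, hi⟩ := hL' z' hz'
    obtain ⟨z, hz⟩ := (key i).2.2.2.2 z' ⟨hz'.1, hM'.asymm hi⟩
    exact ⟨z, mem_iUnion.2 ⟨i, hz⟩⟩

/-- pieces between closed sets -/
theorem a1p_claim {D : Set ℕ} (hS : Fam μ S) (hM : AC μ M) (hC : Cls S M u m C)
    (hD : Cls S M u m D) (hv : v ∈ D) (hz : ∃ z ∈ C, z ∉ D) :
    BF M M (insert v (Lw S M u \ D)) (insert v (C \ D)) m {(v, v)} := by
  obtain ⟨x, hxC, hxD⟩ := hz
  have hxL := hC.sub hxC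
  have hvx : Adj M v x := cls_lt hD hv hxL hxD
  have key : ∀ z, ¬ Adj M z x → z ∉ D := fun z h1 h2 => hxD (hD.init z h2 x hxL h1)
  refine BF.subset (q := {(v, v), (x, x)}) ?_ (by rintro w rfl; exact Or.inl rfl)
  refine glueBF hM hM (y := x) (y' := x) (Or.inr rfl) ?_ ?_
  · have e : insert v (C \ D) ∩ Le M x = insert v (Lw S M u \ D) ∩ Le M x := by
      ext z
      constructor
      · rintro ⟨h1 | ⟨h1, h2⟩, h3⟩
        · exact ⟨Or.inl h1, h3⟩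
        · exact ⟨Or.inr ⟨hC.sub h1, h2⟩, h3⟩
      · rintro ⟨h1 | ⟨h1, h2⟩, h3⟩
        · exact ⟨Or.inl h1, h3⟩
        · exact ⟨Or.inr ⟨hC.init x hxC z h1 h3, h2⟩, h3⟩
    rw [e]
    apply bf_id
    rintro w ⟨rfl | rfl, h1⟩
    · exact ⟨rfl, Or.inl rfl, h1⟩
    · exact ⟨rfl, Or.inr ⟨hxL, hxD⟩, h1⟩
  · have e1 : insert v (Lw S M u \ D) ∩ Ge M x = Lx S M u x := by
      ext z
      constructor
      · rintro ⟨h1 | ⟨h1, _⟩, h3⟩
        · subst h1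
          exact absurd hvx h3
        · exact ⟨h1, h3⟩
      · rintro ⟨h1, h2⟩
        exact ⟨Or.inr ⟨h1, key z h2⟩, h2⟩
    have e2 : insert v (C \ D) ∩ Ge M x = C ∩ Ge M x := by
      ext z
      constructor
      · rintro ⟨h1 | ⟨h1, _⟩, h3⟩
        · subst h1
          exact absurd hvx h3
        · exact ⟨h1, h3⟩
      · rintro ⟨h1, h2⟩
        exact ⟨Or.inr ⟨h1, key z h2⟩, h2⟩
    rw [e1, e2]
    refine (t_CLS hS hM hC m le_rfl x hxC).subset ?_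
    rintro w ⟨rfl | rfl, h1⟩
    · exact absurd hvx h1
    · rfl

/-- cofinal closed sets with equivalent tails give an isomorphism -/
theorem t_A1 {C C' : ℕ → Set ℕ} (hS : Fam μ S) (hl : Lev S l)
    (hlm : Order.succ (Order.succ l) < m) (hM : AC μ M) (hM' : AC μ M')
    (hC : ∀ i, Cls S M u m (C i)) (hC' : ∀ i, Cls S M' u' m (C' i))
    (hmo : ∀ i, C i ⊆ C (i + 1)) (hmo' : ∀ i, C' i ⊆ C' (i + 1))
    (hst : ∀ i, ∃ z ∈ C (i + 1), z ∉ C i) (hst' : ∀ i, ∃ z ∈ C' (i + 1), z ∉ C' i)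
    (hcov : ∀ z ∈ Lw S M u, ∃ i, z ∈ C i) (hcov' : ∀ z ∈ Lw S M' u', ∃ i, z ∈ C' i)
    (hv : v ∈ C 0) (hv' : v' ∈ C' 0) (hs : Sb μ S M u v) (hs' : Sb μ S M' u' v')
    (hb0 : BF M M' (Lw S M u) (Lw S M' u') m {(u, u'), (v, v')})
    (hb : ∀ i, BF M M' (insert v (Lw S M u \ C i)) (insert v' (Lw S M' u' \ C' i)) m
      {(v, v')}) :
    IsoOn M M' (Lw S M u) (Lw S M' u') ∅ := by
  have hm0 : 0 < m := lt_of_le_of_lt bot_le hlm
  have hlm' : l < m := ((Order.lt_succ l).trans (Order.lt_succ _)).trans hlm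
  have hvC : ∀ i, v ∈ C i := fun i => by
    induction i with
    | zero => exact hv
    | succ i ih => exact hmo i ih
  have hvC' : ∀ i, v' ∈ C' i := fun i => by
    induction i with
    | zero => exact hv'
    | succ i ih => exact hmo' i ih
  have hvL : v ∈ Lw S M u := (hC 0).sub hv
  have hvL' : v' ∈ Lw S M' u' := (hC' 0).sub hv'
  -- the pieces
  have hbP : ∀ i, BF M M' (insert v (C (i + 1) \ C i)) (insert v' (C' (i + 1) \ C' i)) m
      {(v, v')} := fun i =>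
    bf_comp1 (bf_comp1 (bf_symm1 (a1p_claim hS hM (hC (i + 1)) (hC i) (hvC i) (hst i))) (hb i))
      (a1p_claim hS hM' (hC' (i + 1)) (hC' i) (hvC' i) (hst' i))
  have hch : ∀ i, ∃ d d', d ∈ C (i + 1) \ C i ∧ d' ∈ C' (i + 1) \ C' i ∧
      BF M M' (insert v (C (i + 1) \ C i)) (insert v' (C' (i + 1) \ C' i))
        (Order.succ (Order.succ l)) {(d, d'), (v, v')} := by
    intro i
    obtain ⟨d, hd, hd2⟩ := hst i
    obtain ⟨d', hd', hdb⟩ := (hbP i).forth hlm (x := d) (Or.inr ⟨hd, hd2⟩)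
    refine ⟨d, d', ⟨hd, hd2⟩, ?_, hdb⟩
    rcases hd' with h1 | h1
    · exfalso
      have h2 : d = v := hdb.piso.fst_eq (x := d) (x' := d') (y := v) (y' := v') (Or.inl rfl)
        (Or.inr rfl) h1
      rw [h2] at hd2
      exact hd2 (hvC i)
    · exact h1
  choose d d' hd hd' hdb using hch
  let c : ℕ → ℕ := fun n => Nat.rec v (fun i _ => d i) n
  let c' : ℕ → ℕ := fun n => Nat.rec v' (fun i _ => d' i) n
  have hcs : ∀ i, c (i + 1) = d i := fun _ => rfl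
  have hcs' : ∀ i, c' (i + 1) = d' i := fun _ => rfl
  have hcC : ∀ i, c i ∈ C i := by
    intro i
    cases i with
    | zero => exact hv
    | succ i => exact (hd i).1
  have hcC' : ∀ i, c' i ∈ C' i := by
    intro i
    cases i with
    | zero => exact hv'
    | succ i => exact (hd' i).1
  have hcL : ∀ i, c i ∈ Lw S M u := fun i => (hC i).sub (hcC i)
  have hcL' : ∀ i, c' i ∈ Lw S M' u' := fun i => (hC' i).sub (hcC' i)
  have hlt : ∀ i, Adj M (c i) (c (i + 1)) := fun i =>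
    cls_lt (hC i) (hcC i) (hcL (i + 1)) (hd i).2
  have hlt' : ∀ i, Adj M' (c' i) (c' (i + 1)) := fun i =>
    cls_lt (hC' i) (hcC' i) (hcL' (i + 1)) (hd' i).2
  have hvc : ∀ i, ¬ Adj M (c i) v := fun i => chain_lt hM hlt (Nat.zero_le i)
  have hvc' : ∀ i, ¬ Adj M' (c' i) v' := fun i => chain_lt hM' hlt' (Nat.zero_le i)
  -- the left sides
  have hleft : ∀ i, BF M M' (insert v (C i ∩ Ge M (c i))) (insert v' (C' i ∩ Ge M' (c' i)))
      (Order.succ (Order.succ l)) {(v, v'), (c i, c' i)} := by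
    intro i
    cases i with
    | zero =>
      have h1 : BF M M (Lx S M u v) (C 0 ∩ Ge M v) m {(v, v)} :=
        t_CLS hS hM (hC 0) m le_rfl v hv
      have h2 : BF M' M' (Lx S M' u' v') (C' 0 ∩ Ge M' v') m {(v', v')} :=
        t_CLS hS hM' (hC' 0) m le_rfl v' hv'
      have h3 : BF M M' (Lx S M u v) (Lx S M' u' v') m {(v, v')} :=
        (resGe (c := v) (c' := v') (Or.inr rfl) hb0).subset (by rintro w rfl; exact Or.inr rfl)
      have h4 := bf_comp1 (bf_comp1 (bf_symm1 h1) h3) h2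
      have e1 : insert v (C 0 ∩ Ge M (c 0)) = C 0 ∩ Ge M v :=
        insert_eq_of_mem ⟨hv, hM.irr v⟩
      have e2 : insert v' (C' 0 ∩ Ge M' (c' 0)) = C' 0 ∩ Ge M' v' :=
        insert_eq_of_mem ⟨hv', hM'.irr v'⟩
      rw [e1, e2]
      exact (h4.mono hlm.le).subset (by rintro w (rfl | rfl) <;> rfl)
    | succ i =>
      rw [hcs, hcs']
      have h1 : BF M M' (insert v (C (i + 1) ∩ Ge M (d i)))
          (insert v' (C' (i + 1) ∩ Ge M' (d' i))) (Order.succ (Order.succ l))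
          {(d i, d' i), (v, v')} := by
        have key : ∀ z, z ∈ insert v (C (i + 1) ∩ Ge M (d i)) ↔
            z ∈ insert v (C (i + 1) \ C i) ∧ (z = v ∨ ¬ Adj M z (d i)) := by
          intro z
          constructor
          · rintro (h1 | ⟨h1, h2⟩)
            · exact ⟨Or.inl h1, Or.inl h1⟩
            · exact ⟨Or.inr ⟨h1, fun h3 => h2 (cls_lt (hC i) h3 ((hC _).sub (hd i).1)
                (hd i).2)⟩, Or.inr h2⟩
          · rintro ⟨h1 | h1, h2 | h2⟩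
            · exact Or.inl h1
            · exact Or.inl h1
            · exact Or.inl h2
            · exact Or.inr ⟨h1.1, h2⟩
        have key' : ∀ z, z ∈ insert v' (C' (i + 1) ∩ Ge M' (d' i)) ↔
            z ∈ insert v' (C' (i + 1) \ C' i) ∧ (z = v' ∨ ¬ Adj M' z (d' i)) := by
          intro z
          constructor
          · rintro (h1 | ⟨h1, h2⟩)
            · exact ⟨Or.inl h1, Or.inl h1⟩
            · exact ⟨Or.inr ⟨h1, fun h3 => h2 (cls_lt (hC' i) h3 ((hC' _).sub (hd' i).1)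
                (hd' i).2)⟩, Or.inr h2⟩
          · rintro ⟨h1 | h1, h2 | h2⟩
            · exact Or.inl h1
            · exact Or.inl h1
            · exact Or.inl h2
            · exact Or.inr ⟨h1.1, h2⟩
        refine resBF (fun z hz => ((key z).1 hz).1) (fun z hz => ((key' z).1 hz).1)
          (fun z hz z' hz' hp => ?_) (hdb i)
        rw [key, key']
        have mz : (z, z') ∈ (insert (z, z') {(d i, d' i), (v, v')} : Set (ℕ × ℕ)) := Or.inl rfl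
        have md : (d i, d' i) ∈ (insert (z, z') {(d i, d' i), (v, v')} : Set (ℕ × ℕ)) :=
          Or.inr (Or.inl rfl)
        have mv : (v, v') ∈ (insert (z, z') {(d i, d' i), (v, v')} : Set (ℕ × ℕ)) :=
          Or.inr (Or.inr rfl)
        have h1 : z = v ↔ z' = v' := ⟨fun h => hp.snd_eq mz mv h, fun h => hp.fst_eq mz mv h⟩
        have h2 := hp.adj mz md
        constructor
        · rintro ⟨-, h3⟩
          exact ⟨hz', h3.imp h1.1 fun h4 h5 => h4 (h2.2 h5)⟩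
        · rintro ⟨-, h3⟩
          exact ⟨hz, h3.imp h1.2 fun h4 h5 => h4 (h2.1 h5)⟩
      refine h1.subset ?_
      rintro w (rfl | rfl)
      · exact Or.inr rfl
      · exact Or.inl rfl
  -- the right sides
  have hright : ∀ i, BF M M' (insert v (C (i + 1) \ C i) ∩ Le M (c (i + 1)))
      (insert v' (C' (i + 1) \ C' i) ∩ Le M' (c' (i + 1))) l {(v, v'), (c (i + 1), c' (i + 1))} := by
    intro i
    rw [hcs, hcs']
    refine ((resLe (c := d i) (c' := d' i) (Or.inl rfl) (hdb i)).mono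
      ((Order.lt_succ l).trans (Order.lt_succ _)).le).subset ?_
    rintro w (rfl | rfl)
    · exact Or.inr rfl
    · exact Or.inl rfl
  refine t_GLW hS hM hM' hcL hcL' hlt hlt' ?_ ?_ ?_ ?_
  · intro z hz
    obtain ⟨i, hi⟩ := hcov z hz
    exact ⟨i + 1, cls_lt (hC i) hi (hcL (i + 1)) (hd i).2⟩
  · intro z hz
    obtain ⟨i, hi⟩ := hcov' z hz
    exact ⟨i + 1, cls_lt (hC' i) hi (hcL' (i + 1)) (hd' i).2⟩
  · have h1 := resIc (c := u) (c' := u') (d := v) (d' := v') (Or.inl rfl) (Or.inr rfl) hb0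
    rw [Lw_inter_Ic hS hM (Lw_base hS hM hvL) hvL,
      Lw_inter_Ic hS hM' (Lw_base hS hM' hvL') hvL'] at h1
    refine (hl _ _ _ _ _ hvL.2 (by simp) ?_ (h1.mono hlm'.le)).mono
      (by rintro w rfl; exact Or.inr rfl)
    rintro w (rfl | rfl)
    · exact ⟨left_mem_Ic hM hvL.1, left_mem_Ic hM' hvL'.1⟩
    · exact ⟨right_mem_Ic hM hvL.1, right_mem_Ic hM' hvL'.1⟩
  · intro i
    have hA := hleft i
    have hB := hright i
    have hcut : Cut μ M v (insert v (C i ∩ Ge M (c i)))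
        (insert v (C (i + 1) \ C i) ∩ Le M (c (i + 1))) := by
      refine mk_cut (o := l) hS hM (hC i) hlm.le (hvC i) hs (hcC i) (hvc i)
        ⟨Or.inl rfl, hM.asymm (hM.le_lt (hvc i) (hlt i))⟩ ?_
      rintro z ⟨h1 | h1, -⟩
      · exact Or.inl h1
      · exact Or.inr ⟨(hC _).sub h1.1, h1.2⟩
    have hcut' : Cut μ M' v' (insert v' (C' i ∩ Ge M' (c' i)))
        (insert v' (C' (i + 1) \ C' i) ∩ Le M' (c' (i + 1))) := by
      refine mk_cut (o := l) hS hM' (hC' i) hlm.le (hvC' i) hs' (hcC' i) (hvc' i)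
        ⟨Or.inl rfl, hM'.asymm (hM'.le_lt (hvc' i) (hlt' i))⟩ ?_
      rintro z ⟨h1 | h1, -⟩
      · exact Or.inl h1
      · exact Or.inr ⟨(hC' _).sub h1.1, h1.2⟩
    have hall := cutBF (o := l) hM hM' hcut hcut'
      (p1 := {(v, v'), (c i, c' i)}) (p2 := {(v, v'), (c (i + 1), c' (i + 1))})
      (by
        rintro w (rfl | rfl)
        · exact ⟨Or.inl rfl, Or.inl rfl⟩
        · exact ⟨Or.inr ⟨hcC i, hM.irr _⟩, Or.inr ⟨hcC' i, hM'.irr _⟩⟩)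
      (by
        rintro w (rfl | rfl)
        · exact ⟨hcut.vB, hcut'.vB⟩
        · exact ⟨⟨Or.inr (hd i), hM.irr _⟩, ⟨Or.inr (hd' i), hM'.irr _⟩⟩)
      (Or.inl rfl) (Or.inl rfl) hA hB
    have h1 := resIc (c := c i) (c' := c' i) (d := c (i + 1)) (d' := c' (i + 1))
      (Or.inl (Or.inr rfl)) (Or.inr (Or.inr rfl)) hall
    have cov : (insert v (C i ∩ Ge M (c i)) ∪ (insert v (C (i + 1) \ C i) ∩ Le M (c (i + 1)))) ∩
        Ic M (c i) (c (i + 1)) = Ic M (c i) (c (i + 1)) := by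
      refine inter_eq_right.2 fun z hz => ?_
      have hzL : z ∈ Lw S M u :=
        Lw_init hS hM (hcL (i + 1)) (hM.le_trans (hcL i).1 hz.1) hz.2
      by_cases hzC : z ∈ C i
      · exact Or.inl (Or.inr ⟨hzC, hz.1⟩)
      · exact Or.inr ⟨Or.inr ⟨(hC (i + 1)).init _ (hcC (i + 1)) z hzL hz.2, hzC⟩, hz.2⟩
    have cov' : (insert v' (C' i ∩ Ge M' (c' i)) ∪
        (insert v' (C' (i + 1) \ C' i) ∩ Le M' (c' (i + 1)))) ∩
        Ic M' (c' i) (c' (i + 1)) = Ic M' (c' i) (c' (i + 1)) := by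
      refine inter_eq_right.2 fun z hz => ?_
      have hzL : z ∈ Lw S M' u' :=
        Lw_init hS hM' (hcL' (i + 1)) (hM'.le_trans (hcL' i).1 hz.1) hz.2
      by_cases hzC : z ∈ C' i
      · exact Or.inl (Or.inr ⟨hzC, hz.1⟩)
      · exact Or.inr ⟨Or.inr ⟨(hC' (i + 1)).init _ (hcC' (i + 1)) z hzL hz.2, hzC⟩, hz.2⟩
    rw [cov, cov'] at h1
    refine hl _ _ _ _ _ (Lw_piece hS hM (hcL i) (hcL (i + 1)) (hM.asymm (hlt i))) (by simp) ?_
      (h1.subset ?_)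
    · rintro w (rfl | rfl)
      · exact ⟨left_mem_Ic hM (hM.asymm (hlt i)), left_mem_Ic hM' (hM'.asymm (hlt' i))⟩
      · exact ⟨right_mem_Ic hM (hM.asymm (hlt i)), right_mem_Ic hM' (hM'.asymm (hlt' i))⟩
    · rintro w (rfl | rfl)
      · exact Or.inl (Or.inr rfl)
      · exact Or.inr (Or.inr rfl)

/-- A strictly increasing cofinal sequence of closed sets with a fixed tail type. -/
theorem casea1_seq {M0 : SM} {X0 : Set ℕ} {v0 : ℕ} (hM : AC μ M) (hu : u ∈ Lw S M u)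
    (hC : ∀ z ∈ Lw S M u, ∃ C, Cls S M u m C ∧ z ∈ C ∧ v ∈ C ∧
      BF M0 M X0 (insert v (Lw S M u \ C)) m {(v0, v)}) :
    ∃ C : ℕ → Set ℕ, (∀ i, Cls S M u m (C i)) ∧ (∀ i, C i ⊆ C (i + 1)) ∧
      (∀ i, ∃ z ∈ C (i + 1), z ∉ C i) ∧ (∀ z ∈ Lw S M u, ∃ i, z ∈ C i) ∧ v ∈ C 0 ∧
      (∀ i, BF M0 M X0 (insert v (Lw S M u \ C i)) m {(v0, v)}) := by
  classical
  have step : ∀ (T : {C : Set ℕ // Cls S M u m C ∧
        BF M0 M X0 (insert v (Lw S M u \ C)) m {(v0, v)}}) (i : ℕ),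
      ∃ T' : {C : Set ℕ // Cls S M u m C ∧ BF M0 M X0 (insert v (Lw S M u \ C)) m {(v0, v)}},
        T.1 ⊆ T'.1 ∧ (∃ z ∈ T'.1, z ∉ T.1) ∧ (i ∈ Lw S M u → i ∈ T'.1) := by
    rintro ⟨C, hC1, hC2⟩ i
    obtain ⟨e, he, heC⟩ := hC1.bdd
    have hz : ∃ z ∈ Lw S M u, ¬ Adj M z e ∧ (i ∈ Lw S M u → ¬ Adj M z i) := by
      by_cases h : i ∈ Lw S M u ∧ Adj M e i
      · exact ⟨i, h.1, hM.asymm h.2, fun _ => hM.irr i⟩
      · exact ⟨e, he, hM.irr e, fun hi h' => h ⟨hi, h'⟩⟩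
    obtain ⟨z, hzL, hze, hzi⟩ := hz
    obtain ⟨C', hC1', hzC', _, hC2'⟩ := hC z hzL
    have heC' : e ∈ C' := hC1'.init z hzC' e he hze
    refine ⟨⟨C', hC1', hC2'⟩, ?_, ⟨e, heC', heC⟩, fun hi => hC1'.init z hzC' i hi (hzi hi)⟩
    intro x hx
    refine hC1'.init e heC' x (hC1.sub hx) fun h => ?_
    exact heC (hC1.init x hx e he (hM.asymm h))
  choose f hf1 hf2 hf3 using step
  obtain ⟨C0, hC01, _, hC03, hC02⟩ := hC u hu
  let C : ℕ → {C : Set ℕ // Cls S M u m C ∧ BF M0 M X0 (insert v (Lw S M u \ C)) m {(v0, v)}} :=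
    fun i => Nat.rec ⟨C0, hC01, hC02⟩ (fun i T => f T i) i
  have hCs : ∀ i, C (i + 1) = f (C i) i := fun _ => rfl
  refine ⟨fun i => (C i).1, fun i => (C i).2.1, fun i => ?_, fun i => ?_, fun z hz => ?_, hC03,
    fun i => (C i).2.2⟩
  · simp only [hCs]
    exact hf1 _ _
  · simp only [hCs]
    exact hf2 _ _
  · refine ⟨z + 1, ?_⟩
    simp only [hCs]
    exact hf3 _ _ hz

theorem casea2_dir (hS : Fam μ S) (hl : Lev S l) (hlm : l < m)
    (hmn : m < n) (hM : AC μ M) (hM' : AC μ M')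
    (hφ : Mt S M M' u u' n y y' φ) (hvφ : (v, v') ∈ φ) {M0 : SM} {X0 : Set ℕ} {v0 : ℕ}
    {w : ℕ × ℕ} (hw : w ∈ φ)
    (hA : ∃ C, Cls S M u m C ∧ w.1 ∈ C ∧ v ∈ C ∧
      BF M0 M X0 (insert v (Lw S M u \ C)) m {(v0, v)}) :
    ∃ C, Cls S M' u' m C ∧ w.2 ∈ C ∧ v' ∈ C ∧
      BF M0 M' X0 (insert v' (Lw S M' u' \ C)) m {(v0, v')} := by
  obtain ⟨C, hC, hwC, hvC, hb⟩ := hA
  by_cases hyC : y ∈ C
  · obtain ⟨e, he, heC⟩ := hC.bdd
    have hye : Adj M y e := cls_lt hC hyC he heC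
    obtain ⟨e', φ2, hφ2, hsub⟩ := t_EXT hS hl hlm.le hmn hM hM' hφ he (hM.asymm hye)
    obtain ⟨C', hC', hiff, hb'⟩ := t_TRC hS hM hM' le_rfl hφ2 hC heC
    exact ⟨C', hC', (hiff w (hsub hw)).1 hwC, (hiff _ (hsub hvφ)).1 hvC,
      bf_comp1 hb (hb' v v' (hsub hvφ) hvC)⟩
  · obtain ⟨C', hC', hiff, hb'⟩ := t_TRC hS hM hM' hmn.le hφ hC hyC
    exact ⟨C', hC', (hiff w hw).1 hwC, (hiff _ hvφ).1 hvC, bf_comp1 hb (hb' v v' hvφ hvC)⟩

theorem t_CASEA1 {M0 : SM} {X0 : Set ℕ} {v0 : ℕ} (hS : Fam μ S) (hL : Lev S l)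
    (hw : Ordinal.omega0 ≤ l) (hlm : Order.succ (Order.succ l) < m) (hmn : m < n) (hnk : n < k)
    (hM : AC μ M) (hM' : AC μ M') (hNL : NoLast M (Lw S M u)) (hv : v ∈ Lw S M u)
    (hs : Sb μ S M u v)
    (hC : ∀ z ∈ Lw S M u, ∃ C, Cls S M u m C ∧ z ∈ C ∧ v ∈ C ∧
      BF M0 M X0 (insert v (Lw S M u \ C)) m {(v0, v)})
    (hBF : BF M M' (Lw S M u) (Lw S M' u') k {(u, u'), (v, v')}) :
    IsoOn M M' (Lw S M u) (Lw S M' u') ∅ := by
  have hlm' : l < m := ((Order.lt_succ l).trans (Order.lt_succ _)).trans hlm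
  have hln : l ≤ n := (hlm'.trans hmn).le
  have hu : u ∈ Lw S M u := Lw_base hS hM hv
  obtain ⟨hA, hB⟩ := t_MTX hS hL hw hln hnk hM hM' hNL hv hBF
  have hk0 : 0 < k := lt_of_le_of_lt bot_le hnk
  have hv' : v' ∈ Lw S M' u' := bf_mem_right hk0 hBF (Or.inr rfl) hv
  have hu' : u' ∈ Lw S M' u' := Lw_base hS hM' hv'
  have hs' : Sb μ S M' u' v' := by
    refine hs.transfer (o := l) hM hM' (p := {(u, u'), (v, v')}) (Or.inr rfl) (hBF.mono ?_)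
    exact (Order.succ_le_of_lt hlm).trans (hmn.trans hnk).le
  have hC' : ∀ z' ∈ Lw S M' u', ∃ C', Cls S M' u' m C' ∧ z' ∈ C' ∧ v' ∈ C' ∧
      BF M0 M' X0 (insert v' (Lw S M' u' \ C')) m {(v0, v')} := by
    intro z' hz'
    obtain ⟨y, y', φ, hMt, hvφ, hvy, hzy⟩ := hB z' hz'
    obtain ⟨C', h1, h2, h3, h4⟩ := casea2_dir hS hL hlm' hmn hM hM' hMt hvφ (w := (y, y'))
      hMt.top (hC y hMt.memL)
    exact ⟨C', h1, h1.init y' h2 z' hz' (hM'.asymm hzy), h3, h4⟩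
  obtain ⟨C, c1, c2, c3, c4, c5, c6⟩ := casea1_seq hM hu hC
  obtain ⟨C', d1, d2, d3, d4, d5, d6⟩ := casea1_seq hM' hu' hC'
  exact t_A1 hS hL hlm hM hM' c1 d1 c2 d2 c3 d3 c4 d4 c5 d5 hs hs'
    (hBF.mono (hmn.trans hnk).le) (fun i => bf_comp1 (bf_symm1 (c6 i)) (d6 i))

theorem t_CASEA2 (hS : Fam μ S) (hl : Lev S l)
    (hω : Ordinal.omega0 ≤ l) (hlm : l < m) (hmn : m < n) (hnk : n < k)
    (hM : AC μ M) (hM' : AC μ M') (hno : NoLast M (Lw S M u)) (hv : v ∈ Lw S M u)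
    (hcl : ∀ z ∈ Lw S M u, ∃ C, Cls S M u m C ∧ z ∈ C)
    (hno0 : ∀ (M0 : SM) (X0 : Set ℕ) (v0 : ℕ), ∃ z ∈ Lw S M u, ∀ C, Cls S M u m C → z ∈ C →
      v ∈ C → ¬ BF M0 M X0 (insert v (Lw S M u \ C)) m {(v0, v)})
    (hb : BF M M' (Lw S M u) (Lw S M' u') k {(u, u'), (v, v')}) :
    IsoOn M M' (Lw S M u) (Lw S M' u') ∅ := by
  refine t_CAN hS hl hω (hlm.trans hmn).le hnk hM hM' hno hv hb
    (ι := ULift.{1, 0} (SM × Set ℕ × ℕ))
    (fun i => {z | ∃ C, Cls S M u m C ∧ z ∈ C ∧ v ∈ C ∧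
      BF i.down.1 M i.down.2.1 (insert v (Lw S M u \ C)) m {(i.down.2.2, v)}})
    (fun i => {z | ∃ C, Cls S M' u' m C ∧ z ∈ C ∧ v' ∈ C ∧
      BF i.down.1 M' i.down.2.1 (insert v' (Lw S M' u' \ C)) m {(i.down.2.2, v')}})
    ?_ ?_ ?_ ?_ ?_
  · rintro i z ⟨C, hC, hz, hvC, hb⟩
    exact ⟨hC.sub hz, fun w hw hzw => ⟨C, hC, hC.init z hz w hw hzw, hvC, hb⟩⟩
  · rintro i z ⟨C, hC, hz, hvC, hb⟩
    exact ⟨hC.sub hz, fun w hw hzw => ⟨C, hC, hC.init z hz w hw hzw, hvC, hb⟩⟩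
  · intro i
    obtain ⟨z, hz, h⟩ := hno0 i.down.1 i.down.2.1 i.down.2.2
    refine ⟨z, hz, ?_⟩
    rintro ⟨C, hC, hzC, hvC, hb⟩
    exact h C hC hzC hvC hb
  · intro z hz
    obtain ⟨z1, hz1, h1, h2⟩ : ∃ z1 ∈ Lw S M u, ¬ Adj M z1 z ∧ ¬ Adj M z1 v := by
      by_cases h : Adj M z v
      · exact ⟨v, hv, hM.asymm h, hM.irr v⟩
      · exact ⟨z, hz, hM.irr z, h⟩
    obtain ⟨C, hC, hzC⟩ := hcl z1 hz1
    exact ⟨⟨(M, insert v (Lw S M u \ C), v)⟩, C, hC, hC.init z1 hzC z hz h1,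
      hC.init z1 hzC v hv h2, bf_id (by rintro w rfl; exact ⟨rfl, Or.inl rfl⟩)⟩
  · intro y y' φ hφ hvφ hvy i w hw
    constructor
    · exact casea2_dir hS hl hlm hmn hM hM' hφ hvφ hw
    · intro h
      exact casea2_dir hS hl hlm hmn hM' hM hφ.symm (mem_inv'.2 hvφ) (w := (w.2, w.1))
        (mem_inv'.2 hw) h

theorem tow_lt (l : Ordinal.{0}) (i j : ℕ) (h : i < j) :
    l + (i : Ordinal.{0}) < l + (j : Ordinal.{0}) := by
  gcongr

theorem t_TOW (hS : Fam μ S) (hl : Lev S l) (hom : Ordinal.omega0 ≤ l)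
    (hl1 : l < Ordinal.omega 1) : ∃ β : Ordinal.{0}, β < Ordinal.omega 1 ∧
      ∀ (M M' : SM) (u u' : ℕ), AC μ M → AC μ M' → u ∈ Lw S M u →
      BF M M' univ univ β {(u, u')} → IsoOn M M' (Lw S M u) (Lw S M' u') ∅ := by
  have hw1 : ∀ i : ℕ, (i : Ordinal.{0}) < Ordinal.omega 1 := fun i =>
    (Ordinal.natCast_lt_omega0 i).trans Ordinal.omega0_lt_omega_one
  have hadd : ∀ x y : Ordinal.{0}, x < Ordinal.omega 1 → y < Ordinal.omega 1 →
      x + y < Ordinal.omega 1 := fun x y hx hy => (Ordinal.isPrincipal_add_omega 1) hx hy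
  have hss : Order.succ (Order.succ l) < l + ((4 : ℕ) : Ordinal.{0}) := by
    have h2 : Order.succ (Order.succ l) = l + ((2 : ℕ) : Ordinal.{0}) := by
      rw [← Ordinal.add_one_eq_succ, ← Ordinal.add_one_eq_succ, add_assoc]
      norm_num
    rw [h2]
    exact tow_lt l 2 4 (by norm_num)
  have e0 : l < l + ((4 : ℕ) : Ordinal.{0}) := by
    have := tow_lt l 0 4 (by norm_num)
    rwa [Nat.cast_zero, add_zero] at this
  have e1 : l + ((4 : ℕ) : Ordinal.{0}) < l + ((5 : ℕ) : Ordinal.{0}) := tow_lt l 4 5 (by norm_num)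
  have e2 : l + ((5 : ℕ) : Ordinal.{0}) < l + ((6 : ℕ) : Ordinal.{0}) := tow_lt l 5 6 (by norm_num)
  have e3 : l + ((6 : ℕ) : Ordinal.{0}) < l + ((7 : ℕ) : Ordinal.{0}) := tow_lt l 6 7 (by norm_num)
  refine ⟨l + (l + ((7 : ℕ) : Ordinal.{0})), hadd _ _ hl1 (hadd _ _ hl1 (hw1 7)), ?_⟩
  intro M M' u u' hM hM' hu hb
  have hL := t_INL (o := l + ((7 : ℕ) : Ordinal.{0})) hS hl hb (u := u) (u' := u') rfl
  have hL2 : ∀ x ∈ Lw S M u, ∃ x', BF M M' (Lw S M u) (Lw S M' u')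
      (l + ((6 : ℕ) : Ordinal.{0})) {(u, u'), (x, x')} := by
    intro x hx
    obtain ⟨x', hx', hb'⟩ := hL.forth e3 hx
    refine ⟨x', ?_⟩
    have : ({(u, u'), (x, x')} : Set (ℕ × ℕ)) = insert (x, x') {(u, u')} := pair_comm _ _
    rw [this]; exact hb'
  by_cases hlast : NoLast M (Lw S M u)
  · by_cases hcof : ∀ z ∈ Lw S M u, ∃ C, Cls S M u (l + ((4 : ℕ) : Ordinal.{0})) C ∧ z ∈ C
    · obtain ⟨v, hv, hs⟩ := exists_sb (o := l) hM hlast hu (hcof u hu) hss.le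
      obtain ⟨v', hb'⟩ := hL2 v hv
      by_cases hty : ∃ (M0 : SM) (X0 : Set ℕ) (v0 : ℕ), ∀ z ∈ Lw S M u,
          ∃ C, Cls S M u (l + ((4 : ℕ) : Ordinal.{0})) C ∧ z ∈ C ∧ v ∈ C ∧
            BF M0 M X0 (insert v (Lw S M u \ C)) (l + ((4 : ℕ) : Ordinal.{0})) {(v0, v)}
      · obtain ⟨M0, X0, v0, hty⟩ := hty
        exact t_CASEA1 hS hl hom hss e1 e2 hM hM' hlast hv hs hty hb'
      · push Not at hty
        refine t_CASEA2 hS hl hom e0 e1 e2 hM hM' hlast hv hcof ?_ hb'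
        intro M0 X0 v0
        obtain ⟨z, hz, hz'⟩ := hty M0 X0 v0
        exact ⟨z, hz, fun C hC hzC hvC => hz' C hC hzC hvC⟩
    · push Not at hcof
      obtain ⟨z0, hz0, hz0'⟩ := hcof
      by_cases hx : ∃ x ∈ Lw S M u, ∀ e ∈ Lx S M u x,
          ¬ Cl S M u (l + ((4 : ℕ) : Ordinal.{0})) x e
      · obtain ⟨x, hxL, hx⟩ := hx
        obtain ⟨x', hb'⟩ := hL2 x hxL
        exact t_CASEB1 hS hl hom e0 (e1.trans e2) hM hM' hlast hxL hx hb'
      · push Not at hx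
        have hm0 : (0 : Ordinal.{0}) < l + ((4 : ℕ) : Ordinal.{0}) := lt_of_le_of_lt bot_le e0
        obtain ⟨x, hxL, hx1⟩ := t_B2EX hM hm0 hlast hz0
          (by rintro ⟨C, hC, hzC⟩; exact hz0' C hC hzC) hx
        have hxL' : x ∈ Lw S M u := hxL.1
        obtain ⟨x', hb'⟩ := hL2 x hxL'
        exact t_CASEB2 hS hl hom e0 e1 e2 hM hM' hlast hxL' hx1 hb'
  · unfold NoLast at hlast
    push Not at hlast
    obtain ⟨x, hxL, hx⟩ := hlast
    have hI : Lw S M u = Ic M u x := by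
      ext z
      constructor
      · intro hz; exact ⟨hz.1, hx z hz⟩
      · intro hz; exact Lw_Ic hS hM hxL hz
    have hmem : (M, Lw S M u) ∈ S := by rw [hI]; exact hxL.2
    refine hl M _ M' _ ∅ hmem Set.finite_empty (empty_subset _) ?_
    exact (hL.mono (le_self_add)).subset (empty_subset _)

end Pool.Agent.N643.AX
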