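import Pool.Agent.N643.AX.Can

set_option autoImplicit false

/-!
# The cases without closed initial segments
-/

namespace Pool.Agent.N643.AX

open Set
open Pool.Agent.H899R2.VP
open Pool.Agent.H533R2.VO (Ic Ge Le Gt Lt Lev Lw Uw Lx NoLast Mt Cls Cl Rk Rr Bg rev revS resBF
  resIso resGe resLe resGt resLt resIc resIsoLt resIsoIc resIsoGe bf_id bf_comp0 bf_comp1 bf_comp2
  bf_symm0 bf_symm1 bf_symm2 iso_symm0 iso_trans0 iso_refl0 bf_mem_right bf_mem_left mem_Ic mem_Ge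
  mem_Le Lw_ge mem_Lx canpi canpi_mem canpi_le canpi_iff)
open Pool.Agent.H566P (ar R2 v2 lt ac co mk)

variable {μ : Par} {S : Set (SM × Set ℕ)} {l m n k o : Ordinal.{0}} {M M' : SM}
  {u u' x x' y y' : ℕ} {φ : Set (ℕ × ℕ)}

/-- The point `b` realises the given type. -/
def caseb1Occ (S : Set (SM × Set ℕ)) (M : SM) (u x : ℕ) (η : Ordinal.{0})
    (M0 : SM) (X0 : Set ℕ) (x0 b0 b : ℕ) : Prop :=
  BF M0 M X0 (Lx S M u x) η {(x0, x), (b0, b)}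

/-- The cut given by the first realisation of a type. -/
def caseb1A (S : Set (SM × Set ℕ)) (M : SM) (u x : ℕ) (η : Ordinal.{0})
    (M0 : SM) (X0 : Set ℕ) (x0 b0 : ℕ) : Set ℕ :=
  {z | z ∈ Lw S M u ∧ (∃ b ∈ Lx S M u x, caseb1Occ S M u x η M0 X0 x0 b0 b) ∧
    ∀ b ∈ Lx S M u x, caseb1Occ S M u x η M0 X0 x0 b0 b → Adj M z b}

theorem caseb1_mem {η : Ordinal.{0}}
    {M0 : SM} {X0 : Set ℕ} {x0 b0 z : ℕ} : z ∈ caseb1A S M u x η M0 X0 x0 b0 ↔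
    z ∈ Lw S M u ∧ (∃ b ∈ Lx S M u x, caseb1Occ S M u x η M0 X0 x0 b0 b) ∧
    ∀ b ∈ Lx S M u x, caseb1Occ S M u x η M0 X0 x0 b0 b → Adj M z b := Iff.rfl

theorem caseb1_init {η : Ordinal.{0}}
    {M0 : SM} {X0 : Set ℕ} {x0 b0 : ℕ} (hM : AC μ M) :
    ∀ z ∈ caseb1A S M u x η M0 X0 x0 b0, z ∈ Lw S M u ∧ ∀ w ∈ Lw S M u, ¬ Adj M z w →
      w ∈ caseb1A S M u x η M0 X0 x0 b0 := by
  intro z hz
  rw [caseb1_mem] at hz
  refine ⟨hz.1, fun w hw hzw => ?_⟩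
  rw [caseb1_mem]
  exact ⟨hw, hz.2.1, fun b hb ho => hM.le_lt hzw (hz.2.2 b hb ho)⟩

theorem caseb1_dir {η : Ordinal.{0}}
    {M0 : SM} {X0 : Set ℕ} {x0 b0 z z' : ℕ} (hS : Fam μ S) (hM : AC μ M) (hM' : AC μ M')
    (hmt : Mt S M M' u u' m y y' φ) (hx : (x, x') ∈ φ) (hη : η < m)
    (hz : (z, z') ∈ φ) (hzA : z ∈ caseb1A S M u x η M0 X0 x0 b0) :
    z' ∈ caseb1A S M' u' x' η M0 X0 x0 b0 := by
  have hcore := t_CORE hS hM hM' hmt hx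
  set P : Set (ℕ × ℕ) := {w | w ∈ φ ∧ ¬ Adj M w.1 x} with hP
  have hxP : (x, x') ∈ P := ⟨hx, hM.irr x⟩
  rw [caseb1_mem] at hzA ⊢
  obtain ⟨hz1, ⟨b, hb, hbo⟩, hz3⟩ := hzA
  have hzI : z' ∈ Ic M' u' y' := (hmt.subset hz).2
  refine ⟨Lw_Ic hS hM' hmt.memR hzI, ?_, ?_⟩
  · obtain ⟨b', hb', hbf⟩ := hcore.forth hη hb
    refine ⟨b', hb', ?_⟩
    have hsub : ({(x, x'), (b, b')} : Set (ℕ × ℕ)) ⊆ insert (b, b') P := by
      rintro w (rfl | hw)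
      · exact Or.inr hxP
      · exact Or.inl hw
    exact bf_comp2 hbo (hbf.subset hsub)
  · intro b' hb' hbo'
    by_contra hn
    obtain ⟨b, hb, hbf⟩ := hcore.back hη hb'
    have hsub : ({(x, x'), (b, b')} : Set (ℕ × ℕ)) ⊆ insert (b, b') P := by
      rintro w (rfl | hw)
      · exact Or.inr hxP
      · exact Or.inl hw
    have hbo2 : caseb1Occ S M u x η M0 X0 x0 b0 b := bf_comp2 hbo' (bf_symm2 (hbf.subset hsub))
    have hzb := hz3 b hb hbo2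
    have hpi := hbf.piso
    have hbP : (b, b') ∈ insert (b, b') P := Or.inl rfl
    by_cases hzx : Adj M z x
    · have h5 : Adj M' z' x' := (hmt.piso.adj hz hx).1 hzx
      exact hn (hM'.lt_le h5 hb'.2)
    · have hzP : (z, z') ∈ insert (b, b') P := Or.inr ⟨hz, hzx⟩
      exact hn ((hpi.adj hzP hbP).1 hzb)

theorem t_CASEB1 (hS : Fam μ S) (hl : Lev S l) (hol : Ordinal.omega0 ≤ l)
    (hlm : l < m) (hmk : m < k) (hM : AC μ M) (hM' : AC μ M') (hNL : NoLast M (Lw S M u))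
    (hx : x ∈ Lw S M u) (hCl : ∀ e ∈ Lx S M u x, ¬ Cl S M u m x e)
    (hBF : BF M M' (Lw S M u) (Lw S M' u') k {(u, u'), (x, x')}) :
    IsoOn M M' (Lw S M u) (Lw S M' u') ∅ := by
  have key := t_CAN hS hl hol hlm.le hmk hM hM' hNL hx hBF
    (ι := {η : Ordinal.{0} // η < m} × SM × Set ℕ × ℕ × ℕ)
    (fun κ => caseb1A S M u x κ.1.1 κ.2.1 κ.2.2.1 κ.2.2.2.1 κ.2.2.2.2)
    (fun κ => caseb1A S M' u' x' κ.1.1 κ.2.1 κ.2.2.1 κ.2.2.2.1 κ.2.2.2.2)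
    (fun κ => caseb1_init hM) (fun κ => caseb1_init hM')
  refine key ?_ ?_ ?_
  · rintro ⟨⟨η, hη⟩, M0, X0, x0, b0⟩
    by_cases hex : ∃ b ∈ Lx S M u x, caseb1Occ S M u x η M0 X0 x0 b0 b
    · obtain ⟨b, hb, hbo⟩ := hex
      refine ⟨b, hb.1, fun hbA => ?_⟩
      have := (caseb1_mem.1 hbA).2.2 b hb hbo
      exact hM.irr b this
    · exact ⟨x, hx, fun hxA => hex (caseb1_mem.1 hxA).2.1⟩
  · intro z hz
    obtain ⟨e, he, hze, hxe⟩ : ∃ e ∈ Lw S M u, Adj M z e ∧ Adj M x e := by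
      by_cases hzx : Adj M z x
      · obtain ⟨e, he, hxe⟩ := hNL x hx
        exact ⟨e, he, hM.lt_trans hzx hxe, hxe⟩
      · obtain ⟨e, he, hze⟩ := hNL z hz
        exact ⟨e, he, hze, hM.le_lt hzx hze⟩
    have heL : e ∈ Lx S M u x := ⟨he, hM.asymm hxe⟩
    have hn := hCl e heL
    unfold Cl at hn
    push Not at hn
    obtain ⟨k', hk', b, hb, hbn⟩ := hn
    refine ⟨⟨⟨k', hk'⟩, M, Lx S M u x, x, b⟩, ?_⟩
    rw [caseb1_mem]
    refine ⟨hz, ⟨b, hb, ?_⟩, ?_⟩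
    · apply bf_id
      rintro w (rfl | hw)
      · exact ⟨rfl, Lx_self hM hx⟩
      · rw [mem_singleton_iff] at hw
        subst hw
        exact ⟨rfl, hb⟩
    · intro b' hb' hbo
      have : ¬ Adj M b' e := fun h => hbn b' hb' h hbo
      exact hM.lt_le hze this
  · rintro y y' φ hmt hxφ hxy ⟨⟨η, hη⟩, M0, X0, x0, b0⟩ ⟨z, z'⟩ hw
    constructor
    · intro hzA
      exact caseb1_dir hS hM hM' hmt hxφ hη hw hzA
    · intro hzA
      exact caseb1_dir hS hM' hM hmt.symm (mem_inv'.2 hxφ) hη (mem_inv'.2 hw) hzA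

private theorem caseb2_mono (hM : AC μ M) {e e2 : ℕ} (he : ¬ Adj M e2 e) (o : Ordinal.{0}) :
    ∀ x, Rk S M u m o x e → Rk S M u m o x e2 := by
  induction o using WellFoundedLT.induction with
  | ind o ih =>
    intro x h
    rw [Rk] at h ⊢
    intro o' ho'
    obtain ⟨x1, h1, h2, h3, h4⟩ := h o' ho'
    exact ⟨x1, h1, hM.lt_le h2 he, h3, ih o' ho' x1 h4⟩

/-- The level set. -/
private def caseb2A (S : Set (SM × Set ℕ)) (M : SM) (u : ℕ)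
    (m : Ordinal.{0}) (x : ℕ) (o : Ordinal.{0}) : Set ℕ :=
  {e | e ∈ Lw S M u ∧ (∃ e1 ∈ Lx S M u x, Rk S M u m o x e1) ∧
    (Adj M e x ∨ ¬ Rk S M u m o x e)}

private theorem caseb2_init (hM : AC μ M) (o : Ordinal.{0}) :
    ∀ z ∈ caseb2A S M u m x o, z ∈ Lw S M u ∧
      ∀ w ∈ Lw S M u, ¬ Adj M z w → w ∈ caseb2A S M u m x o := by
  rintro z ⟨h1, h2, h3⟩
  refine ⟨h1, fun w hw hzw => ⟨hw, h2, ?_⟩⟩
  rcases h3 with h3 | h3
  · exact Or.inl (hM.le_lt hzw h3)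
  · exact Or.inr fun h => h3 (caseb2_mono hM hzw o x h)

private theorem caseb2_loc {e e' : ℕ} (hS : Fam μ S) (hl : Lev S l) (hlm : l < m) (hmn : m < n)
    (hM : AC μ M) (hM' : AC μ M')
    (hφ : Mt S M M' u u' n y y' φ) (hx : (x, x') ∈ φ) (he : (e, e') ∈ φ)
    (o : Ordinal.{0}) (hA : e ∈ caseb2A S M u m x o) : e' ∈ caseb2A S M' u' m x' o := by
  obtain ⟨heL, ⟨e1, he1, hr1⟩, hor⟩ := hA
  refine ⟨Lw_Ic hS hM' hφ.memR (hφ.subset he).2, ?_, ?_⟩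
  · obtain ⟨e2, he2, he2y, he12⟩ : ∃ e2 ∈ Lw S M u, ¬ Adj M e2 y ∧ ¬ Adj M e2 e1 := by
      by_cases h : Adj M e1 y
      · exact ⟨y, hφ.memL, hM.irr y, hM.asymm h⟩
      · exact ⟨e1, he1.1, h, hM.irr e1⟩
    obtain ⟨y2', φ2, hφ2, hsub⟩ := t_EXT hS hl hlm.le hmn hM hM' hφ he2 he2y
    have hx2 : (x, x') ∈ φ2 := hsub hx
    obtain ⟨e1', he1'⟩ := hφ2.total e1 ⟨he1.1.1, he12⟩
    refine ⟨e1', ⟨Lw_Ic hS hM' hφ2.memR (hφ2.subset he1').2, ?_⟩, ?_⟩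
    · intro h
      exact he1.2 ((hφ2.piso.adj he1' hx2).2 h)
    · exact t_LOCRK hS hM hM' le_rfl hφ2 hx2 he1' hr1
  · rcases hor with hor | hor
    · exact Or.inl ((hφ.piso.adj he hx).1 hor)
    · right
      intro h
      exact hor (t_LOCRK hS hM' hM hmn.le hφ.symm (mem_inv'.2 hx) (mem_inv'.2 he) h)

theorem t_CASEB2 (hS : Fam μ S) (hl : Lev S l) (hom : Ordinal.omega0 ≤ l)
    (hlm : l < m) (hmn : m < n) (hnk : n < k) (hM : AC μ M) (hM' : AC μ M')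
    (hL : NoLast M (Lw S M u)) (hx : x ∈ Lw S M u)
    (hrk : ∀ z ∈ Lx S M u x, ∃ o : Ordinal.{0}, (∃ e ∈ Lx S M u x, Rk S M u m o x e) ∧
      ¬ Rk S M u m o x z)
    (hb : BF M M' (Lw S M u) (Lw S M' u') k {(u, u'), (x, x')}) :
    IsoOn M M' (Lw S M u) (Lw S M' u') ∅ := by
  refine t_CAN hS hl hom (hlm.le.trans hmn.le) hnk hM hM' hL hx hb
    (ι := Ordinal.{0}) (fun o => caseb2A S M u m x o) (fun o => caseb2A S M' u' m x' o)
    (fun o => caseb2_init hM o) (fun o => caseb2_init hM' o) ?_ ?_ ?_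
  · intro o
    by_cases h : ∃ e1 ∈ Lx S M u x, Rk S M u m o x e1
    · obtain ⟨e1, he1, hr⟩ := h
      refine ⟨e1, he1.1, fun hA => ?_⟩
      rcases hA.2.2 with h | h
      · exact he1.2 h
      · exact h hr
    · exact ⟨x, hx, fun hA => h hA.2.1⟩
  · intro z hz
    by_cases h : Adj M z x
    · obtain ⟨o, ho1, ho2⟩ := hrk x (Lx_self hM hx)
      exact ⟨o, hz, ho1, Or.inl h⟩
    · obtain ⟨o, ho1, ho2⟩ := hrk z ⟨hz, h⟩
      exact ⟨o, hz, ho1, Or.inr ho2⟩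
  · rintro y y' φ hφ hxφ hxy o ⟨e, e'⟩ hw
    constructor
    · exact fun h => caseb2_loc hS hl hlm hmn hM hM' hφ hxφ hw o h
    · intro h
      exact caseb2_loc hS hl hlm hmn hM' hM hφ.symm (x := x') (x' := x) (mem_inv'.2 hxφ)
        (e := e') (e' := e) (mem_inv'.2 hw) o h

end Pool.Agent.N643.AX
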