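import Pool.Agent.N643.AX.Surg

set_option autoImplicit false

/-!
# Coding
-/

namespace Pool.Agent.N643.AX

open Set
open Pool.Agent.H899R2.VP
open Pool.Agent.H533R2.VO (Ic Ge Le Gt Lt Lev Lw Uw Lx NoLast Mt Cls Cl Rk Rr Bg rev revS resBF
  resIso resGe resLe resGt resLt resIc resIsoLt resIsoIc resIsoGe bf_id bf_comp0 bf_comp1 bf_comp2
  bf_symm0 bf_symm1 bf_symm2 iso_symm0 iso_trans0 iso_refl0 bf_mem_right bf_mem_left mem_Ic mem_Ge
  mem_Le Lw_ge mem_Lx rev_iso rev_bf rev_Ic rev_cont rev_Lw cnt_countable trunc CS En seq_rec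
  seq_trunc t_CSI code_div)
open Pool.Agent.H566P (ar R2 v2 lt ac co mk)
open Pool.Agent.Y560.TG (lt_mk ac_mk co_mk R2_ext)

variable {μ : Par} {α : Ordinal.{0}}

/-- pull back along `g` -/
def Pb (N : SM) (g : ℕ → ℕ) : SM := (fun x y => N.1 (g x) (g y), fun i t => N.2 i (fun k => g (t k)))

theorem Pb_piso (N : SM) {g : ℕ → ℕ} {X : Set ℕ} (hg : InjOn g X) :
    PIso N (Pb N g) {u | u.2 ∈ X ∧ u.1 = g u.2} := by
  refine ⟨?_, ?_, ?_⟩
  · rintro ⟨u, u'⟩ ⟨hu, eu⟩ ⟨v, v'⟩ ⟨hv, ev⟩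
    simp only at hu hv eu ev ⊢
    rw [eu, ev]
    exact ⟨fun h => hg hu hv h, fun h => by rw [h]⟩
  · rintro ⟨u, u'⟩ ⟨hu, eu⟩ ⟨v, v'⟩ ⟨hv, ev⟩
    simp only at hu hv eu ev ⊢
    rw [eu, ev]
    rfl
  · intro i t ht
    have e3 : (fun k => (t k).1) = fun k => g (t k).2 := funext fun k => (ht k).2
    rw [e3]
    rfl

/-- a bijection of equivalent sets which respects the end points -/
theorem exists_bij {M N : SM} {X Y : Set ℕ} {x x' y y' : ℕ} (hx : x ∈ X) (hx' : x' ∈ Y)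
    (hy : y ∈ X) (hy' : y' ∈ Y) (hb : BF M N X Y Ordinal.omega0 {(x, x'), (y, y')}) :
    ∃ g : ℕ → ℕ, BijOn g X Y ∧ g x = x' ∧ g y = y' := by
  classical
  have h1 := encard_eq_of_bf hb
  have e1 : pdom ({(x, x'), (y, y')} : Set (ℕ × ℕ)) = {x, y} := by
    ext z
    constructor
    · rintro ⟨w, hw | hw⟩
      · exact Or.inl (congrArg Prod.fst hw)
      · exact Or.inr (congrArg Prod.fst hw)
    · rintro (rfl | rfl)
      · exact ⟨x', Or.inl rfl⟩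
      · exact ⟨y', Or.inr rfl⟩
  have e2 : pran ({(x, x'), (y, y')} : Set (ℕ × ℕ)) = {x', y'} := by
    ext z
    constructor
    · rintro ⟨w, hw | hw⟩
      · exact Or.inl (congrArg Prod.snd hw)
      · exact Or.inr (congrArg Prod.snd hw)
    · rintro (rfl | rfl)
      · exact ⟨x, Or.inl rfl⟩
      · exact ⟨y, Or.inr rfl⟩
  rw [e1, e2] at h1
  obtain ⟨g, hg1, hg2, hg3⟩ := exists_bijOn_of_encard h1
  have hxy : x = y ↔ x' = y' := hb.piso.1 (x, x') (Or.inl rfl) (y, y') (Or.inr rfl)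
  let f : ℕ → ℕ := fun z => if z = x then x' else if z = y then y' else g z
  have fx : f x = x' := if_pos rfl
  have fy : f y = y' := by
    by_cases h : y = x
    · have h2 : x' = y' := hxy.1 h.symm
      simp only [f, if_pos h, h2]
    · simp only [f, if_neg h, if_true]
  have fo : ∀ z, z ≠ x → z ≠ y → f z = g z := fun z h2 h3 => by
    simp only [f, if_neg h2, if_neg h3]
  have hout : ∀ z ∈ X, z ≠ x → z ≠ y → g z ∈ Y \ {x', y'} := fun z hz h2 h3 =>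
    hg1 ⟨hz, by rintro (h4 | h4); exacts [h2 h4, h3 h4]⟩
  refine ⟨f, ⟨?_, ?_, ?_⟩, fx, fy⟩
  · intro z hz
    by_cases h2 : z = x
    · rw [h2, fx]; exact hx'
    · by_cases h3 : z = y
      · rw [h3, fy]; exact hy'
      · rw [fo z h2 h3]
        exact (hout z hz h2 h3).1
  · intro z hz w hw he
    by_cases h2 : z = x
    · rw [h2, fx] at he
      by_cases h3 : w = x
      · rw [h2, h3]
      · by_cases h4 : w = y
        · rw [h4, fy] at he
          rw [h2, h4]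
          exact hxy.2 he
        · rw [fo w h3 h4] at he
          exact absurd (Or.inl he.symm) (hout w hw h3 h4).2
    · by_cases h3 : z = y
      · rw [h3, fy] at he
        by_cases h4 : w = y
        · rw [h3, h4]
        · by_cases h5 : w = x
          · rw [h5, fx] at he
            rw [h3, h5]
            exact (hxy.2 he.symm).symm
          · rw [fo w h5 h4] at he
            exact absurd (Or.inr he.symm) (hout w hw h5 h4).2
      · rw [fo z h2 h3] at he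
        by_cases h4 : w = x
        · rw [h4, fx] at he
          exact absurd (Or.inl he) (hout z hz h2 h3).2
        · by_cases h5 : w = y
          · rw [h5, fy] at he
            exact absurd (Or.inr he) (hout z hz h2 h3).2
          · rw [fo w h4 h5] at he
            exact hg2 ⟨hz, by rintro (h6 | h6); exacts [h2 h6, h3 h6]⟩
              ⟨hw, by rintro (h6 | h6); exacts [h4 h6, h5 h6]⟩ he
  · intro w hw
    by_cases h2 : w = x'
    · exact ⟨x, hx, by rw [fx, h2]⟩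
    · by_cases h3 : w = y'
      · exact ⟨y, hy, by rw [fy, h3]⟩
      · obtain ⟨z, ⟨hz, hz2⟩, hz3⟩ := hg3 ⟨hw, by rintro (h6 | h6); exacts [h2 h6, h3 h6]⟩
        refine ⟨z, hz, ?_⟩
        rw [fo z (fun h4 => hz2 (Or.inl h4)) (fun h4 => hz2 (Or.inr h4))]
        exact hz3

/-- fillings avoiding countably many pieces -/
theorem t_FILL {M : SM} {x y : ℕ} (hM : AC μ M) (hxy : ¬ Adj M y x) (hα : Ordinal.omega0 ≤ α)
    (hns : ¬ Small μ α M x y) (F : Set (SM × Set ℕ)) (hF : F.Countable) :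
    ∃ T : SM, BF M T (Ic M x y) (Ic M x y) α {(x, x), (y, y)} ∧ ∃ c ∈ Ic M x y,
      ∃ d ∈ Ic M x y, ¬ Adj T d c ∧
      ∀ P ∈ F, ¬ IsoOn P.1 T P.2 (Ic M x y ∩ Ic T c d) ∅ := by
  obtain ⟨f, hf⟩ := (hF.insert (M, (∅ : Set ℕ))).exists_eq_range (insert_nonempty _ _)
  -- a piece which is not isomorphic to any `f n`
  have hex : ∃ N : SM, AC μ N ∧ ∃ x' y', ¬ Adj N y' x' ∧
      BF M N (Ic M x y) (Ic N x' y') α {(x, x'), (y, y')} ∧
      ∃ c ∈ Ic N x' y', ∃ d ∈ Ic N x' y', ¬ Adj N d c ∧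
      ∀ n, ¬ IsoOn (f n).1 N (f n).2 (Ic N c d) ∅ := by
    by_contra hcon
    apply hns
    refine ⟨f, fun N hN x' y' hle hb c hc d hd hdc => ?_⟩
    by_contra hno
    exact hcon ⟨N, hN, x', y', hle, hb, c, hc, d, hd, hdc, fun n hn => hno ⟨n, hn⟩⟩
  obtain ⟨N, hN, x', y', hle, hb, c, hc, d, hd, hdc, hno⟩ := hex
  have mx := left_mem_Ic hM hxy
  have my := right_mem_Ic hM hxy
  have mx' := left_mem_Ic hN hle
  have my' := right_mem_Ic hN hle
  obtain ⟨g, hg, gx, gy⟩ := exists_bij mx mx' my my' (hb.mono hα)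
  have hI : IsoOn N (Pb N g) (Ic N x' y') (Ic M x y) {(x', x), (y', y)} := by
    refine ⟨{u | u.2 ∈ Ic M x y ∧ u.1 = g u.2}, ?_, ?_, Pb_piso N hg.2.1, ?_, ?_⟩
    · rintro w (rfl | rfl)
      · exact ⟨mx, gx.symm⟩
      · exact ⟨my, gy.symm⟩
    · rintro ⟨u, v⟩ ⟨h2, h3⟩
      simp only at h2 h3
      exact ⟨by rw [h3]; exact hg.1 h2, h2⟩
    · intro z hz
      obtain ⟨w, hw, rfl⟩ := hg.2.2 hz
      exact ⟨w, hw, rfl⟩
    · intro z hz
      exact ⟨g z, hz, rfl⟩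
  obtain ⟨c1, hc1, rfl⟩ := hg.2.2 hc
  obtain ⟨d1, hd1, rfl⟩ := hg.2.2 hd
  refine ⟨Pb N g, bf_comp2 hb (hI.bf α), c1, hc1, d1, hd1, hdc, ?_⟩
  intro P hP hPI
  have hPr : P ∈ range f := by
    rw [← hf]
    exact Or.inr hP
  obtain ⟨n, rfl⟩ := hPr
  refine hno n (iso_trans0 hPI ?_)
  -- the piece of `N` and the piece of the pull back
  have hsub : Ic N (g c1) (g d1) ⊆ Ic N x' y' := fun z hz =>
    ⟨hN.le_trans hc.1 hz.1, hN.le_trans hz.2 hd.2⟩
  refine iso_symm0 ⟨{u | u.2 ∈ Ic M x y ∩ Ic (Pb N g) c1 d1 ∧ u.1 = g u.2}, empty_subset _, ?_,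
    (Pb_piso N hg.2.1).mono fun u hu => ⟨hu.1.1, hu.2⟩, ?_, ?_⟩
  · rintro ⟨u, v⟩ ⟨h2, h3⟩
    simp only at h2 h3
    refine ⟨?_, h2⟩
    rw [h3]
    exact h2.2
  · intro z hz
    obtain ⟨w, hw, rfl⟩ := hg.2.2 (hsub hz)
    exact ⟨w, ⟨hw, hz⟩, rfl⟩
  · intro z hz
    exact ⟨g z, hz, rfl⟩

/-- The structure obtained from `M` by filling the intervals `[lo n k, hi n k]` according to the
bits of `σ`. -/
noncomputable def DS (μ : Par) (M : SM) (lo hi : ℕ → ℕ → ℕ) (t : ℕ → ℕ → SM)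
    (σ : ℕ → Bool) : SM :=
  RD μ M (fun j : ℕ × ℕ => lo j.1 j.2) (fun j : ℕ × ℕ => hi j.1 j.2)
    (fun j => t (2 * j.1 + (σ j.1).toNat) j.2)

/-- The countable set of pieces to be avoided at stage `s`. -/
def FF (μ : Par) (M : SM) (lo hi : ℕ → ℕ → ℕ) (t : ℕ → ℕ → SM) (s : ℕ) :
    Set (SM × Set ℕ) :=
  {P | ∃ r ≤ s, ∃ c x y : ℕ, P = (DS μ M lo hi (trunc M t r) (fun j => c.testBit j),
    Ic (DS μ M lo hi (trunc M t r) (fun j => c.testBit j)) x y)}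

theorem seq_FF_congr {M : SM} {lo hi : ℕ → ℕ → ℕ} {t t' : ℕ → ℕ → SM} {s : ℕ}
    (h : ∀ i < s, t i = t' i) : FF μ M lo hi t s = FF μ M lo hi t' s := by
  ext P
  unfold FF
  simp only [Set.mem_ofPred_eq]
  refine exists_congr fun r => and_congr_right fun hr => ?_
  rw [seq_trunc h hr]

theorem seq_FF_countable (M : SM) (lo hi : ℕ → ℕ → ℕ) (t : ℕ → ℕ → SM) (s : ℕ) :
    (FF μ M lo hi t s).Countable := by
  have h : FF μ M lo hi t s ⊆ Set.range (fun q : ℕ × ℕ × ℕ × ℕ =>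
      ((DS μ M lo hi (trunc M t q.1) (fun j => q.2.1.testBit j),
        Ic (DS μ M lo hi (trunc M t q.1) (fun j => q.2.1.testBit j)) q.2.2.1 q.2.2.2) :
        SM × Set ℕ)) := by
    rintro P ⟨r, _, c, x, y, rfl⟩
    exact ⟨(r, c, x, y), rfl⟩
  exact (Set.countable_range _).mono h

/-- The standing assumptions on the intervals. -/
structure LH (μ : Par) (M : SM) (lo hi : ℕ → ℕ → ℕ) : Prop where
  os : AC μ M
  lt : ∀ n k, Adj M (lo n k) (hi n k)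
  dn : ∀ n k, Adj M (hi n (k + 1)) (lo n k)
  up : ∀ n k j, Adj M (hi n k) (lo (n + 1) j)

/-- What `t_SEQ` provides. -/
def GoodT (μ : Par) (α : Ordinal.{0}) (M : SM) (lo hi : ℕ → ℕ → ℕ) (t : ℕ → ℕ → SM) :
    Prop := ∀ s k,
    BF M (t s k) (Ic M (lo (s / 2) k) (hi (s / 2) k)) (Ic M (lo (s / 2) k) (hi (s / 2) k)) α
      {(lo (s / 2) k, lo (s / 2) k), (hi (s / 2) k, hi (s / 2) k)} ∧
    ∃ x ∈ Ic M (lo (s / 2) k) (hi (s / 2) k), ∃ y ∈ Ic M (lo (s / 2) k) (hi (s / 2) k),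
      ¬ Adj (t s k) y x ∧ ∀ P ∈ FF μ M lo hi t s,
        ¬ IsoOn P.1 (t s k) P.2 (Ic M (lo (s / 2) k) (hi (s / 2) k) ∩ Ic (t s k) x y) ∅

theorem t_SEQ {M : SM} {lo hi : ℕ → ℕ → ℕ} (hL : LH μ M lo hi) (hα : Ordinal.omega0 ≤ α)
    (hb : ∀ n k, ¬ Small μ α M (lo n k) (hi n k)) : ∃ t, GoodT μ α M lo hi t := by
  refine seq_rec (X := ℕ → SM) (fun _ => M) (fun s t σ => ∀ k,
    BF M (σ k) (Ic M (lo (s / 2) k) (hi (s / 2) k)) (Ic M (lo (s / 2) k) (hi (s / 2) k)) α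
      {(lo (s / 2) k, lo (s / 2) k), (hi (s / 2) k, hi (s / 2) k)} ∧
    ∃ x ∈ Ic M (lo (s / 2) k) (hi (s / 2) k), ∃ y ∈ Ic M (lo (s / 2) k) (hi (s / 2) k),
      ¬ Adj (σ k) y x ∧ ∀ P ∈ FF μ M lo hi t s,
        ¬ IsoOn P.1 (σ k) P.2 (Ic M (lo (s / 2) k) (hi (s / 2) k) ∩ Ic (σ k) x y) ∅) ?_ ?_
  · intro s t
    have h1 := fun k => t_FILL (μ := μ) (α := α) hL.os (hL.os.asymm (hL.lt (s / 2) k)) hα
      (hb (s / 2) k) (FF μ M lo hi t s) (seq_FF_countable M lo hi t s)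
    choose T hT using h1
    exact ⟨T, fun k => hT k⟩
  · intro s t t' σ htt hσ k
    rw [← seq_FF_congr htt]
    exact hσ k

section lhf

variable {M : SM} {lo hi : ℕ → ℕ → ℕ}

theorem lhf_dn (h : LH μ M lo hi) (n k : ℕ) : ∀ k', k < k' → Adj M (hi n k') (lo n k) := by
  intro k' hk
  induction k', hk using Nat.le_induction with
  | base => exact h.dn n k
  | succ k' _ ih =>
    exact h.os.tr _ _ _ (h.dn n k') (h.os.tr _ _ _ (h.lt n k') ih)

theorem lhf_up (h : LH μ M lo hi) (m k : ℕ) : ∀ n, m < n → ∀ j, Adj M (hi m k) (lo n j) := by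
  intro n hn
  induction n, hn using Nat.le_induction with
  | base => exact fun j => h.up m k j
  | succ n _ ih =>
    intro j
    exact h.os.tr _ _ _ (ih 0) (h.os.tr _ _ _ (h.lt n 0) (h.up n 0 j))

theorem lhf_dj (h : LH μ M lo hi) (m k n l : ℕ) (hlt : Adj M (hi m k) (lo n l)) :
    Disjoint (Ic M (lo m k) (hi m k)) (Ic M (lo n l) (hi n l)) := by
  rw [Set.disjoint_left]
  intro z hz hz'
  exact hz'.1 (h.os.le_lt hz.2 hlt)

theorem t_LHF (h : LH μ M lo hi) : (∀ i j : ℕ × ℕ, i ≠ j →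
    Disjoint (Ic M (lo i.1 i.2) (hi i.1 i.2)) (Ic M (lo j.1 j.2) (hi j.1 j.2))) ∧
  (∀ m n k, m < n → Ic M (lo m k) (hi m k) ⊆ En M lo n) ∧
  (∀ n k, ∀ z ∈ Ic M (lo n k) (hi n k), ∀ m, m ≤ n → z ∉ En M lo m) ∧
  (∀ m n, m ≤ n → En M lo m ⊆ En M lo n) ∧
  (∀ m n, m < n → ∃ z ∈ En M lo n, z ∉ En M lo m) ∧
  (∀ n z, z ∉ En M lo n → ∃ k, ∀ w ∈ Ic M (lo n k) (hi n k), Adj M w z) := by
  have hO := h.os
  refine ⟨?_, ?_, ?_, ?_, ?_, ?_⟩
  · rintro ⟨m, k⟩ ⟨n, l⟩ hne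
    show Disjoint (Ic M (lo m k) (hi m k)) (Ic M (lo n l) (hi n l))
    rcases lt_trichotomy m n with h1 | h1 | h1
    · exact lhf_dj h m k n l (lhf_up h m k n h1 l)
    · subst h1
      rcases lt_trichotomy k l with h2 | h2 | h2
      · exact (lhf_dj h m l m k (lhf_dn h m k l h2)).symm
      · exact absurd (by rw [h2]) hne
      · exact lhf_dj h m k m l (lhf_dn h m l k h2)
    · exact (lhf_dj h n l m k (lhf_up h n l m h1 k)).symm
  · intro m n k hmn z hz j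
    exact hO.le_lt hz.2 (lhf_up h m k n hmn j)
  · intro n k z hz m hmn hE
    rcases Nat.lt_or_eq_of_le hmn with h1 | h1
    · have h2 : Adj M (lo m 0) (lo n k) := hO.tr _ _ _ (h.lt m 0) (lhf_up h m 0 n h1 k)
      exact hz.1 (hO.tr _ _ _ (hE 0) h2)
    · subst h1
      exact hz.1 (hE k)
  · intro m n hmn z hz j
    rcases Nat.lt_or_eq_of_le hmn with h1 | h1
    · exact hO.tr _ _ _ (hz 0) (hO.tr _ _ _ (h.lt m 0) (lhf_up h m 0 n h1 j))
    · subst h1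
      exact hz j
  · intro m n hmn
    refine ⟨lo m 0, fun k => hO.tr _ _ _ (h.lt m 0) (lhf_up h m 0 n hmn k), fun hE => ?_⟩
    exact hO.irr _ (hE 0)
  · intro n z hz
    have h1 : ∃ k, ¬ Adj M z (lo n k) := by
      by_contra hcon
      push Not at hcon
      exact hz hcon
    obtain ⟨k, hk⟩ := h1
    exact ⟨k + 1, fun w hw => hO.lt_le (hO.le_lt hw.2 (h.dn n k)) hk⟩

end lhf

section dec

variable {M : SM} {lo hi : ℕ → ℕ → ℕ} {t : ℕ → ℕ → SM} {σ : ℕ → Bool}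

theorem code_GA (hLH : LH μ M lo hi) (ht : GoodT μ α M lo hi t) (σ : ℕ → Bool) :
    GA μ α M (fun j : ℕ × ℕ => lo j.1 j.2) (fun j : ℕ × ℕ => hi j.1 j.2)
      (fun j : ℕ × ℕ => t (2 * j.1 + (σ j.1).toNat) j.2) where
  os := hLH.os
  le := fun j => hLH.os.asymm (hLH.lt j.1 j.2)
  dj := (t_LHF hLH).1
  bf := fun j => by
    have h := (ht (2 * j.1 + (σ j.1).toNat) j.2).1
    rw [code_div] at h
    exact h

theorem dec1_bits (σ : ℕ → Bool) (e : ℕ) : ∃ c : ℕ, ∀ m < e, c.testBit m = σ m := by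
  refine ⟨Nat.ofBits (fun i : Fin e => σ i), fun m hm => ?_⟩
  rw [Nat.testBit_ofBits_lt _ _ hm]

/-- agreement on a set gives a partial isomorphism -/
theorem agr_piso {D D' : SM} {Y : Set ℕ} (h : ∀ x ∈ Y, ∀ y ∈ Y, (Adj D x y ↔ Adj D' x y) ∧
    (lt D.2 x y ↔ lt D'.2 x y) ∧ (∀ s, (ac D.2 s x y ↔ ac D'.2 s x y)) ∧
    (∀ k, (co D.2 k x ↔ co D'.2 k x))) : IsoOn D D' Y Y (idOn Y) := by
  refine ⟨idOn Y, subset_rfl, ?_, ?_, fun x hx => ⟨x, rfl, hx⟩, fun x hx => ⟨x, rfl, hx⟩⟩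
  · rintro ⟨u, v⟩ ⟨h1, h2⟩
    simp only at h1 h2
    subst h1
    exact ⟨h2, h2⟩
  · rw [piso_raw]
    refine ⟨?_, ?_, ?_, ?_, ?_⟩
    · rintro ⟨u, u'⟩ ⟨h1, hu⟩ ⟨v, v'⟩ ⟨h2, hv⟩
      simp only at h1 h2
      subst h1 h2
      exact Iff.rfl
    · rintro ⟨u, u'⟩ ⟨h1, hu⟩ ⟨v, v'⟩ ⟨h2, hv⟩
      simp only at h1 h2 hu hv
      subst h1 h2
      exact (h u hu v hv).1
    · rintro ⟨u, u'⟩ ⟨h1, hu⟩ ⟨v, v'⟩ ⟨h2, hv⟩
      simp only at h1 h2 hu hv
      subst h1 h2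
      exact (h u hu v hv).2.1
    · rintro s ⟨u, u'⟩ ⟨h1, hu⟩ ⟨v, v'⟩ ⟨h2, hv⟩
      simp only at h1 h2 hu hv
      subst h1 h2
      exact (h u hu v hv).2.2.1 s
    · rintro k ⟨u, u'⟩ ⟨h1, hu⟩
      simp only at h1 hu
      subst h1
      exact (h u hu u hu).2.2.2 k

theorem dec1_aux (hLH : LH μ M lo hi) (e r s : ℕ) (hrs : r ≤ s)
    (hr : ∀ m < e, 2 * m + (σ m).toNat < r) :
    En M lo e ⊆ CS (FF μ M lo hi t s) (DS μ M lo hi t σ) := by
  obtain ⟨c, hc⟩ := dec1_bits σ e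
  obtain ⟨hdj, hin, hout, -, -, -⟩ := t_LHF hLH
  have hM := hLH.os
  have hJin : ∀ j : ℕ × ℕ, j.1 < e → Ic M (lo j.1 j.2) (hi j.1 j.2) ⊆ En M lo e := by
    intro j hj
    exact hin j.1 e j.2 hj
  have hJlt : ∀ j : ℕ × ℕ, ∀ z ∈ Ic M (lo j.1 j.2) (hi j.1 j.2), z ∈ En M lo e → j.1 < e := by
    intro j z hz hzE
    by_contra hge
    exact hout j.1 j.2 z hz e (not_lt.1 hge) hzE
  have hlt : ∀ z ∈ En M lo e, ∀ w, w ∉ En M lo e → Adj M z w := by
    intro z hz w hw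
    have : ∃ k, ¬ Adj M w (lo e k) := by
      by_contra hcon
      push Not at hcon
      exact hw hcon
    obtain ⟨k, hk⟩ := this
    exact hM.lt_le (hz k) hk
  have hsep : ∀ z ∈ En M lo e, ∀ w, w ∉ En M lo e →
      ¬ Sa M (fun j : ℕ × ℕ => lo j.1 j.2) (fun j => hi j.1 j.2) z w := by
    rintro z hz w hw ⟨j, hzj, hwj⟩
    exact hw (hJin j (hJlt j z hzj hz) hwj)
  -- initial segments in glued structures
  have hG1 : ∀ T : ℕ × ℕ → SM, ∀ z ∈ En M lo e, ∀ w, w ∉ En M lo e →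
      Adj (RD μ M (fun j : ℕ × ℕ => lo j.1 j.2) (fun j => hi j.1 j.2) T) z w := by
    intro T z hz w hw
    rw [RD_adj0 (hsep z hz w hw)]
    exact hlt z hz w hw
  obtain ⟨T, hT⟩ : ∃ T : ℕ × ℕ → SM, T = fun j => t (2 * j.1 + (σ j.1).toNat) j.2 := ⟨_, rfl⟩
  obtain ⟨T1, hT1⟩ : ∃ T1 : ℕ × ℕ → SM,
    T1 = fun j => trunc M t r (2 * j.1 + (c.testBit j.1).toNat) j.2 := ⟨_, rfl⟩
  have hTT : ∀ j : ℕ × ℕ, j.1 < e → T1 j = T j := by
    intro j hj
    rw [hT, hT1]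
    simp only
    rw [hc j.1 hj]
    unfold trunc
    rw [if_pos (hr j.1 hj)]
  have hD : DS μ M lo hi t σ =
      RD μ M (fun j : ℕ × ℕ => lo j.1 j.2) (fun j => hi j.1 j.2) T := by
    rw [hT]
    rfl
  have hD1 : DS μ M lo hi (trunc M t r) (fun j => c.testBit j) =
      RD μ M (fun j : ℕ × ℕ => lo j.1 j.2) (fun j => hi j.1 j.2) T1 := by
    rw [hT1]
    rfl
  have hagr := fun x (hx : x ∈ En M lo e) y (hy : y ∈ En M lo e) =>
    RD_congr (μ := μ) (M := M) (lo := fun j : ℕ × ℕ => lo j.1 j.2) (hi := fun j => hi j.1 j.2)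
      (T := T1) (T' := T) (x := x) (y := y) (fun j hj => hTT j (by
        rcases hj with hj | hj
        · exact hJlt j x hj hx
        · exact hJlt j y hj hy))
  intro z hz x y hyx hzy
  rw [hD] at hyx hzy
  have hyE : y ∈ En M lo e := by
    by_contra hcon
    exact hzy (hG1 T z hz y hcon)
  have hxE : x ∈ En M lo e := by
    by_contra hcon
    exact hyx (hG1 T y hyE x hcon)
  have hsub : ∀ T' : ℕ × ℕ → SM, Ic (RD μ M (fun j : ℕ × ℕ => lo j.1 j.2)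
      (fun j => hi j.1 j.2) T') x y ⊆ En M lo e := by
    intro T' w hw
    by_contra hcon
    exact hw.2 (hG1 T' y hyE w hcon)
  have hIc : Ic (RD μ M (fun j : ℕ × ℕ => lo j.1 j.2) (fun j => hi j.1 j.2) T1) x y =
      Ic (RD μ M (fun j : ℕ × ℕ => lo j.1 j.2) (fun j => hi j.1 j.2) T) x y := by
    ext w
    constructor
    · intro hw
      have hwE := hsub T1 hw
      exact ⟨fun h => hw.1 ((hagr w hwE x hxE).1.2 h), fun h => hw.2 ((hagr y hyE w hwE).1.2 h)⟩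
    · intro hw
      have hwE := hsub T hw
      exact ⟨fun h => hw.1 ((hagr w hwE x hxE).1.1 h), fun h => hw.2 ((hagr y hyE w hwE).1.1 h)⟩
  refine ⟨(DS μ M lo hi (trunc M t r) (fun j => c.testBit j),
    Ic (DS μ M lo hi (trunc M t r) (fun j => c.testBit j)) x y), ⟨r, hrs, c, x, y, rfl⟩, ?_⟩
  simp only
  rw [hD, hD1, hIc]
  refine (agr_piso fun u hu v hv => ?_).mono (empty_subset _)
  exact hagr u (hsub T hu) v (hsub T hv)

theorem t_DEC1 (hLH : LH μ M lo hi) (t : ℕ → ℕ → SM) (σ : ℕ → Bool) :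
    (∀ n, En M lo n ⊆ CS (FF μ M lo hi t (2 * n)) (DS μ M lo hi t σ)) ∧
    (∀ n, En M lo n ⊆ CS (FF μ M lo hi t (2 * n + 1)) (DS μ M lo hi t σ)) ∧
    (∀ n, σ n = false → En M lo (n + 1) ⊆
      CS (FF μ M lo hi t (2 * n + 1)) (DS μ M lo hi t σ)) := by
  refine ⟨fun n => ?_, fun n => ?_, fun n hn => ?_⟩
  · apply dec1_aux hLH n (2 * n) (2 * n) le_rfl
    intro m hm
    have := Bool.toNat_le (σ m)
    omega
  · apply dec1_aux hLH n (2 * n) (2 * n + 1) (by omega)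
    intro m hm
    have := Bool.toNat_le (σ m)
    omega
  · apply dec1_aux hLH (n + 1) (2 * n + 1) (2 * n + 1) le_rfl
    intro m hm
    have := Bool.toNat_le (σ m)
    rcases Nat.lt_succ_iff_lt_or_eq.1 hm with h1 | h1
    · omega
    · subst h1
      rw [hn]
      simp

theorem dec2_key (hLH : LH μ M lo hi) (hα : Ordinal.omega0 ≤ α)
    (hT : GoodT μ α M lo hi t) (n r : ℕ) (hr : r ≤ 2 * n + (σ n).toNat) :
    CS (FF μ M lo hi t r) (DS μ M lo hi t σ) ⊆ En M lo n := by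
  obtain ⟨g1, g2, g3, g4, g5, g6⟩ := t_LHF hLH
  intro z hz
  by_contra hzn
  obtain ⟨k, hk⟩ := g6 n z hzn
  have hGA := code_GA hLH hT σ
  have hOS : AC μ (DS μ M lo hi t σ) := t_GLO hGA hα
  obtain ⟨x, hx, y, hy, hxy, hP⟩ := (hT (2 * n + (σ n).toNat) k).2
  rw [code_div] at hx hy hP
  have hzJ : z ∉ Ic M (lo n k) (hi n k) := fun hzJ => hLH.os.irr z (hk z hzJ)
  have hyx : ¬ Adj (DS μ M lo hi t σ) y x := by
    intro h
    exact hxy ((glf2 (μ := μ) (T := fun j : ℕ × ℕ => t (2 * j.1 + (σ j.1).toNat) j.2) g1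
      (n, k) hy hx).1 h)
  have hyz : Adj (DS μ M lo hi t σ) y z :=
    ((glf1 (μ := μ) (T := fun j : ℕ × ℕ => t (2 * j.1 + (σ j.1).toNat) j.2) g1
      (n, k) hy hzJ).1).2 (hk y hy)
  obtain ⟨P, hPF, hPiso⟩ := hz x y hyx (hOS.asymm hyz)
  have hIc : Ic (DS μ M lo hi t σ) x y =
      Ic M (lo n k) (hi n k) ∩ Ic (t (2 * n + (σ n).toNat) k) x y :=
    glf_Ic (μ := μ) (T := fun j : ℕ × ℕ => t (2 * j.1 + (σ j.1).toNat) j.2) hLH.os g1
      (n, k) hx hy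
  rw [hIc] at hPiso
  refine hP P ?_ (iso_trans0 hPiso (iso_symm0 ?_))
  · obtain ⟨r', hr', c, x', y', hPe⟩ := hPF
    exact ⟨r', hr'.trans hr, c, x', y', hPe⟩
  · have hq3 := glf_iso (μ := μ) (T := fun j : ℕ × ℕ => t (2 * j.1 + (σ j.1).toNat) j.2) g1 (n, k)
    set Y : Set ℕ := Ic M (lo n k) (hi n k) ∩ Ic (t (2 * n + (σ n).toNat) k) x y with hY
    refine ⟨idOn Y, empty_subset _, ?_, hq3.mono (idOn_mono inter_subset_left),
      fun w hw => ⟨w, idOn_self hw⟩, fun w hw => ⟨w, idOn_self hw⟩⟩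
    rintro ⟨u, v⟩ ⟨h, h'⟩
    simp only at h h'
    subst h
    exact ⟨h', h'⟩

theorem t_DEC2 (hLH : LH μ M lo hi) (hα : Ordinal.omega0 ≤ α) (hT : GoodT μ α M lo hi t)
    (σ : ℕ → Bool) :
    (∀ n, CS (FF μ M lo hi t (2 * n)) (DS μ M lo hi t σ) ⊆ En M lo n) ∧
    (∀ n, σ n = true → CS (FF μ M lo hi t (2 * n + 1)) (DS μ M lo hi t σ) ⊆ En M lo n) := by
  refine ⟨fun n => ?_, fun n hn => ?_⟩
  · exact dec2_key hLH hα hT n (2 * n) (Nat.le_add_right _ _)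
  · refine dec2_key hLH hα hT n (2 * n + 1) ?_
    rw [hn]
    exact le_refl _

theorem code_iff (hLH : LH μ M lo hi) (hα : Ordinal.omega0 ≤ α)
    (ht : GoodT μ α M lo hi t) (σ : ℕ → Bool) (n : ℕ) :
    σ n = true ↔ CS (FF μ M lo hi t (2 * n)) (DS μ M lo hi t σ) =
      CS (FF μ M lo hi t (2 * n + 1)) (DS μ M lo hi t σ) := by
  obtain ⟨ha1, ha2, ha3⟩ := t_DEC1 hLH t σ
  obtain ⟨hb1, hb2⟩ := t_DEC2 hLH hα ht σ
  have h0 : CS (FF μ M lo hi t (2 * n)) (DS μ M lo hi t σ) = En M lo n :=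
    Subset.antisymm (hb1 n) (ha1 n)
  rw [h0]
  constructor
  · intro h
    exact Subset.antisymm (ha2 n) (hb2 n h)
  · intro h
    cases hσ : σ n with
    | true => rfl
    | false =>
      exfalso
      obtain ⟨z, hz1, hz2⟩ := (t_LHF hLH).2.2.2.2.1 n (n + 1) (by omega)
      exact hz2 (h ▸ ha3 n hσ hz1)

/-- sets which depend only on finitely many coordinates are clopen -/
theorem clopen_of_dep {A : Set ℕ} (hA : A.Finite) {X : Set (ℕ → Bool)}
    (h : ∀ σ σ' : ℕ → Bool, (∀ m ∈ A, σ m = σ' m) → (σ ∈ X ↔ σ' ∈ X)) : IsClopen X := by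
  have hop : ∀ Y : Set (ℕ → Bool),
      (∀ σ σ' : ℕ → Bool, (∀ m ∈ A, σ m = σ' m) → (σ ∈ Y ↔ σ' ∈ Y)) → IsOpen Y := by
    intro Y hY
    rw [isOpen_iff_forall_mem_open]
    intro σ hσ
    refine ⟨⋂ m ∈ A, {σ' | σ' m = σ m}, ?_, ?_, ?_⟩
    · intro σ' hσ'
      exact (hY σ σ' fun m hm => (mem_iInter₂.1 hσ' m hm).symm).1 hσ
    · refine hA.isOpen_biInter fun m _ => ?_
      have hc : Continuous fun σ' : ℕ → Bool => σ' m := continuous_apply m
      exact hc.isOpen_preimage {σ m} (isOpen_discrete _)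
    · exact mem_iInter₂.2 fun m _ => rfl
  refine ⟨⟨hop Xᶜ fun σ σ' hσ => not_congr (h σ σ' hσ)⟩, hop X h⟩

theorem t_CODE {K : Set SM} (hG : G μ α K) (hM : M ∈ K) (hLH : LH μ M lo hi)
    (hns : ∀ n k, ¬ Small μ α M (lo n k) (hi n k)) : False := by
  obtain ⟨t, ht⟩ := t_SEQ hLH hG.om hns
  have hdisj := (t_LHF hLH).1
  refine hG.few ⟨fun σ => DS μ M lo hi t σ, ?_, fun σ => ?_, fun c d hcd => ?_⟩
  · -- continuity
    have hdep : ∀ x y : ℕ, ∃ A : Set ℕ, A.Finite ∧ ∀ σ σ' : ℕ → Bool,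
        (∀ m ∈ A, σ m = σ' m) →
        (Adj (DS μ M lo hi t σ) x y ↔ Adj (DS μ M lo hi t σ') x y) ∧
        (lt (DS μ M lo hi t σ).2 x y ↔ lt (DS μ M lo hi t σ').2 x y) ∧
        (∀ s, (ac (DS μ M lo hi t σ).2 s x y ↔ ac (DS μ M lo hi t σ').2 s x y)) ∧
        (∀ k, (co (DS μ M lo hi t σ).2 k x ↔ co (DS μ M lo hi t σ').2 k x)) := by
      intro x y
      have hone : ∀ x : ℕ, {m | ∃ k, x ∈ Ic M (lo m k) (hi m k)}.Finite := by
        intro x
        refine Set.Subsingleton.finite ?_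
        rintro m ⟨k, hk⟩ m' ⟨k', hk'⟩
        by_contra hne
        exact Set.disjoint_left.1 (hdisj (m, k) (m', k') fun h => hne (congrArg Prod.fst h)) hk hk'
      refine ⟨{m | ∃ k, x ∈ Ic M (lo m k) (hi m k)} ∪ {m | ∃ k, y ∈ Ic M (lo m k) (hi m k)},
        (hone x).union (hone y), fun σ σ' hσ => ?_⟩
      refine RD_congr fun j hj => ?_
      have h1 : σ j.1 = σ' j.1 := by
        refine hσ j.1 ?_
        rcases hj with hj | hj
        · exact Or.inl ⟨j.2, hj⟩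
        · exact Or.inr ⟨j.2, hj⟩
      rw [h1]
    refine Continuous.prodMk ?_ ?_
    · refine continuous_pi fun x => continuous_pi fun y => ?_
      obtain ⟨A, hA, h1⟩ := hdep x y
      have h2 : IsClopen {σ | (DS μ M lo hi t σ).1 x y = true} :=
        clopen_of_dep hA fun σ σ' hσ => (h1 σ σ' hσ).1
      have hc : Continuous fun σ => (DS μ M lo hi t σ).1 x y := ?_
      · exact hc
      refine continuous_discrete_rng.2 fun b => ?_
      cases b with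
      | true => exact h2.2
      | false =>
        have e : (fun σ => (DS μ M lo hi t σ).1 x y) ⁻¹' {false} =
            {σ | (DS μ M lo hi t σ).1 x y = true}ᶜ := by
          ext σ
          simp
        rw [e]
        exact h2.1.isOpen_compl
    · refine Pool.Agent.Y560.TG.cont_into ?_ ?_ ?_
      · intro x y
        obtain ⟨A, hA, h1⟩ := hdep x y
        exact clopen_of_dep hA fun σ σ' hσ => (h1 σ σ' hσ).2.1
      · intro n x y
        obtain ⟨A, hA, h1⟩ := hdep x y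
        exact clopen_of_dep hA fun σ σ' hσ => (h1 σ σ' hσ).2.2.1 n
      · intro n x
        obtain ⟨A, hA, h1⟩ := hdep x x
        exact clopen_of_dep hA fun σ σ' hσ => (h1 σ σ' hσ).2.2.2 n
  · exact hG.closed M hM _ (t_GLB (code_GA hLH ht σ))
  · funext n
    have hc := code_iff hLH hG.om ht c n
    have hd := code_iff hLH hG.om ht d n
    have hiff : c n = true ↔ d n = true := by
      rw [hc, hd]
      exact ⟨t_CSI ar _ _ _ _ hcd, t_CSI ar _ _ _ _ (iso_symm0 hcd)⟩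
    exact Bool.eq_iff_iff.2 hiff

end dec

end Pool.Agent.N643.AX
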