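import Pool.Agent.N643.AX.CaseB

set_option autoImplicit false

/-!
# Gluing along closed cuts

The colours across a closed cut are determined by the two sides together with one base point.
-/

namespace Pool.Agent.N643.AX

open Set
open Pool.Agent.H899R2.VP
open Pool.Agent.H533R2.VO (Ic Ge Le Gt Lt Lev Lw Uw Lx NoLast Mt Cls Cl Rk Rr Bg rev revS resBF
  resIso resGe resLe resGt resLt resIc resIsoLt resIsoIc resIsoGe bf_id bf_comp0 bf_comp1 bf_comp2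
  bf_symm0 bf_symm1 bf_symm2 iso_symm0 iso_trans0 iso_refl0 bf_mem_right bf_mem_left mem_Ic mem_Ge
  mem_Le Lw_ge mem_Lx canpi canpi_mem canpi_le canpi_iff)
open Pool.Agent.H566P (ar R2 v2 lt ac co mk)

variable {μ : Par} {S : Set (SM × Set ℕ)} {l m n k o : Ordinal.{0}} {M M' : SM}
  {u u' x x' y y' v v' : ℕ} {φ : Set (ℕ × ℕ)} {A B A' B' C X Y : Set ℕ}

/-- the colours of `(x, z)` for cofinally many `z ∈ X` -/
def Cf (M : SM) (X : Set ℕ) (x : ℕ) : Set ℕ :=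
  {s | ∀ y ∈ X, ∃ z ∈ X, Adj M x z ∧ ¬ Adj M z y ∧ cl M x z = s}

/-- `A` and `B` lie on the two sides of a cut, `v` is a common base point. -/
structure Cut (μ : Par) (M : SM) (v : ℕ) (A B : Set ℕ) : Prop where
  vA : v ∈ A
  vB : v ∈ B
  le : ∀ x ∈ A, ¬ Adj M x v
  lt : ∀ x ∈ A, ∀ z ∈ B, z ≠ v → Adj M x z
  mem : ∀ x ∈ A, ∀ z ∈ B, z ≠ v → cl M x z ∈ Cf M A x
  inj : ∀ x ∈ A, Adj M v x → ∀ s ∈ Cf M A x, ∀ t ∈ Cf M A x,
    μ.m (cl M v x) s = μ.m (cl M v x) t → s = t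

theorem Cf_sub_of_bf (hM : AC μ M) (hM' : AC μ M') {p : Set (ℕ × ℕ)}
    (hb : BF M M' X Y (Order.succ (Order.succ o)) p) (hx : (x, x') ∈ p) :
    Cf M X x ⊆ Cf M' Y x' := by
  intro s hs y' hy'
  obtain ⟨y, hy, hb1⟩ := hb.back (Order.lt_succ _) hy'
  obtain ⟨z, hz, h1, h2, h3⟩ := hs y hy
  obtain ⟨z', hz', hb2⟩ := hb1.forth (Order.lt_succ _) hz
  have mx : (x, x') ∈ insert (z, z') (insert (y, y') p) := Or.inr (Or.inr hx)
  have my : (y, y') ∈ insert (z, z') (insert (y, y') p) := Or.inr (Or.inl rfl)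
  have mz : (z, z') ∈ insert (z, z') (insert (y, y') p) := Or.inl rfl
  refine ⟨z', hz', (hb2.piso.adj mx mz).1 h1, fun h => h2 ((hb2.piso.adj mz my).2 h), ?_⟩
  rw [← piso_cl hM hM' hb2.piso mx mz h1]
  exact h3

theorem Cf_bf (hM : AC μ M) (hM' : AC μ M') {p : Set (ℕ × ℕ)}
    (hb : BF M M' X Y (Order.succ (Order.succ o)) p) (hx : (x, x') ∈ p) :
    Cf M X x = Cf M' Y x' :=
  Subset.antisymm (Cf_sub_of_bf hM hM' hb hx)
    (Cf_sub_of_bf hM' hM hb.symm (p := inv p) (mem_inv'.2 hx))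

theorem Cf_tail_sub (hM : AC μ M) {c : ℕ} (hcX : c ∈ X)
    (h : ∀ z, ¬ Adj M z c → (z ∈ X ↔ z ∈ Y)) : Cf M X x ⊆ Cf M Y x := by
  intro s hs y hy
  by_cases hyc : Adj M y c
  · obtain ⟨z, hz, h1, h2, h3⟩ := hs c hcX
    exact ⟨z, (h z h2).1 hz, h1, hM.le_trans (hM.asymm hyc) h2, h3⟩
  · obtain ⟨z, hz, h1, h2, h3⟩ := hs y ((h y hyc).2 hy)
    exact ⟨z, (h z (hM.le_trans hyc h2)).1 hz, h1, h2, h3⟩

theorem Cf_tail (hM : AC μ M) {c : ℕ} (hcX : c ∈ X)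
    (h : ∀ z, ¬ Adj M z c → (z ∈ X ↔ z ∈ Y)) : Cf M X x = Cf M Y x :=
  Subset.antisymm (Cf_tail_sub hM hcX h)
    (Cf_tail_sub hM ((h c (hM.irr c)).1 hcX) fun z hz => (h z hz).symm)

theorem cutPIso (hM : AC μ M) (hM' : AC μ M') (h : Cut μ M v A B) (h' : Cut μ M' v' A' B')
    {p1 p2 : Set (ℕ × ℕ)} (hp1 : p1 ⊆ A ×ˢ A') (hp2 : p2 ⊆ B ×ˢ B') (hv1 : (v, v') ∈ p1)
    (hv2 : (v, v') ∈ p2) (hc : ∀ w ∈ p1, Cf M A w.1 = Cf M' A' w.2)
    (i1 : PIso M M' p1) (i2 : PIso M M' p2) : PIso M M' (p1 ∪ p2) := by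
  -- pairs in different parts
  have hX : ∀ a ∈ p1, ∀ b ∈ p2, (Adj M a.1 b.1 ↔ Adj M' a.2 b.2) ∧
      (Adj M b.1 a.1 ↔ Adj M' b.2 a.2) ∧ (¬ Adj M b.1 a.1 → cl M a.1 b.1 = cl M' a.2 b.2) ∧
      (¬ Adj M a.1 b.1 → cl M b.1 a.1 = cl M' b.2 a.2) := by
    intro a ha b hb
    by_cases hbv : b.1 = v
    · have hb1 : b ∈ p1 := by
        have h2 : b.2 = v' := i2.snd_eq (x := b.1) (x' := b.2) hb hv2 hbv
        have h3 : b = (v, v') := Prod.ext hbv h2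
        rw [h3]
        exact hv1
      exact ⟨i1.adj (x := a.1) (x' := a.2) (y := b.1) (y' := b.2) ha hb1,
        i1.adj (x := b.1) (x' := b.2) (y := a.1) (y' := a.2) hb1 ha,
        fun h7 => piso_cl' hM hM' i1 (x := a.1) (x' := a.2) (y := b.1) (y' := b.2) ha hb1,
        fun h7 => piso_cl' hM hM' i1 (x := b.1) (x' := b.2) (y := a.1) (y' := a.2) hb1 ha⟩
    · have hbv' : b.2 ≠ v' := fun h2 => hbv (i2.fst_eq (x := b.1) (x' := b.2) hb hv2 h2)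
      have a1 : Adj M a.1 b.1 := h.lt _ (hp1 ha).1 _ (hp2 hb).1 hbv
      have a2 : Adj M' a.2 b.2 := h'.lt _ (hp1 ha).2 _ (hp2 hb).2 hbv'
      refine ⟨⟨fun _ => a2, fun _ => a1⟩, ⟨fun h7 => absurd h7 (hM.asymm a1),
        fun h7 => absurd h7 (hM'.asymm a2)⟩, fun _ => ?_, fun h7 => absurd a1 h7⟩
      have e1 : cl M v a.1 = cl M' v' a.2 := piso_cl' hM hM' i1 hv1 (y := a.1) (y' := a.2) ha
      have e2 : cl M v b.1 = cl M' v' b.2 :=
        piso_cl' hM hM' i2 hv2 (y := b.1) (y' := b.2) hb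
      by_cases l1 : Adj M v a.1
      swap
      · have l2 : ¬ Adj M' v' a.2 := fun h7 =>
          l1 ((i1.adj (y := a.1) (y' := a.2) hv1 ha).2 h7)
        rw [hM.bu a.1 v b.1 (h.le _ (hp1 ha).1) l1 (hM.le_lt (h.le _ (hp1 ha).1) a1),
          hM'.bu a.2 v' b.2 (h'.le _ (hp1 ha).2) l2 (hM'.le_lt (h'.le _ (hp1 ha).2) a2), e1, e2,
          piso_cl' hM hM' i1 (x := a.1) (x' := a.2) ha hv1]
      · have l2 : Adj M' v' a.2 := (i1.adj (y := a.1) (y' := a.2) hv1 ha).1 l1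
        refine h.inj a.1 (hp1 ha).1 l1 _ (h.mem _ (hp1 ha).1 _ (hp2 hb).1 hbv) _ ?_ ?_
        · rw [hc a ha]
          exact h'.mem _ (hp1 ha).2 _ (hp2 hb).2 hbv'
        · rw [← hM.mul _ _ _ l1 a1, e1, ← hM'.mul _ _ _ l2 a2, e2]
  refine (piso_iff hM hM').2 ⟨?_, ?_, ?_⟩
  · rintro a (ha | ha) b (hb | hb)
    · exact i1.adj (x := a.1) (x' := a.2) (y := b.1) (y' := b.2) ha hb
    · exact (hX a ha b hb).1
    · exact (hX b hb a ha).2.1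
    · exact i2.adj (x := a.1) (x' := a.2) (y := b.1) (y' := b.2) ha hb
  · rintro a (ha | ha) b (hb | hb) hab
    · exact piso_cl' hM hM' i1 (x := a.1) (x' := a.2) (y := b.1) (y' := b.2) ha hb
    · exact (hX a ha b hb).2.2.1 hab
    · exact (hX b hb a ha).2.2.2 hab
    · exact piso_cl' hM hM' i2 (x := a.1) (x' := a.2) (y := b.1) (y' := b.2) ha hb
  · rintro k a (ha | ha)
    · exact ((piso_iff hM hM').1 i1).2.2 k a ha
    · exact ((piso_iff hM hM').1 i2).2.2 k a ha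

theorem cutBF (hM : AC μ M) (hM' : AC μ M') (h : Cut μ M v A B) (h' : Cut μ M' v' A' B')
    {p1 p2 : Set (ℕ × ℕ)} (hp1 : p1 ⊆ A ×ˢ A') (hp2 : p2 ⊆ B ×ˢ B') (hv1 : (v, v') ∈ p1)
    (hv2 : (v, v') ∈ p2) (i1 : BF M M' A A' (Order.succ (Order.succ o)) p1)
    (i2 : BF M M' B B' o p2) : BF M M' (A ∪ B) (A' ∪ B') o (p1 ∪ p2) := by
  induction o using WellFoundedLT.induction generalizing p1 p2 with
  | ind o ih =>
    rw [BF_iff]
    have hc : ∀ w ∈ p1, Cf M A w.1 = Cf M' A' w.2 := fun w hw =>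
      Cf_bf hM hM' i1 (x := w.1) (x' := w.2) hw
    refine ⟨cutPIso hM hM' h h' hp1 hp2 hv1 hv2 hc i1.piso i2.piso,
      fun o' ho' => ⟨fun x hx => ?_, fun y hy => ?_⟩⟩
    · rcases hx with hx | hx
      · obtain ⟨y, hy, hb⟩ := i1.forth (Order.succ_lt_succ (Order.succ_lt_succ ho')) hx
        refine ⟨y, Or.inl hy, ?_⟩
        rw [← insert_union]
        exact ih o' ho' (insert_subset ⟨hx, hy⟩ hp1) hp2 (Or.inr hv1) hv2 hb (i2.mono ho'.le)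
      · obtain ⟨y, hy, hb⟩ := i2.forth ho' hx
        refine ⟨y, Or.inr hy, ?_⟩
        rw [← union_insert]
        exact ih o' ho' hp1 (insert_subset ⟨hx, hy⟩ hp2) hv1 (Or.inr hv2)
          (i1.mono (Order.succ_lt_succ (Order.succ_lt_succ ho')).le) hb
    · rcases hy with hy | hy
      · obtain ⟨x, hx, hb⟩ := i1.back (Order.succ_lt_succ (Order.succ_lt_succ ho')) hy
        refine ⟨x, Or.inl hx, ?_⟩
        rw [← insert_union]
        exact ih o' ho' (insert_subset ⟨hx, hy⟩ hp1) hp2 (Or.inr hv1) hv2 hb (i2.mono ho'.le)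
      · obtain ⟨x, hx, hb⟩ := i2.back ho' hy
        refine ⟨x, Or.inr hx, ?_⟩
        rw [← union_insert]
        exact ih o' ho' hp1 (insert_subset ⟨hx, hy⟩ hp2) hv1 (Or.inr hv2)
          (i1.mono (Order.succ_lt_succ (Order.succ_lt_succ ho')).le) hb

/-- the colours at closed initial segments -/
theorem cls_Cf (hS : Fam μ S) (hM : AC μ M) (hC : Cls S M u m C)
    (hm : Order.succ (Order.succ o) ≤ m) (hx : x ∈ C) {c : ℕ} (hc : c ∈ C)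
    (hA1 : c ∈ A) (hA2 : ∀ z, ¬ Adj M z c → (z ∈ A ↔ z ∈ C)) :
    Cf M A x = Cf M (Lw S M u) x := by
  have h1 : Cf M A x = Cf M C x := Cf_tail hM hA1 hA2
  have h2 : Cf M C x = Cf M (C ∩ Ge M x) x :=
    Cf_tail hM hx fun z hz => ⟨fun h => ⟨h, hz⟩, fun h => h.1⟩
  have h3 : Cf M (Lx S M u x) x = Cf M (C ∩ Ge M x) x :=
    Cf_bf hM hM ((t_CLS hS hM hC m le_rfl x hx).mono hm) rfl
  have h4 : Cf M (Lw S M u) x = Cf M (Lx S M u x) x :=
    Cf_tail hM (hC.sub hx) fun z hz => ⟨fun h => ⟨h, hz⟩, fun h => h.1⟩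
  rw [h1, h2, ← h3, ← h4]

theorem cls_lt (hC : Cls S M u m C) {x y : ℕ} (hx : x ∈ C)
    (hy : y ∈ Lw S M u) (hy' : y ∉ C) : Adj M x y := by
  by_contra h
  exact hy' (hC.init x hx y hy h)

theorem cls_mem (hM : AC μ M) (hC : Cls S M u m C) (hm : 0 < m) (hx : x ∈ C) {z : ℕ}
    (hz : z ∈ Lw S M u) (hzC : z ∉ C) : cl M x z ∈ Cf M C x := by
  intro y hy
  obtain ⟨y1, hy1, h1, h2⟩ : ∃ y1 ∈ C, ¬ Adj M y1 x ∧ ¬ Adj M y1 y := by
    by_cases hxy : Adj M x y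
    · exact ⟨y, hy, hM.asymm hxy, hM.irr y⟩
    · exact ⟨x, hx, hM.irr x, hxy⟩
  have h3 : Adj M y1 z := cls_lt hC hy1 hz hzC
  obtain ⟨b, hb, hby, hbf⟩ := hC.cl y1 hy1 0 hm z ⟨hz, hM.asymm h3⟩
  have my : (y1, y1) ∈ ({(y1, y1), (z, b)} : Set (ℕ × ℕ)) := Or.inl rfl
  have mb : (z, b) ∈ ({(y1, y1), (z, b)} : Set (ℕ × ℕ)) := Or.inr rfl
  have h4 : Adj M y1 b := (hbf.piso.adj my mb).1 h3
  have h5 : cl M y1 z = cl M y1 b := piso_cl hM hM hbf.piso my mb h3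
  refine ⟨b, hb, hM.le_lt h1 h4, hM.le_trans h2 hby, ?_⟩
  by_cases h7 : Adj M x y1
  · rw [hM.mul _ _ _ h7 h4, hM.mul _ _ _ h7 h3, h5]
  · rw [hM.bu x y1 _ h7 h1 h4, hM.bu x y1 _ h7 h1 h3, h5]

/-- the base point is stable -/
def Sb (μ : Par) (S : Set (SM × Set ℕ)) (M : SM) (u v : ℕ) : Prop :=
  ∀ x ∈ Lw S M u, Adj M v x → ∀ s ∈ Cf M (Lw S M u) x, ∀ t ∈ Cf M (Lw S M u) x,
    μ.m (cl M v x) s = μ.m (cl M v x) t → s = t

theorem mk_cut (hS : Fam μ S) (hM : AC μ M) (hC : Cls S M u m C)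
    (hm : Order.succ (Order.succ o) ≤ m) (hv : v ∈ C) (hs : Sb μ S M u v) {c : ℕ} (hc : c ∈ C)
    (hvc : ¬ Adj M c v) {B : Set ℕ} (hB1 : v ∈ B) (hB2 : B ⊆ insert v (Lw S M u \ C)) :
    Cut μ M v (insert v (C ∩ Ge M c)) B := by
  have hm0 : 0 < m := lt_of_lt_of_le (Order.bot_lt_succ _) hm
  have hAC : insert v (C ∩ Ge M c) ⊆ C := by
    rintro z (rfl | hz)
    · exact hv
    · exact hz.1
  have hcA : c ∈ insert v (C ∩ Ge M c) := Or.inr ⟨hc, hM.irr c⟩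
  have hA2 : ∀ z, ¬ Adj M z c → (z ∈ insert v (C ∩ Ge M c) ↔ z ∈ C) :=
    fun z hz => ⟨fun h => hAC h, fun h => Or.inr ⟨h, hz⟩⟩
  have hB3 : ∀ z ∈ B, z ≠ v → z ∈ Lw S M u ∧ z ∉ C := by
    intro z hz hne
    rcases hB2 hz with h | h
    · exact absurd h hne
    · exact h
  refine ⟨Or.inl rfl, hB1, ?_, ?_, ?_, ?_⟩
  · rintro z (rfl | hz)
    · exact hM.irr z
    · exact hM.le_trans hvc hz.2
  · intro x hx z hz hne
    exact cls_lt hC (hAC hx) (hB3 z hz hne).1 (hB3 z hz hne).2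
  · intro x hx z hz hne
    rw [Cf_tail hM hcA hA2]
    exact cls_mem hM hC hm0 (hAC hx) (hB3 z hz hne).1 (hB3 z hz hne).2
  · intro x hx hvx s hs1 t ht1 heq
    rw [cls_Cf hS hM hC hm (hAC hx) hc hcA hA2] at hs1 ht1
    exact hs x (hC.sub (hAC hx)) hvx s hs1 t ht1 heq

/-- all colours occur below the first closed cut -/
theorem cls_fin (hM : AC μ M) (hC : Cls S M u m C) (hm : Order.succ (Order.succ o) ≤ m)
    (hu : u ∈ C) : {s | ∃ x ∈ Lw S M u, ∃ z ∈ Lw S M u, Adj M x z ∧ cl M x z = s}.Finite := by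
  obtain ⟨e, he, heC⟩ := hC.bdd
  refine (hM.fin u e).subset ?_
  rintro s ⟨x, hx, z, hz, hxz, rfl⟩
  have hm0 : 0 < m := lt_of_lt_of_le (Order.bot_lt_succ _) hm
  have hm1 : Order.succ o < m := lt_of_lt_of_le (Order.lt_succ _) hm
  obtain ⟨x1, hx1, hx1u, hb1⟩ := hC.cl u hu (Order.succ o) hm1 x ⟨hx, hx.1⟩
  obtain ⟨z1, hz1, hb2⟩ := hb1.forth (Order.lt_succ o) (x := z) ⟨hz, hz.1⟩
  have mx : (x, x1) ∈ (insert (z, z1) {(u, u), (x, x1)} : Set (ℕ × ℕ)) := Or.inr (Or.inr rfl)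
  have mz : (z, z1) ∈ (insert (z, z1) {(u, u), (x, x1)} : Set (ℕ × ℕ)) := Or.inl rfl
  have h1 : Adj M x1 z1 := (hb2.piso.adj mx mz).1 hxz
  have h2 : cl M x z = cl M x1 z1 := piso_cl hM hM hb2.piso mx mz hxz
  obtain ⟨b, hb, hbx, hbf⟩ := hC.cl x1 hx1 0 hm0 z1 ⟨hz1.1, hM.asymm h1⟩
  have nx : (x1, x1) ∈ ({(x1, x1), (z1, b)} : Set (ℕ × ℕ)) := Or.inl rfl
  have nb : (z1, b) ∈ ({(x1, x1), (z1, b)} : Set (ℕ × ℕ)) := Or.inr rfl
  have h3 : Adj M x1 b := (hbf.piso.adj nx nb).1 h1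
  have h4 : cl M x1 z1 = cl M x1 b := piso_cl hM hM hbf.piso nx nb h1
  exact ⟨x1, b, (hC.sub hx1).1, hM.asymm h3, hM.asymm (cls_lt hC hb he heC), by rw [h2, h4]⟩

/-- upper bounds -/
theorem fin_ub (hM : AC μ M) {L : Set ℕ} (hL : L.Nonempty) (f : ℕ → ℕ) (F : Set ℕ)
    (hF : F.Finite) (hf : ∀ t ∈ F, f t ∈ L) : ∃ y ∈ L, ∀ t ∈ F, ¬ Adj M y (f t) := by
  induction F, hF using Set.Finite.induction_on with
  | empty =>
    obtain ⟨y, hy⟩ := hL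
    exact ⟨y, hy, fun t ht => absurd ht (notMem_empty t)⟩
  | insert _ _ ih =>
    rename_i t0 F _ _
    obtain ⟨y, hy, hy2⟩ := ih fun t ht => hf t (Or.inr ht)
    by_cases h : Adj M y (f t0)
    · refine ⟨f t0, hf t0 (Or.inl rfl), ?_⟩
      rintro t (rfl | ht)
      · exact hM.irr _
      · exact hM.le_trans (hy2 t ht) (hM.asymm h)
    · refine ⟨y, hy, ?_⟩
      rintro t (rfl | ht)
      · exact h
      · exact hy2 t ht

/-- a stable base point exists -/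
theorem exists_sb (hM : AC μ M) (hNL : NoLast M (Lw S M u)) (hu : u ∈ Lw S M u)
    (hC : ∃ C, Cls S M u m C ∧ u ∈ C) (hm : Order.succ (Order.succ o) ≤ m) :
    ∃ v ∈ Lw S M u, Sb μ S M u v := by
  obtain ⟨C, hC, huC⟩ := hC
  have hF := cls_fin hM hC hm huC
  set F : Set ℕ := {s | ∃ x ∈ Lw S M u, ∃ z ∈ Lw S M u, Adj M x z ∧ cl M x z = s} with hFd
  have hCf : ∀ x ∈ Lw S M u, Cf M (Lw S M u) x ⊆ F := by
    intro x hx s hs
    obtain ⟨z, hz, h1, -, h2⟩ := hs x hx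
    exact ⟨x, hx, z, hz, h1, h2⟩
  have hle : ∀ x ∈ Lw S M u, (Cf M (Lw S M u) x).ncard ≤ F.ncard := fun x hx =>
    Set.ncard_le_ncard (hCf x hx) hF
  -- a base point with the maximal number of cofinal colours
  obtain ⟨v, hv, hmax⟩ : ∃ v ∈ Lw S M u, ∀ x ∈ Lw S M u,
      (Cf M (Lw S M u) x).ncard ≤ (Cf M (Lw S M u) v).ncard := by
    classical
    have hex : ∃ d, ∃ v ∈ Lw S M u, (Cf M (Lw S M u) v).ncard + d = F.ncard := by
      refine ⟨F.ncard - (Cf M (Lw S M u) u).ncard, u, hu, ?_⟩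
      have := hle u hu
      omega
    obtain ⟨v, hv, hd⟩ := Nat.find_spec hex
    refine ⟨v, hv, fun x hx => ?_⟩
    by_contra hcon
    push Not at hcon
    have h1 := hle x hx
    have h2 := Nat.find_min' hex ⟨x, hx, Nat.add_sub_of_le h1⟩
    omega
  refine ⟨v, hv, fun x hx hvx => ?_⟩
  have himg : Cf M (Lw S M u) v ⊆ (μ.m (cl M v x)) '' Cf M (Lw S M u) x := by
    intro s hs
    by_contra hcon
    have hno : ∀ t, ∃ y, t ∈ F → y ∈ Lw S M u ∧ ∀ z ∈ Lw S M u, Adj M x z → ¬ Adj M z y →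
        cl M v z = s → cl M x z ≠ t := by
      intro t
      by_contra h1
      push Not at h1
      have htF : t ∈ F := (h1 0).1
      apply hcon
      refine ⟨t, fun y hy => ?_, ?_⟩
      · obtain ⟨z, hz, h3, h4, h5, h6⟩ := (h1 y).2 hy
        exact ⟨z, hz, h3, h4, h6⟩
      · obtain ⟨z, hz, h3, h4, h5, h6⟩ := (h1 x).2 hx
        rw [← h6, ← hM.mul _ _ _ hvx h3, h5]
    choose f hf using hno
    obtain ⟨y, hy, hy2⟩ := fin_ub hM ⟨u, hu⟩ f F hF fun t ht => (hf t ht).1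
    obtain ⟨y0, hy0, hy0x, hy0y⟩ : ∃ y0 ∈ Lw S M u, Adj M x y0 ∧ ¬ Adj M y0 y := by
      by_cases h : Adj M x y
      · exact ⟨y, hy, h, hM.irr y⟩
      · obtain ⟨y0, h1, h2⟩ := hNL x hx
        exact ⟨y0, h1, h2, hM.asymm (hM.le_lt h h2)⟩
    obtain ⟨z, hz, h1, h2, h3⟩ := hs y0 hy0
    have hxz : Adj M x z := hM.lt_le hy0x h2
    have htF : cl M x z ∈ F := ⟨x, hx, z, hz, hxz, rfl⟩
    exact (hf _ htF).2 z hz hxz (hM.le_trans (hM.le_trans (hy2 _ htF) hy0y) h2) h3 rfl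
  have hfin : (Cf M (Lw S M u) x).Finite := hF.subset (hCf x hx)
  have hcard : ((μ.m (cl M v x)) '' Cf M (Lw S M u) x).ncard = (Cf M (Lw S M u) x).ncard := by
    refine le_antisymm (Set.ncard_image_le hfin) ?_
    exact (hmax x hx).trans (Set.ncard_le_ncard himg (hfin.image _))
  have hinj := Set.injOn_of_ncard_image_eq hcard hfin
  exact fun s hs t ht heq => hinj hs ht heq

/-- stability is preserved -/
theorem Sb.transfer (hM : AC μ M) (hM' : AC μ M') (hs : Sb μ S M u v)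
    {p : Set (ℕ × ℕ)} (hv : (v, v') ∈ p)
    (hb : BF M M' (Lw S M u) (Lw S M' u') (Order.succ (Order.succ (Order.succ o))) p) :
    Sb μ S M' u' v' := by
  intro x' hx' hvx' s hs' t ht' heq
  obtain ⟨x, hx, hb1⟩ := hb.back (Order.lt_succ _) hx'
  have mx : (x, x') ∈ insert (x, x') p := Or.inl rfl
  have mv : (v, v') ∈ insert (x, x') p := Or.inr hv
  have e1 := Cf_bf hM hM' hb1 mx
  have hvx : Adj M v x := (hb1.piso.adj mv mx).2 hvx'
  rw [← e1] at hs' ht'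
  rw [← piso_cl hM hM' hb1.piso mv mx hvx] at heq
  exact hs x hx hvx s hs' t ht' heq

end Pool.Agent.N643.AX
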