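import Pool.Agent.N643.AX.Sim

set_option autoImplicit false

/-!
# The final gluing and the base family
-/

namespace Pool.Agent.N643.AX

open Set
open Pool.Agent.H899R2.VP
open Pool.Agent.H533R2.VO (Ic Ge Le Gt Lt Lev Lw Uw Lx NoLast Mt Cls Cl Rk Rr Bg rev revS resBF
  resIso resGe resLe resGt resLt resIc resIsoLt resIsoIc resIsoGe bf_id bf_comp0 bf_comp1 bf_comp2
  bf_symm0 bf_symm1 bf_symm2 iso_symm0 iso_trans0 iso_refl0 bf_mem_right bf_mem_left mem_Ic mem_Ge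
  mem_Le Lw_ge mem_Lx rev_iso rev_bf rev_Ic rev_cont rev_Lw cnt_countable)
open Pool.Agent.H566P (ar R2 v2 lt ac co mk)

variable {μ : Par} {α : Ordinal.{0}} {K : Set SM} {S : Set (SM × Set ℕ)} {M N : SM}
  {x y z w x' y' : ℕ}

theorem end_ge (h0 : ∀ x, (M, Ic M x x) ∈ S) (hM : AC μ M)
    (h : ∀ x, Adj M 0 x → (M, Ic M 0 x) ∈ S) : Lw S M 0 = Ge M 0 := by
  ext x
  constructor
  · exact fun hx => hx.1
  · intro hx
    refine ⟨hx, ?_⟩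
    by_cases hx' : Adj M 0 x
    · exact h x hx'
    · have e : Ic M 0 x = Ic M 0 0 := by
        ext z
        show (¬ Adj M z 0 ∧ ¬ Adj M x z) ↔ (¬ Adj M z 0 ∧ ¬ Adj M 0 z)
        rw [hM.blk_r hx hx' z]
      rw [e]
      exact h0 0

theorem end_le (h0 : ∀ x, (M, Ic M x x) ∈ S) (hM : AC μ M)
    (h : ∀ x, Adj M x 0 → (M, Ic M x 0) ∈ S) : Uw S M 0 = Le M 0 := by
  ext x
  constructor
  · exact fun hx => hx.1
  · intro hx
    refine ⟨hx, ?_⟩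
    by_cases hx' : Adj M x 0
    · exact h x hx'
    · have e : Ic M x 0 = Ic M 0 0 := by
        ext z
        show (¬ Adj M z x ∧ ¬ Adj M 0 z) ↔ (¬ Adj M z 0 ∧ ¬ Adj M 0 z)
        rw [hM.blk_l hx' hx z]
      rw [e]
      exact h0 0

theorem end_glue (hM : AC μ M) (hN : AC μ N)
    (k1 : IsoOn M N (Ge M 0) (Ge N 0) {(0, 0)}) (k2 : IsoOn M N (Le M 0) (Le N 0) {(0, 0)}) :
    IsoOn M N univ univ ∅ := by
  refine IsoOn.mono (q := {(0, 0)}) (glueIso hM hN (y := 0) (y' := 0) (mem_univ _) rfl ?_ ?_)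
    (empty_subset _)
  · rw [univ_inter, univ_inter]
    exact k2.mono fun u hu => hu.1
  · rw [univ_inter, univ_inter]
    exact k1.mono fun u hu => hu.1

theorem iso_mark {X Y : Set ℕ} (h : IsoOn M N X Y ∅) (hy : y ∈ Y) :
    ∃ a, IsoOn M N X Y {(a, y)} := by
  obtain ⟨q, -, hq2, hq3, hq4, hq5⟩ := h
  obtain ⟨a, ha⟩ := hq5 y hy
  exact ⟨a, q, singleton_subset_iff.2 ha, hq2, hq3, hq4, hq5⟩

theorem iso_marked {L : SM} {X Y Z : Set ℕ} {a : ℕ} (h : IsoOn L M X Y {(a, x)})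
    (h' : IsoOn L N X Z {(a, y)}) : IsoOn M N Y Z {(x, y)} := by
  refine (h.symm.trans h').mono ?_
  rintro u rfl
  exact ⟨a, rfl, rfl⟩

theorem t_END (hG : G μ α K) (hS : Fam μ S) (hb : ∀ M ∈ K, ∀ x, (M, Ic M x x) ∈ S)
    (hall : ∀ M ∈ K, ∀ x y, Adj M x y → (M, Ic M x y) ∈ S) :
    ∃ f : ℕ → SM, ∀ M ∈ K, ∃ n, IsoOn (f n) M univ univ ∅ := by
  obtain ⟨f, hf⟩ := t_TOWC hG hS hb
  obtain ⟨g, hg⟩ := t_TOWR hG hS hb
  classical
  let P : (ℕ × ℕ) × (ℕ × ℕ) → SM → Prop := fun n M => M ∈ K ∧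
    IsoOn (f n.1.1).1 M (f n.1.1).2 (Ge M 0) {(n.1.2, 0)} ∧
    IsoOn (g n.2.1).1 M (g n.2.1).2 (Le M 0) {(n.2.2, 0)}
  obtain ⟨e, he⟩ := exists_surjective_nat ((ℕ × ℕ) × (ℕ × ℕ))
  refine ⟨fun n => if h : ∃ M, P (e n) M then h.choose else
    (fun _ _ => false, fun _ _ => false), ?_⟩
  intro M hM
  have hos := hG.os M hM
  obtain ⟨i, hi⟩ := hf M hM 0
  obtain ⟨j, hj⟩ := hg M hM 0
  rw [end_ge (hb M hM) hos (fun x hx => hall M hM 0 x hx)] at hi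
  rw [end_le (hb M hM) hos (fun x hx => hall M hM x 0 hx)] at hj
  obtain ⟨a, ha⟩ := iso_mark hi (y := 0) (hos.irr 0)
  obtain ⟨b, hb'⟩ := iso_mark hj (y := 0) (hos.irr 0)
  obtain ⟨n, hn⟩ := he ((i, a), (j, b))
  refine ⟨n, ?_⟩
  have hP : P (e n) M := by
    rw [hn]
    exact ⟨hM, ha, hb'⟩
  have hex : ∃ N, P (e n) N := ⟨M, hP⟩
  simp only [hex, dif_pos]
  obtain ⟨k1, k2, k3⟩ := hex.choose_spec
  exact end_glue (hG.os _ k1) hos (iso_marked k2 hP.2.1) (iso_marked k3 hP.2.2)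

theorem t_BASE (hK : G μ α K) : ∃ S : Set (SM × Set ℕ), Fam μ S ∧
    (∀ M ∈ K, ∀ x, (M, Ic M x x) ∈ S) ∧
    ∀ M ∈ K, ∀ x y, Adj M x y → (M, Ic M x y) ∉ S → ¬ Small μ α M x y := by
  obtain ⟨c, hc⟩ := labels hK.meas hK.few α hK.lt
  obtain ⟨b, hb⟩ := t_PTS hK
  classical
  -- the choice of the functions
  have hg : ∀ κ : ℕ, ∃ g : ℕ → SM × Set ℕ,
      (∃ M ∈ K, ∃ x y, Adj M x y ∧ c M [x, y] = κ ∧ Small μ α M x y) →
      ∃ M ∈ K, ∃ x y, Adj M x y ∧ c M [x, y] = κ ∧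
        ∀ N : SM, AC μ N → ∀ x' y', ¬ Adj N y' x' →
          BF M N (Ic M x y) (Ic N x' y') α {(x, x'), (y, y')} →
          ∀ c ∈ Ic N x' y', ∀ d ∈ Ic N x' y', ¬ Adj N d c →
          ∃ n, IsoOn (g n).1 N (g n).2 (Ic N c d) ∅ := by
    intro κ
    by_cases h : ∃ M ∈ K, ∃ x y, Adj M x y ∧ c M [x, y] = κ ∧ Small μ α M x y
    · obtain ⟨M, hM, x, y, hxy, hκ, g, hg⟩ := h
      exact ⟨g, fun _ => ⟨M, hM, x, y, hxy, hκ, hg⟩⟩
    · exact ⟨b, fun h' => absurd h' h⟩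
  choose g hg using hg
  obtain ⟨S, hS, hSf⟩ := t_GENF μ (fun n => if n.unpair.1 = 0 then b n.unpair.2
    else g (n.unpair.1 - 1) n.unpair.2)
  have hSb : ∀ n, b n ∈ S := by
    intro n
    have := hSf (Nat.pair 0 n)
    simpa using this
  have hSg : ∀ κ n, g κ n ∈ S := by
    intro κ n
    have := hSf (Nat.pair (κ + 1) n)
    simpa using this
  refine ⟨S, hS, ?_, ?_⟩
  · intro M hM x
    obtain ⟨n, hn⟩ := hb M hM x
    exact hS.iso _ _ _ _ (hSb n) hn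
  · intro M hM x y hxy hnot hsm
    obtain ⟨M0, hM0, x0, y0, hxy0, hκ, hM0g⟩ := hg (c M [x, y]) ⟨M, hM, x, y, hxy, rfl, hsm⟩
    have hbf := hc M0 hM0 M hM [x0, y0] [x, y] rfl hκ
    rw [zipSet_cons, zipSet_cons, zipSet_nil_left, insert_empty_eq] at hbf
    have hb2 := resIc (c := x0) (c' := x) (d := y0) (d' := y) (Or.inl rfl) (Or.inr rfl) hbf
    rw [univ_inter, univ_inter] at hb2
    have hos := hK.os M hM
    have hle : ¬ Adj M y x := hos.asymm hxy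
    obtain ⟨n, hn⟩ := hM0g M hos x y hle hb2 x (left_mem_Ic hos hle) y (right_mem_Ic hos hle) hle
    exact hnot (hS.iso _ _ _ _ (hSg _ n) hn)

end Pool.Agent.N643.AX
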