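import Pool.Agent.N643.AX.Low

set_option autoImplicit false

/-!
# The family generated by countably many pieces; countable levels
-/

namespace Pool.Agent.N643.AX

open Set
open Pool.Agent.H899R2.VP
open Pool.Agent.H533R2.VO (Ic Ge Le Gt Lt Lev Lw Uw Lx NoLast Mt Cls Cl Rk Rr Bg rev revS resBF
  resIso resGe resLe resGt resLt resIc resIsoLt resIsoIc resIsoGe bf_id bf_comp0 bf_comp1 bf_comp2
  bf_symm0 bf_symm1 bf_symm2 iso_symm0 iso_trans0 iso_refl0 bf_mem_right bf_mem_left mem_Ic mem_Ge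
  mem_Le Lw_ge mem_Lx genfCnt genfIso genf_code genf_cnt_iso genf_cnt_union genf_subset_iso
  genf_iso_iso)
open Pool.Agent.H566P (ar R2 v2 lt ac co mk)

variable {μ : Par}

/-- Sub-intervals. -/
def genfSub (μ : Par) (S : Set (SM × Set ℕ)) : Set (SM × Set ℕ) :=
  {P | ∃ (M : SM) (x y x' y' : ℕ), P = (M, Ic M x' y') ∧ AC μ M ∧ (M, Ic M x y) ∈ S ∧
    ¬ Adj M x' x ∧ ¬ Adj M y' x' ∧ ¬ Adj M y y'}

/-- Glued intervals. -/
def genfGlue (μ : Par) (S : Set (SM × Set ℕ)) : Set (SM × Set ℕ) :=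
  {P | ∃ (M : SM) (x y z : ℕ), P = (M, Ic M x z) ∧ AC μ M ∧ ¬ Adj M y x ∧ ¬ Adj M z y ∧
    (M, Ic M x y) ∈ S ∧ (M, Ic M y z) ∈ S}

/-- The stages. -/
def genfS (μ : Par) (f : ℕ → SM × Set ℕ) : ℕ → Set (SM × Set ℕ)
  | 0 => genfIso (range f)
  | k + 1 => genfIso (genfS μ f k ∪ (genfSub μ (genfS μ f k) ∪ genfGlue μ (genfS μ f k)))

theorem genf_Ic_inter {M : SM} (hM : AC μ M) {x y x' y' : ℕ} (h1 : ¬ Adj M x' x)
    (h3 : ¬ Adj M y y') : Ic M x y ∩ Ic M x' y' = Ic M x' y' := by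
  ext z
  constructor
  · exact fun h => h.2
  · exact fun h => ⟨⟨hM.le_trans h1 h.1, hM.le_trans h.2 h3⟩, h⟩

theorem genf_cnt_sub {S : Set (SM × Set ℕ)} (h : genfCnt S) : genfCnt (genfSub μ S) := by
  obtain ⟨g, hg⟩ := h
  refine genf_code (C := ℕ × ℕ × ℕ) (genfSub μ S) (fun c P =>
    IsoOn (g c.1).1 P.1 ((g c.1).2 ∩ Ic (g c.1).1 c.2.1 c.2.2) P.2 ∅) ?_ ?_
  · rintro P ⟨M, x, y, x', y', rfl, hM, hS, h1, h2, h3⟩
    obtain ⟨n, q, hq0, hq1, hq2, hq3, hq4⟩ := hg M _ hS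
    have hx' : x' ∈ Ic M x y := ⟨h1, hM.le_trans h2 h3⟩
    have hy' : y' ∈ Ic M x y := ⟨hM.le_trans h1 h2, h3⟩
    obtain ⟨x1, hx1⟩ := hq4 x' hx'
    obtain ⟨y1, hy1⟩ := hq4 y' hy'
    refine ⟨(n, x1, y1), ?_⟩
    have hb : IsoOn (g n).1 M (g n).2 (Ic M x y) q := ⟨q, Subset.rfl, hq1, hq2, hq3, hq4⟩
    have := resIsoIc hx1 hy1 hb
    rw [genf_Ic_inter hM h1 h3] at this
    exact this.mono (empty_subset _)
  · rintro c P - Q - h1 h2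
    exact iso_trans0 (iso_symm0 h1) h2

theorem Ic_inter_Le {M : SM} (hM : AC μ M) {x y z : ℕ} (h2 : ¬ Adj M z y) :
    Ic M x z ∩ Le M y = Ic M x y := by
  ext w
  constructor
  · exact fun h => ⟨h.1.1, h.2⟩
  · exact fun h => ⟨⟨h.1, hM.le_trans h.2 h2⟩, h.2⟩

theorem Ic_inter_Ge {M : SM} (hM : AC μ M) {x y z : ℕ} (h1 : ¬ Adj M y x) :
    Ic M x z ∩ Ge M y = Ic M y z := by
  ext w
  constructor
  · exact fun h => ⟨h.2, h.1.2⟩
  · exact fun h => ⟨⟨hM.le_trans h1 h.1, h.2⟩, h.1⟩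

theorem genf_cnt_glue {S : Set (SM × Set ℕ)} (h : genfCnt S) : genfCnt (genfGlue μ S) := by
  obtain ⟨g, hg⟩ := h
  refine genf_code (C := (ℕ × ℕ) × ℕ × ℕ) (genfGlue μ S) (fun c P =>
    ∃ (M : SM) (x y z : ℕ), P = (M, Ic M x z) ∧ AC μ M ∧ ¬ Adj M y x ∧ ¬ Adj M z y ∧
      IsoOn (g c.1.1).1 M (g c.1.1).2 (Ic M x y) {(c.1.2, y)} ∧
      IsoOn (g c.2.1).1 M (g c.2.1).2 (Ic M y z) {(c.2.2, y)}) ?_ ?_
  · rintro P ⟨M, x, y, z, rfl, hM, h1, h2, hS, hS'⟩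
    obtain ⟨n, q, hq0, hq1, hq2, hq3, hq4⟩ := hg M _ hS
    obtain ⟨m, r, hr0, hr1, hr2, hr3, hr4⟩ := hg M _ hS'
    obtain ⟨y1, hy1⟩ := hq4 y ⟨h1, hM.irr y⟩
    obtain ⟨y2, hy2⟩ := hr4 y ⟨hM.irr y, h2⟩
    exact ⟨((n, y1), m, y2), M, x, y, z, rfl, hM, h1, h2,
      ⟨q, singleton_subset_iff.2 hy1, hq1, hq2, hq3, hq4⟩,
      ⟨r, singleton_subset_iff.2 hy2, hr1, hr2, hr3, hr4⟩⟩
  · rintro ⟨⟨n, y1⟩, m, y2⟩ P - Q - ⟨M, x, y, z, rfl, hM, h1, h2, i1, i2⟩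
      ⟨M', x', y', z', rfl, hM', h1', h2', i1', i2'⟩
    simp only at i1 i2 i1' i2' ⊢
    have j1 : IsoOn M M' (Ic M x y) (Ic M' x' y') {(y, y')} := by
      refine (i1.symm.trans i1').mono ?_
      rintro u rfl
      exact ⟨y1, rfl, rfl⟩
    have j2 : IsoOn M M' (Ic M y z) (Ic M' y' z') {(y, y')} := by
      refine (i2.symm.trans i2').mono ?_
      rintro u rfl
      exact ⟨y2, rfl, rfl⟩
    refine IsoOn.mono (q := {(y, y')}) (glueIso hM hM' (y := y) (y' := y') ⟨h1, h2⟩ rfl ?_ ?_)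
      (empty_subset _)
    · rw [Ic_inter_Le hM h2, Ic_inter_Le hM' h2']
      exact j1.mono fun u hu => hu.1
    · rw [Ic_inter_Ge hM h1, Ic_inter_Ge hM' h1']
      exact j2.mono fun u hu => hu.1

theorem genf_cnt (f : ℕ → SM × Set ℕ) (k : ℕ) : genfCnt (genfS μ f k) := by
  induction k with
  | zero =>
    refine genf_cnt_iso ⟨f, ?_⟩
    rintro M X ⟨n, hn⟩
    refine ⟨n, ?_⟩
    rw [hn]
    exact iso_refl0
  | succ k ih =>
    exact genf_cnt_iso (genf_cnt_union ih (genf_cnt_union (genf_cnt_sub ih) (genf_cnt_glue ih)))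

theorem genf_mono (f : ℕ → SM × Set ℕ) {k l : ℕ} (h : k ≤ l) : genfS μ f k ⊆ genfS μ f l := by
  induction l, h using Nat.le_induction with
  | base => exact Subset.rfl
  | succ l _ ih =>
    exact ih.trans (subset_union_left.trans (genf_subset_iso _))

theorem t_GENF (μ : Par) (f : ℕ → SM × Set ℕ) : ∃ S : Set (SM × Set ℕ),
    Fam μ S ∧ ∀ n, f n ∈ S := by
  refine ⟨⋃ k, genfS μ f k, ⟨?_, ?_, ?_, ?_⟩, fun n => ?_⟩
  · intro M X N Y hM hi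
    obtain ⟨k, hk⟩ := mem_iUnion.1 hM
    refine mem_iUnion.2 ⟨k, ?_⟩
    cases k with
    | zero => exact genf_iso_iso _ hk hi
    | succ k => exact genf_iso_iso _ hk hi
  · refine genf_code (C := ℕ × ℕ) _ (fun c P =>
      IsoOn ((genf_cnt (μ := μ) f c.1).choose c.2).1 P.1
        ((genf_cnt (μ := μ) f c.1).choose c.2).2 P.2 ∅) ?_ ?_
    · intro P hP
      obtain ⟨k, hk⟩ := mem_iUnion.1 hP
      obtain ⟨n, hn⟩ := (genf_cnt (μ := μ) f k).choose_spec P.1 P.2 hk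
      exact ⟨(k, n), hn⟩
    · rintro c P - Q - h1 h2
      exact iso_trans0 (iso_symm0 h1) h2
  · intro M hM x y x' y' hS h1 h2 h3
    obtain ⟨k, hk⟩ := mem_iUnion.1 hS
    refine mem_iUnion.2 ⟨k + 1, genf_subset_iso _ (Or.inr (Or.inl ?_))⟩
    exact ⟨M, x, y, x', y', rfl, hM, hk, h1, h2, h3⟩
  · intro M hM x y z h1 h2 hS hS'
    obtain ⟨k, hk⟩ := mem_iUnion.1 hS
    obtain ⟨l, hl⟩ := mem_iUnion.1 hS'
    refine mem_iUnion.2 ⟨max k l + 1, genf_subset_iso _ (Or.inr (Or.inr ?_))⟩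
    exact ⟨M, x, y, z, rfl, hM, h1, h2, genf_mono f (le_max_left k l) hk,
      genf_mono f (le_max_right k l) hl⟩
  · exact mem_iUnion.2 ⟨0, genf_subset_iso _ (mem_range_self n)⟩

theorem t_GENU (μ : Par) (ι : Type 1) [Countable ι] (F : ι → Set (SM × Set ℕ))
    (hF : ∀ i, Fam μ (F i)) : ∃ S : Set (SM × Set ℕ), Fam μ S ∧ ∀ i, F i ⊆ S := by
  choose g hg using fun i => (hF i).cnt
  rcases isEmpty_or_nonempty ι with he | hne
  · obtain ⟨S, hS, -⟩ := t_GENF μ (fun _ => ((fun _ _ => false, fun _ _ => false), ∅))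
    exact ⟨S, hS, fun i => (he.false i).elim⟩
  · obtain ⟨e, he⟩ := exists_surjective_nat (ι × ℕ)
    obtain ⟨S, hS, hf⟩ := t_GENF μ (fun n => g (e n).1 (e n).2)
    refine ⟨S, hS, fun i => ?_⟩
    rintro ⟨M, X⟩ hMX
    obtain ⟨n, hn⟩ := hg i M X hMX
    obtain ⟨k, hk⟩ := he (i, n)
    have h1 : g i n ∈ S := by
      have := hf k
      rw [hk] at this
      exact this
    exact hS.iso _ _ M X h1 hn

end Pool.Agent.N643.AX
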