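import Pool.Agent.N643.AX.Gen

set_option autoImplicit false

/-!
# Every family has a countable level; measurability
-/

namespace Pool.Agent.N643.AX

open Set
open Pool.Agent.H899R2.VP
open Pool.Agent.H533R2.VO (Ic Ge Le Gt Lt Lev Lw Uw Lx NoLast Mt Cls Cl Rk Rr Bg rev revS resBF
  resIso resGe resLe resGt resLt resIc resIsoLt resIsoIc resIsoGe bf_id bf_comp0 bf_comp1 bf_comp2
  bf_symm0 bf_symm1 bf_symm2 iso_symm0 iso_trans0 iso_refl0 bf_mem_right bf_mem_left mem_Ic mem_Ge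
  mem_Le Lw_ge mem_Lx t_MEAS1)
open Pool.Agent.H566P (ar R2 v2 lt ac co mk)

variable {μ : Par}

/-- A finite set of pairs is the set of members of a list. -/
private theorem lev_list {p : Set (ℕ × ℕ)} (hp : p.Finite) :
    ∃ e : List (ℕ × ℕ), p = {u | u ∈ e} := by
  refine ⟨hp.toFinset.toList, ?_⟩
  ext u
  simp

private theorem lev_comp_finite {p q : Set (ℕ × ℕ)} (hp : p.Finite) (hq : q.Finite) :
    (comp p q).Finite := by
  apply ((hp.image Prod.fst).prod (hq.image Prod.snd)).subset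
  rintro ⟨u, v⟩ ⟨w, h1, h2⟩
  exact ⟨⟨_, h1, rfl⟩, ⟨_, h2, rfl⟩⟩

/-- `comp r p` is finite if `p` is finite and `r` is injective. -/
private theorem lev_comp_finite_left {M N : SM} {r p : Set (ℕ × ℕ)}
    (hr : PIso M N r) (hp : p.Finite) : (comp r p).Finite := by
  classical
  have h1 : {u | u ∈ r ∧ u.2 ∈ Prod.fst '' p}.Finite := by
    apply Set.Finite.of_finite_image (f := Prod.snd)
    · apply (hp.image Prod.fst).subset
      rintro _ ⟨u, ⟨_, hu⟩, rfl⟩
      exact hu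
    · rintro ⟨u, v⟩ ⟨hu, _⟩ ⟨u', v'⟩ ⟨hu', _⟩ he
      simp only at he
      subst he
      have := hr.fst_eq hu hu' rfl
      rw [this]
  apply (lev_comp_finite h1 hp).subset
  rintro ⟨u, v⟩ ⟨w, h2, h3⟩
  exact ⟨w, ⟨h2, _, h3, rfl⟩, h3⟩

private theorem lev_inv_finite {p : Set (ℕ × ℕ)} (hp : p.Finite) : (inv p).Finite := by
  apply (hp.image Prod.swap).subset
  rintro ⟨u, v⟩ h
  exact ⟨(v, u), h, rfl⟩

private theorem lev_inv_comp (p q : Set (ℕ × ℕ)) : inv (comp p q) = comp (inv q) (inv p) := by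
  ext ⟨u, v⟩
  constructor
  · rintro ⟨w, h1, h2⟩
    exact ⟨w, h2, h1⟩
  · rintro ⟨w, h1, h2⟩
    exact ⟨w, h2, h1⟩

private theorem lev_zip_finite (s t : List ℕ) : (zipSet s t).Finite := by
  have : zipSet s t = {u | u ∈ s.zip t} := rfl
  rw [this]
  exact List.finite_toSet _

private theorem lev_beta (f : ℕ → SM × Set ℕ) :
    ∃ β : Ordinal.{0}, β < Ordinal.omega 1 ∧ ∀ n m (p : Set (ℕ × ℕ)), p.Finite →
      BF (f n).1 (f m).1 (f n).2 (f m).2 β p →
      ∀ o < Ordinal.omega 1, BF (f n).1 (f m).1 (f n).2 (f m).2 o p := by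
  classical
  have h1 : ∀ j : ℕ × ℕ × List (ℕ × ℕ), ∃ o : Ordinal.{0}, o < Ordinal.omega 1 ∧
      (BF (f j.1).1 (f j.2.1).1 (f j.1).2 (f j.2.1).2 o {u | u ∈ j.2.2} →
        ∀ o' < Ordinal.omega 1,
          BF (f j.1).1 (f j.2.1).1 (f j.1).2 (f j.2.1).2 o' {u | u ∈ j.2.2}) := by
    intro j
    by_cases hb : ∃ o : Ordinal.{0}, o < Ordinal.omega 1 ∧
        ¬ BF (f j.1).1 (f j.2.1).1 (f j.1).2 (f j.2.1).2 o {u | u ∈ j.2.2}
    · obtain ⟨o, ho, hb⟩ := hb
      exact ⟨o, ho, fun h => absurd h hb⟩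
    · push Not at hb
      exact ⟨0, Ordinal.omega_pos 1, fun _ => hb⟩
  choose o ho1 ho2 using h1
  refine ⟨iSup o, Ordinal.iSup_lt_omega_one ho1, ?_⟩
  intro n m p hp hb
  obtain ⟨e, rfl⟩ := lev_list hp
  exact ho2 (n, m, e) (hb.mono (Ordinal.le_iSup o (n, m, e)))

theorem t_LEV {S : Set (SM × Set ℕ)} (hS : Fam μ S) :
    ∃ l : Ordinal.{0}, l < Ordinal.omega 1 ∧ Ordinal.omega0 ≤ l ∧ Lev S l := by
  obtain ⟨f, hf⟩ := hS.cnt
  obtain ⟨β, hβ, hβ1⟩ := lev_beta f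
  have hp : Ordinal.IsPrincipal (· + ·) (Ordinal.omega 1 : Ordinal.{0}) :=
    Ordinal.isPrincipal_add_omega 1
  have hω : Ordinal.omega0 < (Ordinal.omega 1 : Ordinal.{0}) := Ordinal.omega0_lt_omega_one
  -- transport
  have key : ∀ (M : SM) (X : Set ℕ) (N : SM) (Y : Set ℕ) (p : Set (ℕ × ℕ)), (M, X) ∈ S →
      (N, Y) ∈ S → p.Finite → p ⊆ X ×ˢ Y → BF M N X Y β p →
      ∀ o < Ordinal.omega 1, BF M N X Y o p := by
    intro M X N Y p hM hN hp hpX hb o ho
    obtain ⟨n, r1, -, r1b, r1c, r1d, r1e⟩ := hf M X hM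
    obtain ⟨m, r2, -, r2b, r2c, r2d, r2e⟩ := hf N Y hN
    have c1 : ∀ o, BF (f n).1 M (f n).2 X o r1 := fun o => BF_of_total r1b r1c r1d r1e
    have c2 : ∀ o, BF (f m).1 N (f m).2 Y o r2 := fun o => BF_of_total r2b r2c r2d r2e
    have c3 := ((c1 β).comp hb).comp (c2 β).symm
    have fin : (comp (comp r1 p) (inv r2)).Finite := by
      have f1 : (comp r1 p).Finite := lev_comp_finite_left r1c hp
      have f2 : (comp r2 (inv (comp r1 p))).Finite :=
        lev_comp_finite_left r2c (lev_inv_finite f1)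
      have f3 := lev_inv_finite f2
      rwa [lev_inv_comp, inv_inv] at f3
    have c4 := hβ1 n m _ fin c3 o ho
    have c5 := ((c1 o).symm.comp c4).comp (c2 o)
    apply c5.subset
    rintro ⟨x, y⟩ hxy
    have hx := (hpX hxy).1
    have hy := (hpX hxy).2
    simp only at hx hy
    obtain ⟨x', hx'⟩ := r1e x hx
    obtain ⟨y', hy'⟩ := r2e y hy
    exact ⟨y', ⟨x', hx', y, ⟨x, hx', hxy⟩, hy'⟩, hy'⟩
  refine ⟨β + Ordinal.omega0, hp hβ hω, le_add_self, ?_⟩
  intro M X N Y p hM hpf hpX hb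
  have claim : ∀ q : Set (ℕ × ℕ), q.Finite → p ⊆ q → q ⊆ X ×ˢ Y → BF M N X Y β q →
      BF M N X Y (β + 1) q := by
    intro q hq hpq hqX hbq
    obtain ⟨e, he⟩ := lev_list hq
    have h1 : BF M N X Y ((β + 1) + (e.map Prod.snd).length) p := by
      apply hb.mono
      rw [add_assoc]
      gcongr
      have : (1 : Ordinal.{0}) + ((e.map Prod.snd).length : Ordinal.{0}) =
          ((1 + (e.map Prod.snd).length : ℕ) : Ordinal.{0}) := by
        push_cast; rfl
      rw [this]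
      exact (Ordinal.natCast_lt_omega0 _).le
    obtain ⟨s, hs, hsX, hb2⟩ := h1.back_list (e.map Prod.snd) le_rfl (by
      intro y hy
      obtain ⟨u, hu, rfl⟩ := List.mem_map.1 hy
      have : u ∈ q := by rw [he]; exact hu
      exact (hqX this).2)
    set z : Set (ℕ × ℕ) := p ∪ zipSet s (e.map Prod.snd) with hz
    have hzf : z.Finite := hpf.union (lev_zip_finite _ _)
    have hzX : z ⊆ X ×ˢ Y := by
      rintro ⟨x, y⟩ (h | h)
      · exact hpX h
      · refine ⟨hsX x (mem_zipSet_left h), ?_⟩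
        have := mem_zipSet_right h
        obtain ⟨u, hu, hu2⟩ := List.mem_map.1 this
        have hu' : u ∈ q := by rw [he]; exact hu
        have := (hqX hu').2
        rw [hu2] at this
        exact this
    have h3 : BF M M X X β (comp q (inv z)) :=
      hbq.comp (hb2.mono (le_self_add)).symm
    have h4 : BF M M X X (β + 1) (comp q (inv z)) := by
      apply key M X M X _ hM hM (lev_comp_finite hq (lev_inv_finite hzf)) _ h3
      · exact (Cardinal.isSuccLimit_omega 1).add_one_lt hβ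
      · rintro ⟨x, y⟩ ⟨w, h5, h6⟩
        exact ⟨(hqX h5).1, (hzX h6).1⟩
    apply (h4.comp hb2).subset
    rintro ⟨x, y⟩ hxy
    have hy : y ∈ e.map Prod.snd := by
      rw [he] at hxy
      exact List.mem_map.2 ⟨(x, y), hxy, rfl⟩
    obtain ⟨x', hx'⟩ := exists_zipSet_right hs hy
    exact ⟨x', ⟨y, hxy, Or.inr hx'⟩, Or.inr hx'⟩
  apply isoOn_of_system {q | q.Finite ∧ p ⊆ q ∧ q ⊆ X ×ˢ Y ∧ BF M N X Y β q}
  · exact ⟨hpf, Subset.rfl, hpX, hb.mono le_self_add⟩
  · rintro q ⟨h1, h2, h3, h4⟩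
    exact ⟨h4.piso, h3⟩
  · rintro q ⟨h1, h2, h3, h4⟩ x hx
    obtain ⟨y, hy, hby⟩ := (claim q h1 h2 h3 h4).forth (lt_add_one β) hx
    exact ⟨insert (x, y) q, ⟨h1.insert _, h2.trans (subset_insert _ _),
      insert_subset ⟨hx, hy⟩ h3, hby⟩, subset_insert _ _, y, mem_insert _ _⟩
  · rintro q ⟨h1, h2, h3, h4⟩ y hy
    obtain ⟨x, hx, hbx⟩ := (claim q h1 h2 h3 h4).back (lt_add_one β) hy
    exact ⟨insert (x, y) q, ⟨h1.insert _, h2.trans (subset_insert _ _),
      insert_subset ⟨hx, hy⟩ h3, hbx⟩, subset_insert _ _, x, mem_insert _ _⟩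


theorem t_MEAS2 {S : Set (SM × Set ℕ)} {l : Ordinal.{0}} (hS : Fam μ S) (hl : Lev S l)
    (hl1 : l < Ordinal.omega 1) (x y : ℕ) : MeasurableSet {M : SM | (M, Ic M x y) ∈ S} := by
  obtain ⟨f, hf⟩ := hS.cnt
  have hZ : ∀ z, MeasurableSet {M : SM | z ∈ Ic M x y} := by
    intro z
    have h1 : ∀ v w : ℕ, Measurable fun M : SM => M.1 v w := by
      intro v w
      fun_prop
    have h2 : ∀ v w : ℕ, MeasurableSet {M : SM | ¬ Adj M v w} := by
      intro v w
      have h3 : {M : SM | ¬ Adj M v w} = (fun M : SM => M.1 v w) ⁻¹' {true}ᶜ := by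
        ext M
        simp [Adj]
      rw [h3]
      exact h1 v w (measurableSet_singleton _).compl
    exact (h2 z x).inter (h2 y z)
  have he : {M : SM | (M, Ic M x y) ∈ S} =
      ⋃ n ∈ {n : ℕ | f n ∈ S}, {M : SM | BF (f n).1 M (f n).2 (Ic M x y) l ∅} := by
    ext M
    simp only [Set.mem_iUnion]
    constructor
    · intro hM
      obtain ⟨n, hn⟩ := hf M _ hM
      exact ⟨n, hS.iso _ _ _ _ hM (iso_symm0 hn), hn.bf l⟩
    · rintro ⟨n, hn, hb⟩
      have hn' : ((f n).1, (f n).2) ∈ S := hn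
      have := hl _ _ _ _ ∅ hn' Set.finite_empty (empty_subset _) hb
      exact hS.iso _ _ _ _ hn' this
  rw [he]
  exact MeasurableSet.biUnion (Set.to_countable _)
    (fun n _ => t_MEAS1 ar _ _ (fun M => Ic M x y) hZ l hl1 ∅)

end Pool.Agent.N643.AX
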