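import Pool.Agent.N643.AX.Base

set_option autoImplicit false

/-!
# Families of pieces
-/

namespace Pool.Agent.N643.AX

open Set
open Pool.Agent.H899R2.VP
open Pool.Agent.H533R2.VO (Ic Ge Le Gt Lt Lev Lw Uw Lx NoLast Mt Cls Cl Rk Rr Bg rev revS resBF
  resIso resGe resLe resGt resLt resIc resIsoLt resIsoIc resIsoGe bf_id bf_comp0 bf_comp1 bf_comp2
  bf_symm0 bf_symm1 bf_symm2 iso_symm0 iso_trans0 iso_refl0 bf_mem_right bf_mem_left mem_Ic mem_Ge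
  mem_Le Lw_ge mem_Lx)
open Pool.Agent.H566P (ar R2 v2 lt ac co mk)

/-- A family of (isomorphism types of) pieces. -/
structure Fam (μ : Par) (S : Set (SM × Set ℕ)) : Prop where
  iso : ∀ M X N Y, (M, X) ∈ S → IsoOn M N X Y ∅ → (N, Y) ∈ S
  cnt : ∃ f : ℕ → SM × Set ℕ, ∀ M X, (M, X) ∈ S → ∃ n, IsoOn (f n).1 M (f n).2 X ∅
  sub : ∀ M, AC μ M → ∀ x y x' y', (M, Ic M x y) ∈ S → ¬ Adj M x' x → ¬ Adj M y' x' →
    ¬ Adj M y y' → (M, Ic M x' y') ∈ S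
  glue : ∀ M, AC μ M → ∀ x y z, ¬ Adj M y x → ¬ Adj M z y → (M, Ic M x y) ∈ S →
    (M, Ic M y z) ∈ S → (M, Ic M x z) ∈ S

/-- The standing hypotheses on the class `K`. -/
structure G (μ : Par) (α : Ordinal.{0}) (K : Set SM) : Prop where
  meas : MeasurableSet K
  lt : α < Ordinal.omega 1
  om : Ordinal.omega0 ≤ α
  closed : ∀ M ∈ K, ∀ N : SM, BF M N univ univ α ∅ → N ∈ K
  os : ∀ M ∈ K, AC μ M
  few : ¬ ∃ g : (ℕ → Bool) → SM, Continuous g ∧ (∀ c, g c ∈ K) ∧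
    ∀ c d, IsoOn (g c) (g d) univ univ ∅ → c = d

/-- The interval `[x, y]` is small: the closed intervals of all variations of rank `α` of `[x, y]`
have only countably many isomorphism types. -/
def Small (μ : Par) (α : Ordinal.{0}) (M : SM) (x y : ℕ) : Prop :=
  ∃ f : ℕ → SM × Set ℕ, ∀ N : SM, AC μ N → ∀ x' y', ¬ Adj N y' x' →
    BF M N (Ic M x y) (Ic N x' y') α {(x, x'), (y, y')} →
    ∀ c ∈ Ic N x' y', ∀ d ∈ Ic N x' y', ¬ Adj N d c → ∃ n, IsoOn (f n).1 N (f n).2 (Ic N c d) ∅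

section low

variable {μ : Par} {S : Set (SM × Set ℕ)} {M : SM} {u x y z : ℕ}

theorem Lw_init (hS : Fam μ S) (hM : AC μ M) (hx : x ∈ Lw S M u) (h1 : ¬ Adj M y u)
    (h2 : ¬ Adj M x y) : y ∈ Lw S M u :=
  ⟨h1, hS.sub M hM u x u y hx.2 (hM.irr u) h1 h2⟩

theorem Lw_Ic (hS : Fam μ S) (hM : AC μ M) (hx : x ∈ Lw S M u) (h : z ∈ Ic M u x) :
    z ∈ Lw S M u :=
  Lw_init hS hM hx h.1 h.2

theorem Lw_base (hS : Fam μ S) (hM : AC μ M) (hx : x ∈ Lw S M u) : u ∈ Lw S M u :=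
  Lw_init hS hM hx (hM.irr u) hx.1

theorem Lw_piece (hS : Fam μ S) (hM : AC μ M) (hx : x ∈ Lw S M u) (hy : y ∈ Lw S M u)
    (h : ¬ Adj M y x) : (M, Ic M x y) ∈ S :=
  hS.sub M hM u y x y hy.2 hx.1 h (hM.irr y)

theorem Lw_glue (hS : Fam μ S) (hM : AC μ M) (hx : x ∈ Lw S M u) (h : ¬ Adj M y x)
    (h1 : (M, Ic M x y) ∈ S) : y ∈ Lw S M u :=
  ⟨hM.le_trans hx.1 h, hS.glue M hM u x y hx.1 h hx.2 h1⟩

theorem Lw_inter_Ic (hS : Fam μ S) (hM : AC μ M) (hx : x ∈ Lw S M u) (hy : y ∈ Lw S M u) :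
    Lw S M u ∩ Ic M x y = Ic M x y := by
  ext z
  constructor
  · exact fun h => h.2
  · exact fun h => ⟨Lw_init hS hM hy (hM.le_trans hx.1 h.1) h.2, h⟩

theorem Lx_self (hM : AC μ M) (hx : x ∈ Lw S M u) : x ∈ Lx S M u x := ⟨hx, hM.irr x⟩

theorem Lx_subset : Lx S M u x ⊆ Lw S M u := inter_subset_left

theorem Lx_anti (hM : AC μ M) (h : ¬ Adj M y x) : Lx S M u y ⊆ Lx S M u x :=
  fun _ hz => ⟨hz.1, hM.le_trans h hz.2⟩

theorem Lx_inter_Ge (hM : AC μ M) (h : ¬ Adj M y x) : Lx S M u x ∩ Ge M y = Lx S M u y := by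
  ext z
  constructor
  · exact fun hz => ⟨hz.1.1, hz.2⟩
  · exact fun hz => ⟨⟨hz.1, hM.le_trans h hz.2⟩, hz.2⟩

theorem Lx_inter_Ic (hS : Fam μ S) (hM : AC μ M) (hx : x ∈ Lw S M u) (hy : y ∈ Lw S M u) :
    Lx S M u x ∩ Ic M x y = Ic M x y := by
  ext z
  constructor
  · exact fun h => h.2
  · exact fun h => ⟨⟨Lw_init hS hM hy (hM.le_trans hx.1 h.1) h.2, h.1⟩, h⟩

theorem Lx_inter_Le (hS : Fam μ S) (hM : AC μ M) (hx : x ∈ Lw S M u) (hy : y ∈ Lw S M u) :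
    Lx S M u x ∩ Le M y = Ic M x y := by
  ext z
  constructor
  · exact fun h => ⟨h.1.2, h.2⟩
  · exact fun h => ⟨⟨Lw_init hS hM hy (hM.le_trans hx.1 h.1) h.2, h.1⟩, h.2⟩

end low

end Pool.Agent.N643.AX
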