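import Pool.Agent.N643.AX.Code
import Pool.Agent.H899R2.VP.Borel

set_option autoImplicit false

/-!
# The dichotomy for locally finite additive colourings
-/

namespace Pool.Agent.N643.AX

open Set
open Pool.Agent.H899R2.VP
open Pool.Agent.H533R2.VO (Ic Rr Bg bf_id iso_symm0 iso_trans0 t_BL t_DYA main_meas_adj
  final_iso_of_perm final_perm_of_iso)
open Pool.Agent.H566P (ar R2 v2 lt ac co mk)

variable {μ : Par} {α : Ordinal.{0}} {K : Set SM}

theorem main_trans {S : Set (SM × Set ℕ)} (hS : Fam μ S) {M : SM} (hM : AC μ M)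
    (x y z : ℕ) (h1 : Bg S M x y) (h2 : Bg S M y z) : Bg S M x z := by
  refine ⟨hM.tr x y z h1.1 h2.1, fun h => h1.2 ?_⟩
  exact hS.sub M hM x z x y h (hM.irr x) (hM.asymm h1.1) (hM.asymm h2.1)

theorem t_MAIN (hG : G μ α K) : ∃ f : ℕ → SM, ∀ M ∈ K, ∃ n, IsoOn (f n) M univ univ ∅ := by
  obtain ⟨S, hS, hSb, hSsmall⟩ := t_BASE hG
  by_cases hall : ∀ ξ : Ordinal.{0}, ξ < Ordinal.omega 1 → ∃ M ∈ K, ∃ x y, Rr (Bg S M) ξ x y
  · exfalso
    obtain ⟨l, hl, -, hlev⟩ := t_LEV hS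
    have hmeas : ∀ x y, MeasurableSet {M : SM | M ∈ K ∧ Bg S M x y} := by
      intro x y
      have e : {M : SM | M ∈ K ∧ Bg S M x y} =
          K ∩ ({M : SM | Adj M x y} ∩ {M : SM | (M, Ic M x y) ∈ S}ᶜ) := by
        ext M
        exact Iff.rfl
      rw [e]
      exact hG.meas.inter ((main_meas_adj x y).inter (t_MEAS2 hS hlev hl x y).compl)
    obtain ⟨M, hM, P, hP1, hP2⟩ := t_BL ar K (fun M => Bg S M) hG.meas hmeas hall
    obtain ⟨lo, hi, hlt, hdn, hup⟩ := t_DYA (Bg S M) P (main_trans hS (hG.os M hM)) hP1 hP2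
    have hLH : LH μ M lo hi := ⟨hG.os M hM, fun n k => (hlt n k).1, fun n k => (hdn n k).1,
      fun n k j => (hup n k j).1⟩
    exact t_CODE hG hM hLH (fun n k => hSsmall M hM _ _ (hlt n k).1 (hlt n k).2)
  · push Not at hall
    obtain ⟨ξ, hξ, hno⟩ := hall
    obtain ⟨S', hS', hsub, hS'b⟩ := t_CNT hG hS hSb ξ hξ
    exact t_END hG hS' (fun M hM x => hsub (hSb M hM x))
      (fun M hM x y hxy => hS'b M hM x y hxy (hno M hM x y))

/-- The perfect set dichotomy for Borel classes of coloured orders. -/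
theorem vc_ac (μ : Par) (B : Set SM) (hBm : MeasurableSet B)
    (hBi : ∀ M ∈ B, ∀ N : SM, IsoOn M N univ univ ∅ → N ∈ B) (hB : ∀ M ∈ B, AC μ M) :
    (∃ f : ℕ → SM, ∀ M ∈ B, ∃ n, IsoOn (f n) M univ univ ∅) ∨
    (∃ g : (ℕ → Bool) → SM, Continuous g ∧ (∀ c, g c ∈ B) ∧
      ∀ c d, IsoOn (g c) (g d) univ univ ∅ → c = d) := by
  by_cases hg : ∃ g : (ℕ → Bool) → SM, Continuous g ∧ (∀ c, g c ∈ B) ∧
      ∀ c d, IsoOn (g c) (g d) univ univ ∅ → c = d
  · exact Or.inr hg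
  left
  obtain ⟨α₀, hα₀, hcl⟩ := closed_rank hBm hBi
  have hω : Ordinal.omega0 < Ordinal.omega.{0} 1 := by
    rw [← Ordinal.omega_zero]; exact Ordinal.omega_lt_omega.2 one_pos
  have hG : G μ (max α₀ Ordinal.omega0) B :=
    ⟨hBm, max_lt hα₀ hω, le_max_right _ _,
      fun M hM N hb => hcl M hM N (hb.mono (le_max_left _ _)), hB, hg⟩
  exact t_MAIN hG

end Pool.Agent.N643.AX
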