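import Pool.Agent.N643.AX.Lev

set_option autoImplicit false

/-!
# Matchings and closed initial segments
-/

namespace Pool.Agent.N643.AX

open Set
open Pool.Agent.H899R2.VP
open Pool.Agent.H533R2.VO (Ic Ge Le Gt Lt Lev Lw Uw Lx NoLast Mt Cls Cl Rk Rr Bg rev revS resBF
  resIso resGe resLe resGt resLt resIc resIsoLt resIsoIc resIsoGe bf_id bf_comp0 bf_comp1 bf_comp2
  bf_symm0 bf_symm1 bf_symm2 iso_symm0 iso_trans0 iso_refl0 bf_mem_right bf_mem_left mem_Ic mem_Ge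
  mem_Le Lw_ge mem_Lx)
open Pool.Agent.H566P (ar R2 v2 lt ac co mk)

variable {μ : Par} {S : Set (SM × Set ℕ)} {l m n k o : Ordinal.{0}} {M M' : SM}
  {u u' x x' y y' : ℕ} {φ : Set (ℕ × ℕ)}

theorem inlkey {p : Set (ℕ × ℕ)} (hS : Fam μ S) (hL : Lev S l)
    (hb : BF M M' univ univ l (insert (x, x') p)) (hu : (u, u') ∈ p) (hx : x ∈ Lw S M u) :
    x' ∈ Lw S M' u' := by
  have h1 : (x, x') ∈ insert (x, x') p := mem_insert _ _
  have h2 : (u, u') ∈ insert (x, x') p := mem_insert_of_mem _ hu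
  refine ⟨fun h => hx.1 ((hb.piso.adj h1 h2).2 h), ?_⟩
  have h3 := (resIc h2 h1 hb).subset (empty_subset _)
  rw [univ_inter, univ_inter] at h3
  exact hS.iso _ _ _ _ hx.2 (hL _ _ _ _ ∅ hx.2 finite_empty (empty_subset _) h3)

theorem t_INL {p : Set (ℕ × ℕ)} (hS : Fam μ S) (hL : Lev S l)
    (hb : BF M M' univ univ (l + o) p) (hu : (u, u') ∈ p) :
    BF M M' (Lw S M u) (Lw S M' u') o p := by
  induction o using WellFoundedLT.induction generalizing p with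
  | ind o ih =>
    rw [BF_iff]
    refine ⟨hb.piso, fun o' ho' => ⟨fun x hx => ?_, fun y hy => ?_⟩⟩
    · have hlt : l + o' < l + o := by gcongr
      obtain ⟨x', _, hb'⟩ := hb.forth hlt (mem_univ x)
      have hb2 : BF M M' univ univ l (insert (x, x') p) := hb'.mono le_self_add
      exact ⟨x', inlkey hS hL hb2 hu hx, ih o' ho' hb' (mem_insert_of_mem _ hu)⟩
    · have hlt : l + o' < l + o := by gcongr
      obtain ⟨x, _, hb'⟩ := hb.back hlt (mem_univ y)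
      have hb2 : BF M M' univ univ l (insert (x, y) p) := hb'.mono le_self_add
      have hb3 := hb2.symm
      rw [inv_insert] at hb3
      exact ⟨x, inlkey hS hL hb3 (mem_inv'.2 hu) hy, ih o' ho' hb' (mem_insert_of_mem _ hu)⟩

/-- matchings exist -/
theorem t_H5 (hS : Fam μ S) (hl : Lev S l) (hln : l ≤ n) (hnk : n < k) (hM : AC μ M)
    (hM' : AC μ M') (hx : x ∈ Lw S M u) (hy : y ∈ Lw S M u) (hyx : ¬ Adj M y x)
    (hb : BF M M' (Lw S M u) (Lw S M' u') k {(u, u'), (x, x')}) :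
    ∃ y' φ, Mt S M M' u u' n y y' φ ∧ (x, x') ∈ φ := by
  have hk : 0 < k := lt_of_le_of_lt bot_le hnk
  have hu : u ∈ Lw S M u := Lw_base hS hM hy
  have hu' : u' ∈ Lw S M' u' := bf_mem_right hk hb (Or.inl rfl) hu
  obtain ⟨y', hy', hb'⟩ := hb.forth hnk hy
  have m1 : (y, y') ∈ (insert (y, y') {(u, u'), (x, x')} : Set (ℕ × ℕ)) := Or.inl rfl
  have m2 : (u, u') ∈ (insert (y, y') {(u, u'), (x, x')} : Set (ℕ × ℕ)) := Or.inr (Or.inl rfl)
  have m3 : (x, x') ∈ (insert (y, y') {(u, u'), (x, x')} : Set (ℕ × ℕ)) := Or.inr (Or.inr rfl)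
  have h1 := resIc m2 m1 hb'
  rw [Lw_inter_Ic hS hM hu hy, Lw_inter_Ic hS hM' hu' hy'] at h1
  have hp := hb'.piso
  have h2 : ¬ Adj M' x' u' := fun h => hx.1 ((hp.adj m3 m2).2 h)
  have h3 : ¬ Adj M' y' x' := fun h => hyx ((hp.adj m1 m3).2 h)
  have hsub : (insert (y, y') {(u, u'), (x, x')} : Set (ℕ × ℕ)) ⊆ Ic M u y ×ˢ Ic M' u' y' := by
    rintro w (rfl | rfl | rfl)
    · exact ⟨right_mem_Ic hM hy.1, right_mem_Ic hM' hy'.1⟩
    · exact ⟨left_mem_Ic hM hy.1, left_mem_Ic hM' hy'.1⟩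
    · exact ⟨⟨hx.1, hyx⟩, ⟨h2, h3⟩⟩
  have hfin : (insert (y, y') {(u, u'), (x, x')} : Set (ℕ × ℕ)).Finite :=
    (((Set.finite_singleton _).insert _).insert _)
  obtain ⟨q, q1, q2, q3, q4, q5⟩ := hl M (Ic M u y) M' (Ic M' u' y') _ hy.2 hfin hsub
    (h1.mono hln)
  refine ⟨y', q, ⟨hy, hy', q2, q3, q4, q5, q1 m2, q1 m1, ?_⟩, q1 m3⟩
  exact (resGe m1 hb').subset (Set.singleton_subset_iff.2 m1)

/-- extension of matchings -/
theorem t_EXT {y2 : ℕ} (hS : Fam μ S) (hL : Lev S l) (hln : l ≤ n) (hnk : n < k)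
    (hM : AC μ M) (hM' : AC μ M') (h : Mt S M M' u u' k y y' φ) (hy2 : y2 ∈ Lw S M u)
    (hyy2 : ¬ Adj M y2 y) : ∃ y2' φ2, Mt S M M' u u' n y2 y2' φ2 ∧ φ ⊆ φ2 := by
  have hy : y ∈ Lw S M u := h.memL
  have hy' : y' ∈ Lw S M' u' := h.memR
  obtain ⟨y2', hy2'x, hb⟩ := h.tail.forth hnk (mem_Lx.2 ⟨hy2, hyy2⟩)
  obtain ⟨hy2', hyy2'⟩ := mem_Lx.1 hy2'x
  have hm1 : (y, y') ∈ (insert (y2, y2') {(y, y')} : Set (ℕ × ℕ)) := Or.inr rfl
  have hm2 : (y2, y2') ∈ (insert (y2, y2') {(y, y')} : Set (ℕ × ℕ)) := Or.inl rfl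
  -- the piece `[y, y2]`
  have hi : IsoOn M M' (Ic M y y2) (Ic M' y' y2') (insert (y2, y2') {(y, y')}) := by
    have h1 := resIc hm1 hm2 hb
    rw [Lx_inter_Ic hS hM hy hy2, Lx_inter_Ic hS hM' hy' hy2'] at h1
    refine hL M (Ic M y y2) M' (Ic M' y' y2') _ (Lw_piece hS hM hy hy2 hyy2) ?_ ?_ (h1.mono hln)
    · exact (Set.finite_singleton _).insert _
    · rintro w (rfl | rfl)
      · exact ⟨right_mem_Ic hM hyy2, right_mem_Ic hM' hyy2'⟩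
      · exact ⟨left_mem_Ic hM hyy2, left_mem_Ic hM' hyy2'⟩
  have key : IsoOn M M' (Ic M u y2) (Ic M' u' y2') (insert (y2, y2') φ) := by
    refine glueIso hM hM' (y := y) (y' := y') ⟨hy.1, hyy2⟩ (mem_insert_of_mem _ h.top) ?_ ?_
    · rw [Ic_inter_Le hM hyy2, Ic_inter_Le hM' hyy2']
      refine ⟨φ, ?_, h.subset, h.piso, h.total, h.surj⟩
      rintro w ⟨hw | hw, h1⟩
      · subst hw
        obtain ⟨z, hz⟩ := h.total y2 ⟨hy2.1, h1⟩
        rw [piso_block hM hM' hb.piso h.piso hm1 h.top hm2 hz hyy2 h1]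
        exact hz
      · exact hw
    · rw [Ic_inter_Ge hM hy.1, Ic_inter_Ge hM' hy'.1]
      refine (iso_block hM hM' hi (r := φ) (r' := {w | w ∈ φ ∧ ¬ Adj M w.1 y}) (Or.inr rfl)
        h.piso h.top ?_).mono ?_
      · rintro w ⟨hw1, hw2⟩
        exact ⟨hw1, hw2, (h.subset hw1).1.2, hw2, hM.le_trans (h.subset hw1).1.2 hyy2⟩
      · rintro w ⟨hw | hw, h1⟩
        · exact Or.inl (Or.inl hw)
        · exact Or.inr ⟨hw, h1⟩
  obtain ⟨q2, hq1, hq2, hq3, hq4, hq5⟩ := key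
  refine ⟨y2', q2, ⟨hy2, hy2', hq2, hq3, hq4, hq5, hq1 (Or.inr h.base), hq1 (Or.inl rfl), ?_⟩,
    fun w hw => hq1 (Or.inr hw)⟩
  have h1 := resGe hm2 hb
  rw [Lx_inter_Ge hM hyy2, Lx_inter_Ge hM' hyy2'] at h1
  refine h1.subset ?_
  rintro w rfl
  exact hm2

/-- a closed initial segment is equivalent to the ray -/
theorem t_CLS {C : Set ℕ} (hS : Fam μ S) (hM : AC μ M) (hC : Cls S M u m C) (r : Ordinal.{0}) :
    r ≤ m → ∀ x ∈ C, BF M M (Lx S M u x) (C ∩ Ge M x) r {(x, x)} := by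
  induction r using WellFoundedLT.induction with
  | ind r ih =>
    intro hr x hx
    have claim2 : ∀ o' : Ordinal.{0}, o' < r → ∀ b' ∈ C, ¬ Adj M b' x →
        BF M M (Lx S M u x) (C ∩ Ge M x) o' {(x, x), (b', b')} := by
      intro o' ho' b' hb' hbx
      refine glueBF hM hM (y := b') (y' := b') (Or.inr rfl) ?_ ?_
      · have e : C ∩ Ge M x ∩ Le M b' = Lx S M u x ∩ Le M b' := by
          ext z
          constructor
          · rintro ⟨⟨h1, h2⟩, h3⟩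
            exact ⟨⟨hC.sub h1, h2⟩, h3⟩
          · rintro ⟨⟨h1, h2⟩, h3⟩
            exact ⟨⟨hC.init b' hb' z h1 h3, h2⟩, h3⟩
        rw [e]
        apply bf_id
        rintro z ⟨rfl | rfl, h1⟩
        · exact ⟨rfl, Lx_self hM (hC.sub hx), h1⟩
        · exact ⟨rfl, ⟨hC.sub hb', hbx⟩, h1⟩
      · have e2 : C ∩ Ge M x ∩ Ge M b' = C ∩ Ge M b' := by
          ext z
          constructor
          · rintro ⟨⟨h1, h2⟩, h3⟩
            exact ⟨h1, h3⟩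
          · rintro ⟨h1, h2⟩
            exact ⟨⟨h1, hM.le_trans hbx h2⟩, h2⟩
        rw [Lx_inter_Ge hM hbx, e2]
        by_cases h2 : Adj M x b'
        · apply (ih o' ho' (ho'.le.trans hr) b' hb').subset
          rintro z ⟨rfl | rfl, h1⟩
          · exact absurd h2 h1
          · rfl
        · apply (bf_add hM hM (ih o' ho' (ho'.le.trans hr) b' hb') rfl h2 hbx h2 hbx rfl
            rfl).subset
          exact fun z hz => hz.1
    rw [BF_iff]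
    refine ⟨?_, fun o' ho' => ⟨fun b hb => ?_, fun b' hb' => ?_⟩⟩
    · refine (PIso.idOn M {x}).mono ?_
      rintro z rfl
      exact ⟨rfl, rfl⟩
    · obtain ⟨b', hb', hbx', hbf⟩ := hC.cl x hx o' (ho'.trans_le hr) b hb
      have h4 := bf_comp2 hbf (claim2 o' ho' b' hb' hbx')
      refine ⟨b', ⟨hb', hbx'⟩, h4.subset ?_⟩
      rintro z (rfl | rfl)
      · exact Or.inr rfl
      · exact Or.inl rfl
    · refine ⟨b', ⟨hC.sub hb'.1, hb'.2⟩, (claim2 o' ho' b' hb'.1 hb'.2).subset ?_⟩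
      rintro z (rfl | rfl)
      · exact Or.inr rfl
      · exact Or.inl rfl

/-- a matching gives an equivalence above `x` -/
theorem t_CORE (hS : Fam μ S) (hM : AC μ M) (hM' : AC μ M') (h : Mt S M M' u u' n y y' φ)
    (hx : (x, x') ∈ φ) : BF M M' (Lx S M u x) (Lx S M' u' x') n {w | w ∈ φ ∧ ¬ Adj M w.1 x} := by
  have hxI := h.subset hx
  have hxy : ¬ Adj M y x := hxI.1.2
  have hxy' : ¬ Adj M' y' x' := hxI.2.2
  have hxL : x ∈ Lw S M u := Lw_Ic hS hM h.memL hxI.1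
  have hxL' : x' ∈ Lw S M' u' := Lw_Ic hS hM' h.memR hxI.2
  refine glueBF hM hM' (y := y) (y' := y') ⟨h.top, hxy⟩ ?_ ?_
  · rw [Lx_inter_Le hS hM hxL h.memL, Lx_inter_Le hS hM' hxL' h.memR]
    refine (BF_of_total (q := {w | w ∈ φ ∧ ¬ Adj M w.1 x}) ?_ (h.piso.mono fun w hw => hw.1) ?_
      ?_).subset fun w hw => hw.1
    · rintro w ⟨h1, h2⟩
      have hw := h.subset h1
      refine ⟨⟨h2, hw.1.2⟩, ⟨?_, hw.2.2⟩⟩
      exact fun h4 => h2 ((h.piso.adj (x := w.1) (x' := w.2) h1 hx).2 h4)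
    · rintro z ⟨hz1, hz2⟩
      obtain ⟨z', hz'⟩ := h.total z ⟨hM.le_trans hxI.1.1 hz1, hz2⟩
      exact ⟨z', hz', hz1⟩
    · rintro z' ⟨hz1, hz2⟩
      obtain ⟨z, hz⟩ := h.surj z' ⟨hM'.le_trans hxI.2.1 hz1, hz2⟩
      exact ⟨z, hz, fun h4 => hz1 ((h.piso.adj hz hx).1 h4)⟩
  · rw [Lx_inter_Ge hM hxy, Lx_inter_Ge hM' hxy']
    refine (bf_block hM hM' (r := φ) (r' := {w | w ∈ φ ∧ ¬ Adj M w.1 y}) h.tail rfl h.piso
      h.top ?_).subset ?_
    · rintro w ⟨hw1, hw2⟩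
      exact ⟨hw1, hw2, (h.subset hw1).1.2⟩
    · rintro w ⟨⟨h1, _⟩, h3⟩
      exact Or.inr ⟨h1, h3⟩

/-- transport of closed initial segments -/
theorem t_TRC {C : Set ℕ} (hS : Fam μ S) (hM : AC μ M) (hM' : AC μ M') (hmn : m ≤ n)
    (H : Mt S M M' u u' n y y' φ) (hC : Cls S M u m C) (hy : y ∉ C) :
    ∃ C' : Set ℕ, Cls S M' u' m C' ∧ (∀ w ∈ φ, (w.1 ∈ C ↔ w.2 ∈ C')) ∧
      ∀ v v', (v, v') ∈ φ → v ∈ C →
        BF M M' (insert v (Lw S M u \ C)) (insert v' (Lw S M' u' \ C')) m {(v, v')} := by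
  -- points of `C` lie below `y`
  have hCy : ∀ z ∈ C, Adj M z y := by
    intro z hz
    by_contra hcon
    exact hy (hC.init z hz y H.memL hcon)
  have hCI : ∀ z ∈ C, z ∈ Ic M u y := fun z hz =>
    ⟨(hC.sub hz).1, hM.asymm (hCy z hz)⟩
  have hsubL : ∀ w ∈ φ, w.1 ∈ Lw S M u := fun w hw => Lw_Ic hS hM H.memL (H.subset hw).1
  have hsubR : ∀ w ∈ φ, w.2 ∈ Lw S M' u' := fun w hw => Lw_Ic hS hM' H.memR (H.subset hw).2
  have hiff : ∀ w ∈ φ, (w.1 ∈ C ↔ w.2 ∈ {z' | ∃ z ∈ C, (z, z') ∈ φ}) := by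
    intro w hw
    constructor
    · intro h
      exact ⟨w.1, h, hw⟩
    · rintro ⟨z, hz, hzw⟩
      have : z = w.1 := H.piso.fst_eq hzw (y := w.1) (y' := w.2) hw rfl
      rwa [← this]
  refine ⟨{z' | ∃ z ∈ C, (z, z') ∈ φ}, ⟨?_, ?_, ?_, ?_, ?_⟩, hiff, ?_⟩
  · rintro z' ⟨z, hz, hzz⟩
    exact hsubR _ hzz
  · obtain ⟨z, hz⟩ := hC.ne
    obtain ⟨z', hz'⟩ := H.total z (hCI z hz)
    exact ⟨z', z, hz, hz'⟩
  · rintro x' ⟨x, hx, hxx⟩ w' hw' hle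
    have hx'I := (H.subset hxx).2
    have hw'I : w' ∈ Ic M' u' y' := ⟨hw'.1, hM'.le_trans hle hx'I.2⟩
    obtain ⟨w, hw⟩ := H.surj w' hw'I
    refine ⟨w, ?_, hw⟩
    apply hC.init x hx w (hsubL _ hw)
    rw [H.piso.adj hxx hw]
    exact hle
  · exact ⟨y', H.memR, fun h => hy ((hiff (y, y') H.top).2 h)⟩
  · rintro x' ⟨x, hx, hxx⟩ k hk b' hb'
    have hcr := t_CORE hS hM hM' H hxx
    have hkn : k < n := lt_of_lt_of_le hk hmn
    have hxp : (x, x') ∈ {w | w ∈ φ ∧ ¬ Adj M w.1 x} := ⟨hxx, hM.irr x⟩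
    obtain ⟨b, hb, hbb⟩ := hcr.back hkn hb'
    obtain ⟨b1, hb1, hb1x, hbb1⟩ := hC.cl x hx k hk b hb
    obtain ⟨b1', hb1'⟩ := H.total b1 (hCI b1 hb1)
    have hb1p : (b1, b1') ∈ {w | w ∈ φ ∧ ¬ Adj M w.1 x} := ⟨hb1', hb1x⟩
    refine ⟨b1', ⟨b1, hb1, hb1'⟩, ?_, ?_⟩
    · rw [← H.piso.adj hb1' hxx]
      exact hb1x
    · have e1 : BF M M' (Lx S M u x) (Lx S M' u' x') k {(x, x'), (b, b')} := by
        apply hbb.subset
        rintro w (rfl | rfl)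
        · exact Or.inr hxp
        · exact Or.inl rfl
      have e2 : BF M M' (Lx S M u x) (Lx S M' u' x') k {(x, x'), (b1, b1')} := by
        apply (hcr.mono hkn.le).subset
        rintro w (rfl | rfl)
        · exact hxp
        · exact hb1p
      exact bf_comp2 (bf_comp2 (bf_symm2 e1) hbb1) e2
  · intro v v' hv hvC
    have hvy := hCy v hvC
    have hvy' : Adj M' v' y' := (H.piso.adj hv H.top).1 hvy
    refine BF.subset (q := {(v, v'), (y, y')}) ?_ (by rintro w rfl; exact Or.inl rfl)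
    refine glueBF hM hM' (y := y) (y' := y') (Or.inr rfl) ?_ ?_
    · refine (BF_of_total (q := {w | w ∈ φ ∧ (w.1 = v ∨ w.1 ∉ C)}) ?_
        (H.piso.mono fun w hw => hw.1) ?_ ?_).subset ?_
      · rintro w ⟨hw, hw2⟩
        refine ⟨⟨?_, (H.subset hw).1.2⟩, ⟨?_, (H.subset hw).2.2⟩⟩
        · rcases hw2 with h | h
          · exact Or.inl h
          · exact Or.inr ⟨hsubL w hw, h⟩
        · rcases hw2 with h | h
          · exact Or.inl (H.piso.snd_eq (x := w.1) (x' := w.2) hw hv h)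
          · exact Or.inr ⟨hsubR w hw, fun h1 => h ((hiff w hw).2 h1)⟩
      · rintro z ⟨hz | hz, hz2⟩
        · subst hz
          exact ⟨v', hv, Or.inl rfl⟩
        · obtain ⟨z', hz'⟩ := H.total z ⟨hz.1.1, hz2⟩
          exact ⟨z', hz', Or.inr hz.2⟩
      · rintro z' ⟨hz | hz, hz2⟩
        · subst hz
          exact ⟨v, hv, Or.inl rfl⟩
        · obtain ⟨z, hz'⟩ := H.surj z' ⟨hz.1.1, hz2⟩
          exact ⟨z, hz', Or.inr fun h1 => hz.2 ((hiff _ hz').1 h1)⟩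
      · rintro w ⟨rfl | rfl, h1⟩
        · exact ⟨hv, Or.inl rfl⟩
        · exact ⟨H.top, Or.inr hy⟩
    · have e1 : insert v (Lw S M u \ C) ∩ Ge M y = Lx S M u y := by
        ext z
        constructor
        · rintro ⟨h1 | ⟨h1, _⟩, h3⟩
          · subst h1
            exact absurd hvy h3
          · exact ⟨h1, h3⟩
        · rintro ⟨h1, h2⟩
          exact ⟨Or.inr ⟨h1, fun h => h2 (hCy z h)⟩, h2⟩
      have e2 : insert v' (Lw S M' u' \ {z' | ∃ z ∈ C, (z, z') ∈ φ}) ∩ Ge M' y' =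
          Lx S M' u' y' := by
        ext z'
        constructor
        · rintro ⟨h1 | ⟨h1, _⟩, h3⟩
          · subst h1
            exact absurd hvy' h3
          · exact ⟨h1, h3⟩
        · rintro ⟨h1, h2⟩
          refine ⟨Or.inr ⟨h1, ?_⟩, h2⟩
          rintro ⟨z, hz, hzz⟩
          exact h2 ((H.piso.adj hzz H.top).1 (hCy z hz))
      rw [e1, e2]
      apply (H.tail.mono hmn).subset
      rintro w ⟨rfl | rfl, h1⟩
      · exact absurd hvy h1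
      · rfl

theorem t_CLT {x1 x1' : ℕ} (hS : Fam μ S) (hM : AC μ M) (hM' : AC μ M') (hmn : m ≤ n)
    (hMt : Mt S M M' u u' n y y' φ) (hx : (x, x') ∈ φ) (hx1 : (x1, x1') ∈ φ)
    (hCl : Cl S M u m x x1) : Cl S M' u' m x' x1' := by
  intro k hk b' hb'
  have hcore := t_CORE hS hM hM' hMt hx
  have hkn : k < n := lt_of_lt_of_le hk hmn
  obtain ⟨b, hb, hbb⟩ := hcore.back hkn hb'
  obtain ⟨b1, hb1, hb1x1, hbf⟩ := hCl k hk b hb
  have hx1m : x1 ∈ Ic M u y := (hMt.subset hx1).1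
  have hb1y : Adj M b1 y := hM.lt_le hb1x1 hx1m.2
  have hb1m : b1 ∈ Ic M u y := ⟨hb1.1.1, hM.asymm hb1y⟩
  obtain ⟨b1', hb1'⟩ := hMt.total b1 hb1m
  have hadj : Adj M' b1' x1' := (hMt.piso.adj hb1' hx1).1 hb1x1
  have hb1'm : b1' ∈ Ic M' u' y' := (hMt.subset hb1').2
  have hb1'L : b1' ∈ Lw S M' u' := Lw_Ic hS hM' hMt.memR hb1'm
  have hb1'x : ¬ Adj M' b1' x' := fun hc => hb1.2 ((hMt.piso.adj hb1' hx).2 hc)
  refine ⟨b1', ⟨hb1'L, hb1'x⟩, hadj, ?_⟩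
  have e1 : BF M M' (Lx S M u x) (Lx S M' u' x') k {(x, x'), (b, b')} := by
    refine hbb.subset ?_
    rintro w (rfl | rfl)
    · exact Or.inr ⟨hx, hM.irr x⟩
    · exact Or.inl rfl
  have e2 : BF M M' (Lx S M u x) (Lx S M' u' x') k {(x, x'), (b1, b1')} := by
    refine (hcore.mono hkn.le).subset ?_
    rintro w (rfl | rfl)
    · exact ⟨hx, hM.irr x⟩
    · exact ⟨hb1', hb1.2⟩
  exact bf_comp2 (bf_comp2 (bf_symm2 e1) hbf) e2

theorem t_CLMON {w e : ℕ} (hM : AC μ M) (hm : 0 < m) (hx : x ∈ Lw S M u)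
    (hw : w ∈ Lw S M u) (hxw : ¬ Adj M w x) (hcl : Cl S M u m w e) :
    Cl S M u m x e := by
  intro k hk b hb
  have hwe : Adj M w e := by
    obtain ⟨b', hb', h1, _⟩ := hcl 0 hm w (Lx_self hM hw)
    exact hM.le_lt hb'.2 h1
  by_cases hwb : Adj M w b
  · obtain ⟨b', hb', h1, h2⟩ := hcl k hk b ⟨hb.1, hM.asymm hwb⟩
    have hb'x : b' ∈ Lx S M u x := Lx_anti hM hxw hb'
    have h3 := bf_upgrade (o := k) hM (L := Lx S M u x) (x := x) (w := w) (b := b) (b' := b')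
      ⟨hw, hxw⟩ (Lx_self hM hx) hxw hwb (by rw [Lx_inter_Ge hM hxw]; exact h2)
    refine ⟨b', hb'x, h1, h3.subset ?_⟩
    rintro v (rfl | rfl)
    · exact Or.inl rfl
    · exact Or.inr (Or.inr rfl)
  · refine ⟨b, hb, hM.le_lt hwb hwe, bf_id ?_⟩
    rintro v (rfl | rfl)
    · exact ⟨rfl, Lx_self hM hx⟩
    · exact ⟨rfl, hb⟩

theorem t_LOCRK {e e' : ℕ} (hS : Fam μ S) (hM : AC μ M) (hM' : AC μ M') (hmn : m ≤ n)
    (hφ : Mt S M M' u u' n y y' φ) (hx : (x, x') ∈ φ) (he : (e, e') ∈ φ)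
    (hr : Rk S M u m o x e) : Rk S M' u' m o x' e' := by
  induction o using WellFoundedLT.induction generalizing x x' with
  | ind o ih =>
    rw [Rk] at hr ⊢
    intro o' ho'
    obtain ⟨x1, hx1, hx1e, hcl, hrk⟩ := hr o' ho'
    have heI := (hφ.subset he).1
    have hxI := (hφ.subset hx).1
    have hx1y : Adj M x1 y := hM.lt_le hx1e heI.2
    have hx1I : x1 ∈ Ic M u y := ⟨hM.le_trans hxI.1 hx1.2, hM.asymm hx1y⟩
    obtain ⟨x1', hx1'⟩ := hφ.total x1 hx1I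
    refine ⟨x1', ⟨Lw_Ic hS hM' hφ.memR (hφ.subset hx1').2, ?_⟩, ?_, ?_, ?_⟩
    · exact fun h4 => hx1.2 ((hφ.piso.adj hx1' hx).2 h4)
    · exact (hφ.piso.adj hx1' he).1 hx1e
    · exact t_CLT hS hM hM' hmn hφ hx hx1' hcl
    · exact ih o' ho' hx1' hrk

private theorem mtx_max (hM : AC μ M) {L : Set ℕ} (hL : NoLast M L)
    {x z : ℕ} (hx : x ∈ L) (hz : z ∈ L) : ∃ y ∈ L, Adj M x y ∧ Adj M z y := by
  by_cases h : Adj M x z
  · obtain ⟨y, hy, hzy⟩ := hL z hz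
    exact ⟨y, hy, hM.tr x z y h hzy, hzy⟩
  · obtain ⟨y, hy, hxy⟩ := hL x hx
    exact ⟨y, hy, hxy, hM.le_lt h hxy⟩

theorem t_MTX (hS : Fam μ S) (hl : Lev S l) (hom : Ordinal.omega0 ≤ l) (hln : l ≤ n)
    (hnk : n < k) (hM : AC μ M) (hM' : AC μ M') (hL : NoLast M (Lw S M u)) (hx : x ∈ Lw S M u)
    (hb : BF M M' (Lw S M u) (Lw S M' u') k {(u, u'), (x, x')}) :
    (∀ z ∈ Lw S M u, ∃ y y' φ, Mt S M M' u u' n y y' φ ∧ (x, x') ∈ φ ∧ Adj M x y ∧ Adj M z y) ∧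
    (∀ z ∈ Lw S M' u', ∃ y y' φ, Mt S M M' u u' n y y' φ ∧ (x, x') ∈ φ ∧ Adj M x y ∧
      Adj M' z y') := by
  have hn0 : 0 < n := lt_of_lt_of_le Ordinal.omega0_pos (hom.trans hln)
  have hk0 : 0 < k := hn0.trans hnk
  refine ⟨fun z hz => ?_, fun z hz => ?_⟩
  · obtain ⟨y, hy, hxy, hzy⟩ := mtx_max hM hL hx hz
    obtain ⟨y', φ, h1, h2⟩ := t_H5 hS hl hln hnk hM hM' hx hy (hM.asymm hxy) hb
    exact ⟨y, y', φ, h1, h2, hxy, hzy⟩
  · have hx' : x' ∈ Lw S M' u' := bf_mem_right hk0 hb (by simp) hx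
    have hL' : NoLast M' (Lw S M' u') := by
      intro w hw
      obtain ⟨v, hv, hb1⟩ := hb.back hnk hw
      obtain ⟨v2, hv2, hvv⟩ := hL v hv
      obtain ⟨w2, hw2, hb2⟩ := hb1.forth hn0 hv2
      refine ⟨w2, hw2, ?_⟩
      exact (hb2.piso.adj (by simp) (by simp)).1 hvv
    obtain ⟨y', hy', hxy, hzy⟩ := mtx_max hM' hL' hx' hz
    obtain ⟨y, φ, h1, h2⟩ := t_H5 hS hl hln hnk hM' hM hx' hy' (hM'.asymm hxy) (bf_symm2 hb)
    refine ⟨y, y', inv φ, h1.symm, h2, ?_, hzy⟩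
    exact (h1.piso.adj h2 h1.top).1 hxy

end Pool.Agent.N643.AX
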