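import Pool.Agent.N643.AX.Mat

set_option autoImplicit false

/-!
# Ranks of chains
-/

namespace Pool.Agent.N643.AX

open Set
open Pool.Agent.H899R2.VP
open Pool.Agent.H533R2.VO (Ic Ge Le Gt Lt Lev Lw Uw Lx NoLast Mt Cls Cl Rk Rr Bg rev revS resBF
  resIso resGe resLe resGt resLt resIc resIsoLt resIsoIc resIsoGe bf_id bf_comp0 bf_comp1 bf_comp2
  bf_symm0 bf_symm1 bf_symm2 iso_symm0 iso_trans0 iso_refl0 bf_mem_right bf_mem_left mem_Ic mem_Ge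
  mem_Le Lw_ge mem_Lx)
open Pool.Agent.H566P (ar R2 v2 lt ac co mk)

variable {μ : Par}

private theorem rkch_iff {S : Set (SM × Set ℕ)} {M : SM} {u : ℕ}
    {m o : Ordinal.{0}} {x e : ℕ} : Rk S M u m o x e ↔ ∀ o' : Ordinal.{0}, o' < o →
    ∃ x1 ∈ Lx S M u x, Adj M x1 e ∧ Cl S M u m x x1 ∧ Rk S M u m o' x1 e := by
  rw [Rk]

private theorem rkch_anti {S : Set (SM × Set ℕ)} {M : SM} {u : ℕ}
    {m o o' : Ordinal.{0}} {x e : ℕ} (h : Rk S M u m o x e) (ho : o' ≤ o) :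
    Rk S M u m o' x e := by
  rw [rkch_iff] at h ⊢
  exact fun o'' h' => h o'' (lt_of_lt_of_le h' ho)

private theorem rkch_step {S : Set (SM × Set ℕ)} {M : SM} {u : ℕ}
    {m : Ordinal.{0}} {x e : ℕ} (h : ∀ o : Ordinal.{0}, Rk S M u m o x e) :
    ∃ x1 ∈ Lx S M u x, Adj M x1 e ∧ Cl S M u m x x1 ∧ ∀ o : Ordinal.{0}, Rk S M u m o x1 e := by
  by_contra hc
  have h1 : ∀ x1 : ℕ, ∃ o : Ordinal.{0},
      ¬ (x1 ∈ Lx S M u x ∧ Adj M x1 e ∧ Cl S M u m x x1 ∧ Rk S M u m o x1 e) := by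
    intro x1
    by_contra hx1
    push Not at hx1
    exact hc ⟨x1, (hx1 0).1, (hx1 0).2.1, (hx1 0).2.2.1, fun o => (hx1 o).2.2.2⟩
  choose f hf using h1
  have h2 := rkch_iff.1 (h (Order.succ (iSup f))) (iSup f) (Order.lt_succ _)
  obtain ⟨x1, hx1, h3, h4, h5⟩ := h2
  exact hf x1 ⟨hx1, h3, h4, rkch_anti h5 (Ordinal.le_iSup f x1)⟩

theorem t_RKCH {S : Set (SM × Set ℕ)} {m : Ordinal.{0}} {M : SM} {u x e : ℕ} (hM : AC μ M)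
    (hm : 0 < m) (hx : x ∈ Lw S M u) (he : e ∈ Lw S M u)
    (hr : ∀ o : Ordinal.{0}, Rk S M u m o x e) : ∃ C, Cls S M u m C ∧ x ∈ C := by
  -- the sequence
  have step : ∀ z : {z // z ∈ Lw S M u ∧ ∀ o : Ordinal.{0}, Rk S M u m o z e},
      ∃ z1 : {z // z ∈ Lw S M u ∧ ∀ o : Ordinal.{0}, Rk S M u m o z e},
        ¬ Adj M z1.1 z.1 ∧ Adj M z1.1 e ∧ Cl S M u m z.1 z1.1 := by
    rintro ⟨z, hz, hzr⟩
    obtain ⟨x1, hx1, h3, h4, h5⟩ := rkch_step hzr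
    exact ⟨⟨x1, hx1.1, h5⟩, hx1.2, h3, h4⟩
  choose nx hnx1 hnx2 hnx3 using step
  obtain ⟨s, hs0, hss⟩ : ∃ s : ℕ → {z // z ∈ Lw S M u ∧ ∀ o : Ordinal.{0}, Rk S M u m o z e},
      s 0 = ⟨x, hx, hr⟩ ∧ ∀ n, s (n + 1) = nx (s n) :=
    ⟨fun n => Nat.rec ⟨x, hx, hr⟩ (fun _ q => nx q) n, rfl, fun _ => rfl⟩
  have hle : ∀ i, ¬ Adj M (s (i + 1)).1 (s i).1 := by
    intro i; rw [hss]; exact hnx1 _
  have hlt' : ∀ i, Adj M (s (i + 1)).1 e := by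
    intro i; rw [hss]; exact hnx2 _
  have hcl : ∀ i, Cl S M u m (s i).1 (s (i + 1)).1 := by
    intro i; rw [hss]; exact hnx3 _
  have hlt : ∀ i, Adj M (s i).1 e := fun i => hM.le_lt (hle i) (hlt' i)
  refine ⟨{z | z ∈ Lw S M u ∧ ∃ i, ¬ Adj M (s i).1 z}, ?_, hx, 0, ?_⟩
  · refine ⟨fun z hz => hz.1, ⟨x, hx, 0, by rw [hs0]; exact hM.irr x⟩, ?_, ?_, ?_⟩
    · rintro z ⟨hz, i, hi⟩ y hy hzy
      exact ⟨hy, i, hM.le_trans hzy hi⟩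
    · exact ⟨e, he, fun hc => by
        obtain ⟨-, i, hi⟩ := hc
        exact hi (hlt i)⟩
    · rintro z ⟨hz, i, hi⟩ k hk b hb
      have h1 : Cl S M u m z (s (i + 1)).1 :=
        t_CLMON hM hm hz (s i).2.1 hi (hcl i)
      obtain ⟨b', hb', h2, h3⟩ := h1 k hk b hb
      exact ⟨b', ⟨hb'.1, i + 1, hM.asymm h2⟩, hb'.2, h3⟩
  · rw [hs0]; exact hM.irr x

private theorem b2ex_iff (S : Set (SM × Set ℕ)) (M : SM) (u : ℕ)
    (m o : Ordinal.{0}) (x e : ℕ) : Rk S M u m o x e ↔ ∀ o' < o, ∃ x1 ∈ Lx S M u x, Adj M x1 e ∧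
      Cl S M u m x x1 ∧ Rk S M u m o' x1 e := by
  conv_lhs => unfold Rk

private theorem b2ex_anti (S : Set (SM × Set ℕ)) (M : SM) (u : ℕ)
    (m : Ordinal.{0}) {o o' : Ordinal.{0}} (h : o' ≤ o) (x e : ℕ) (hr : Rk S M u m o x e) :
    Rk S M u m o' x e := by
  rw [b2ex_iff] at hr ⊢
  intro o'' ho''
  exact hr o'' (ho''.trans_le h)

private theorem b2ex_mono (S : Set (SM × Set ℕ)) (M : SM) (hM : AC μ M) (u : ℕ)
    (m : Ordinal.{0}) (e e' : ℕ) (he : Adj M e e') : ∀ (o : Ordinal.{0}) (x : ℕ),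
    Rk S M u m o x e → Rk S M u m o x e' := by
  intro o
  induction o using WellFoundedLT.induction with
  | ind o ih =>
    intro x hr
    rw [b2ex_iff] at hr ⊢
    intro o' ho'
    obtain ⟨x1, h1, h2, h3, h4⟩ := hr o' ho'
    exact ⟨x1, h1, hM.tr _ _ _ h2 he, h3, ih o' ho' x1 h4⟩

theorem t_B2EX {S : Set (SM × Set ℕ)} {m : Ordinal.{0}} {M : SM} {u z0 : ℕ} (hM : AC μ M)
    (hm : 0 < m) (hL : NoLast M (Lw S M u)) (hz0 : z0 ∈ Lw S M u)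
    (hno : ¬ ∃ C, Cls S M u m C ∧ z0 ∈ C)
    (hcl : ∀ x ∈ Lw S M u, ∃ e ∈ Lx S M u x, Cl S M u m x e) :
    ∃ x ∈ Lx S M u z0, ∀ e ∈ Lx S M u x, ∃ o : Ordinal.{0},
      (∃ e1 ∈ Lx S M u x, Rk S M u m o x e1) ∧ ¬ Rk S M u m o x e := by
  by_contra hcon
  push Not at hcon
  have hge : ∀ x y z : ℕ, ¬ Adj M z y → ¬ Adj M y x → ¬ Adj M z x := by
    intro x y z h1 h2 h3
    rcases hM.ntr z y x h3 with h4 | h4
    · exact h1 h4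
    · exact h2 h4
  have hbd : ∀ x ∈ Lx S M u z0, ∀ e ∈ Lw S M u, ∃ o : Ordinal.{0}, ¬ Rk S M u m o x e := by
    intro x hx e he
    by_contra hc
    push Not at hc
    obtain ⟨C, hC, hxC⟩ := t_RKCH hM hm hx.1 he hc
    exact hno ⟨C, hC, hC.init x hxC z0 hz0 hx.2⟩
  choose! E hE hE2 using hcon
  let ρ : ℕ → Ordinal.{0} := fun x => sInf {o | ¬ Rk S M u m o x (E x)}
  have hρ : ∀ x ∈ Lx S M u z0, ¬ Rk S M u m (ρ x) x (E x) := by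
    intro x hx
    exact csInf_mem (s := {o | ¬ Rk S M u m o x (E x)}) (hbd x hx (E x) (hE x hx).1)
  have hρ2 : ∀ x, ∀ o < ρ x, Rk S M u m o x (E x) := by
    intro x o ho
    by_contra hc
    exact absurd (csInf_le' (s := {o | ¬ Rk S M u m o x (E x)}) hc) (not_le.2 ho)
  have hne : (ρ '' Lx S M u z0).Nonempty := ⟨ρ z0, z0, ⟨hz0, hM.irr z0⟩, rfl⟩
  obtain ⟨r, ⟨x, hx, rfl⟩, hmin⟩ := WellFounded.has_min (wellFounded_lt (α := Ordinal.{0})) _ hne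
  obtain ⟨x1, hx1, hclx⟩ := hcl x hx.1
  have hx1' : x1 ∈ Lx S M u z0 := ⟨hx1.1, hge _ _ _ hx1.2 hx.2⟩
  obtain ⟨E', hE', hadj⟩ := hL (E x1) (hE x1 hx1').1
  have hadj1 : Adj M x1 E' := by
    rcases hM.ntr (E x1) x1 E' hadj with h4 | h4
    · exact absurd h4 (hE x1 hx1').2
    · exact h4
  have hE'x : E' ∈ Lx S M u x := by
    refine ⟨hE', ?_⟩
    intro h3
    exact hx1.2 (hM.tr _ _ _ hadj1 h3)
  have hrk : Rk S M u m (ρ x1) x E' := by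
    rw [b2ex_iff]
    intro o' ho'
    exact ⟨x1, hx1, hadj1, hclx, b2ex_mono S M hM u m _ _ hadj o' x1 (hρ2 x1 o' ho')⟩
  have hrk2 : Rk S M u m (ρ x1) x (E x) := hE2 x hx (ρ x1) ⟨E', hE'x, hrk⟩
  have hlt : ρ x1 < ρ x := by
    by_contra hc
    exact hρ x hx (b2ex_anti S M u m (not_lt.1 hc) x _ hrk2)
  exact hmin _ ⟨x1, hx1', rfl⟩ hlt


end Pool.Agent.N643.AX
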