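import Pool.Agent.N643.AX.Tow

set_option autoImplicit false

/-!
# Simple intervals

A simple interval is cut into two towers. There are only countably many ways of crossing the cut.
-/

namespace Pool.Agent.N643.AX

open Set
open Pool.Agent.H899R2.VP
open Pool.Agent.H533R2.VO (Ic Ge Le Gt Lt Lev Lw Uw Lx NoLast Mt Cls Cl Rk Rr Bg rev revS resBF
  resIso resGe resLe resGt resLt resIc resIsoLt resIsoIc resIsoGe bf_id bf_comp0 bf_comp1 bf_comp2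
  bf_symm0 bf_symm1 bf_symm2 iso_symm0 iso_trans0 iso_refl0 bf_mem_right bf_mem_left mem_Ic mem_Ge
  mem_Le Lw_ge mem_Lx rev_iso rev_bf rev_Ic rev_cont rev_Lw cnt_countable)
open Pool.Agent.H566P (ar R2 v2 lt ac co mk)

variable {μ : Par} {α : Ordinal.{0}} {K : Set SM} {S : Set (SM × Set ℕ)} {M N : SM}
  {x y z w x' y' : ℕ}

/-- Simple intervals: not in `S`, but every point in between has one half in `S`. -/
structure SimP (K : Set SM) (S : Set (SM × Set ℕ)) (M : SM) (x y : ℕ) : Prop where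
  mem : M ∈ K
  lt : Adj M x y
  nin : (M, Ic M x y) ∉ S
  no : ∀ z, Adj M x z → Adj M z y → (M, Ic M x z) ∈ S ∨ (M, Ic M z y) ∈ S

theorem simL (hS : Fam μ S) (hM : AC μ M) (h : SimP K S M x y) : Lw S M x ⊆ Ic M x y := by
  intro z hz
  refine ⟨hz.1, fun hyz => h.nin ?_⟩
  exact hS.sub M hM x z x y hz.2 (hM.irr x) (hM.asymm h.lt) (hM.asymm hyz)

theorem simU (hS : Fam μ S) (hM : AC μ M) (h : SimP K S M x y) : Uw S M y ⊆ Ic M x y := by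
  intro z hz
  refine ⟨fun hzx => h.nin ?_, hz.1⟩
  exact hS.sub M hM z y x y hz.2 (hM.asymm hzx) (hM.asymm h.lt) (hM.irr y)

theorem simD (hS : Fam μ S) (hM : AC μ M) (h : SimP K S M x y) (h1 : z ∈ Lw S M x)
    (h2 : z ∈ Uw S M y) : False :=
  h.nin (hS.glue M hM x z y h1.1 h2.1 h1.2 h2.2)

theorem simC (hS : Fam μ S) (hM : AC μ M) (hb : ∀ x, (M, Ic M x x) ∈ S) (h : SimP K S M x y)
    (hz : z ∈ Ic M x y) : z ∈ Lw S M x ∨ z ∈ Uw S M y := by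
  by_cases h1 : Adj M x z
  · by_cases h2 : Adj M z y
    · rcases h.no z h1 h2 with h3 | h3
      · exact Or.inl ⟨hz.1, h3⟩
      · exact Or.inr ⟨hz.2, h3⟩
    · exact Or.inr ⟨hz.2, hS.sub M hM y y z y (hb y) h2 hz.2 (hM.irr y)⟩
  · exact Or.inl ⟨hz.1, hS.sub M hM x x x z (hb x) (hM.irr x) hz.1 h1⟩

theorem simLt (hS : Fam μ S) (hM : AC μ M) (h : SimP K S M x y) (h1 : z ∈ Lw S M x)
    (h2 : w ∈ Uw S M y) : Adj M z w := by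
  by_contra h3
  exact simD hS hM h (Lw_init hS hM h1 (simU hS hM h h2).1 h3) h2

/-- `h` describes the colours across the cut of the simple interval `[x, y]`. -/
def Crs (M1 : SM) (A1 B1 : Set ℕ) (S : Set (SM × Set ℕ)) (M : SM) (x y : ℕ)
    (h : {q : ℕ × ℕ // q.1 ∈ A1 ∧ q.2 ∈ B1} → ℕ) : Prop :=
  ∃ r s : Set (ℕ × ℕ), r ⊆ A1 ×ˢ Lw S M x ∧ PIso M1 M r ∧ (∀ z ∈ A1, ∃ z', (z, z') ∈ r) ∧
    (∀ z' ∈ Lw S M x, ∃ z, (z, z') ∈ r) ∧ s ⊆ B1 ×ˢ Uw S M y ∧ PIso M1 M s ∧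
    (∀ z ∈ B1, ∃ z', (z, z') ∈ s) ∧ (∀ z' ∈ Uw S M y, ∃ z, (z, z') ∈ s) ∧
    ∀ q, ∀ a b, (q.1.1, a) ∈ r → (q.1.2, b) ∈ s → h q = cl M a b

variable {M1 : SM} {A1 B1 : Set ℕ} {h : {q : ℕ × ℕ // q.1 ∈ A1 ∧ q.2 ∈ B1} → ℕ}

theorem crs_ex (h1 : IsoOn M1 M A1 (Lw S M x) ∅) (h2 : IsoOn M1 M B1 (Uw S M y) ∅) :
    ∃ h, Crs M1 A1 B1 S M x y h := by
  obtain ⟨r, -, r2, r3, r4, r5⟩ := h1
  obtain ⟨s, -, s2, s3, s4, s5⟩ := h2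
  choose! f hf using r4
  choose! g hg using s4
  refine ⟨fun q => cl M (f q.1.1) (g q.1.2), r, s, r2, r3, fun z hz => ⟨_, hf z hz⟩, r5, s2, s3,
    fun z hz => ⟨_, hg z hz⟩, s5, ?_⟩
  rintro ⟨q, hq1, hq2⟩ a b ha hb
  have e1 : f q.1 = a := r3.snd_eq (hf _ hq1) ha rfl
  have e2 : g q.2 = b := s3.snd_eq (hg _ hq2) hb rfl
  show cl M (f q.1) (g q.2) = cl M a b
  rw [e1, e2]

theorem crs_left (hM1 : AC μ M1) (hM : AC μ M) (hS : Fam μ S) (hs : SimP K S M x y)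
    (hc : Crs M1 A1 B1 S M x y h) (q q2 : {q : ℕ × ℕ // q.1 ∈ A1 ∧ q.2 ∈ B1})
    (he : q.1.2 = q2.1.2) (hlt : Adj M1 q.1.1 q2.1.1) :
    h q = μ.m (cl M1 q.1.1 q2.1.1) (h q2) := by
  obtain ⟨r, s, r2, r3, r4, r5, s2, s3, s4, s5, hh⟩ := hc
  obtain ⟨a, ha⟩ := r4 _ q.2.1
  obtain ⟨b, hb⟩ := s4 _ q.2.2
  obtain ⟨a2, ha2⟩ := r4 _ q2.2.1
  have hb2 : (q2.1.2, b) ∈ s := by rw [← he]; exact hb
  rw [hh q a b ha hb, hh q2 a2 b ha2 hb2, piso_cl hM1 hM r3 ha ha2 hlt]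
  exact hM.mul _ _ _ ((r3.adj ha ha2).1 hlt) (simLt hS hM hs (r2 ha2).2 (s2 hb).2)

theorem crs_left' (hM1 : AC μ M1) (hM : AC μ M) (hS : Fam μ S) (hs : SimP K S M x y)
    (hc : Crs M1 A1 B1 S M x y h) (q q2 : {q : ℕ × ℕ // q.1 ∈ A1 ∧ q.2 ∈ B1})
    (he : q.1.2 = q2.1.2) (h1 : ¬ Adj M1 q.1.1 q2.1.1) (h2 : ¬ Adj M1 q2.1.1 q.1.1) :
    h q = μ.u (cl M1 q.1.1 q2.1.1) (cl M1 q2.1.1 q.1.1) (h q2) := by
  obtain ⟨r, s, r2, r3, r4, r5, s2, s3, s4, s5, hh⟩ := hc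
  obtain ⟨a, ha⟩ := r4 _ q.2.1
  obtain ⟨b, hb⟩ := s4 _ q.2.2
  obtain ⟨a2, ha2⟩ := r4 _ q2.2.1
  have hb2 : (q2.1.2, b) ∈ s := by rw [← he]; exact hb
  rw [hh q a b ha hb, hh q2 a2 b ha2 hb2, piso_cl' hM1 hM r3 ha ha2, piso_cl' hM1 hM r3 ha2 ha]
  exact hM.bu _ _ _ (fun h3 => h1 ((r3.adj ha ha2).2 h3)) (fun h3 => h2 ((r3.adj ha2 ha).2 h3))
    (simLt hS hM hs (r2 ha2).2 (s2 hb).2)

theorem crs_right' (hM1 : AC μ M1) (hM : AC μ M) (hS : Fam μ S) (hs : SimP K S M x y)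
    (hc : Crs M1 A1 B1 S M x y h) (q q2 : {q : ℕ × ℕ // q.1 ∈ A1 ∧ q.2 ∈ B1})
    (he : q.1.1 = q2.1.1) (h1 : ¬ Adj M1 q.1.2 q2.1.2) (h2 : ¬ Adj M1 q2.1.2 q.1.2) :
    h q2 = μ.d (cl M1 q2.1.2 q.1.2) (cl M1 q.1.2 q2.1.2) (h q) := by
  obtain ⟨r, s, r2, r3, r4, r5, s2, s3, s4, s5, hh⟩ := hc
  obtain ⟨a, ha⟩ := r4 _ q.2.1
  obtain ⟨b, hb⟩ := s4 _ q.2.2
  obtain ⟨b2, hb2⟩ := s4 _ q2.2.2
  have ha2 : (q2.1.1, a) ∈ r := by rw [← he]; exact ha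
  rw [hh q a b ha hb, hh q2 a b2 ha2 hb2, piso_cl' hM1 hM s3 hb hb2, piso_cl' hM1 hM s3 hb2 hb]
  exact hM.br (fun h3 => h2 ((s3.adj hb2 hb).2 h3)) (fun h3 => h1 ((s3.adj hb hb2).2 h3))
    (simLt hS hM hs (r2 ha).2 (s2 hb).2)

theorem crs_right (hM1 : AC μ M1) (hM : AC μ M) (hS : Fam μ S) (hs : SimP K S M x y)
    (hc : Crs M1 A1 B1 S M x y h) (q q2 : {q : ℕ × ℕ // q.1 ∈ A1 ∧ q.2 ∈ B1})
    (he : q.1.1 = q2.1.1) (hlt : Adj M1 q.1.2 q2.1.2) :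
    h q2 = μ.m (h q) (cl M1 q.1.2 q2.1.2) := by
  obtain ⟨r, s, r2, r3, r4, r5, s2, s3, s4, s5, hh⟩ := hc
  obtain ⟨a, ha⟩ := r4 _ q.2.1
  obtain ⟨b, hb⟩ := s4 _ q.2.2
  obtain ⟨b2, hb2⟩ := s4 _ q2.2.2
  have ha2 : (q2.1.1, a) ∈ r := by rw [← he]; exact ha
  rw [hh q a b ha hb, hh q2 a b2 ha2 hb2, piso_cl hM1 hM s3 hb hb2 hlt]
  exact hM.mul _ _ _ (simLt hS hM hs (r2 ha).2 (s2 hb).2) ((s3.adj hb hb2).1 hlt)

theorem crs_fin (hM : AC μ M) (hS : Fam μ S) (hs : SimP K S M x y)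
    (hc : Crs M1 A1 B1 S M x y h) : ∃ F : Finset ℕ, ∀ q, h q ∈ F := by
  obtain ⟨r, s, r2, r3, r4, r5, s2, s3, s4, s5, hh⟩ := hc
  refine ⟨(hM.fin x y).toFinset, fun q => ?_⟩
  obtain ⟨a, ha⟩ := r4 _ q.2.1
  obtain ⟨b, hb⟩ := s4 _ q.2.2
  rw [Set.Finite.mem_toFinset, hh q a b ha hb]
  exact ⟨a, b, (simL hS hM hs (r2 ha).2).1, hM.asymm (simLt hS hM hs (r2 ha).2 (s2 hb).2),
    (simU hS hM hs (s2 hb).2).2, rfl⟩

theorem crs_countable (hM1 : AC μ M1) (hS : Fam μ S) (hK : ∀ M ∈ K, AC μ M) :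
    {h | ∃ M x y, SimP K S M x y ∧ Crs M1 A1 B1 S M x y h}.Countable := by
  have hsub : {h | ∃ M x y, SimP K S M x y ∧ Crs M1 A1 B1 S M x y h} ⊆
      ⋃ F : Finset ℕ, {h | (∃ M x y, SimP K S M x y ∧ Crs M1 A1 B1 S M x y h) ∧
        ∀ q, h q ∈ F} := by
    rintro h ⟨M, x, y, hs, hc⟩
    obtain ⟨F, hF⟩ := crs_fin (hK M hs.mem) hS hs hc
    exact mem_iUnion.2 ⟨F, ⟨M, x, y, hs, hc⟩, hF⟩
  refine (Set.countable_iUnion fun F => ?_).mono hsub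
  refine (fin_fun _ ?_ _ F.finite_toSet ?_).countable
  · rintro ⟨⟨p1, q1⟩, hp1, hq1⟩ ⟨⟨p2, q2⟩, hp2, hq2⟩
    obtain ⟨a, ha, ha1, ha2⟩ : ∃ a ∈ A1, ¬ Adj M1 a p1 ∧ ¬ Adj M1 a p2 := by
      by_cases hc : Adj M1 p1 p2
      · exact ⟨p2, hp2, hM1.asymm hc, hM1.irr p2⟩
      · exact ⟨p1, hp1, hM1.irr p1, hc⟩
    obtain ⟨b, hb, hb1, hb2⟩ : ∃ b ∈ B1, ¬ Adj M1 q1 b ∧ ¬ Adj M1 q2 b := by
      by_cases hc : Adj M1 q1 q2
      · exact ⟨q1, hq1, hM1.irr q1, hM1.asymm hc⟩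
      · exact ⟨q2, hq2, hc, hM1.irr q2⟩
    have step : ∀ h ∈ {h | ∃ M x y, SimP K S M x y ∧ Crs M1 A1 B1 S M x y h},
        ∀ h' ∈ {h | ∃ M x y, SimP K S M x y ∧ Crs M1 A1 B1 S M x y h},
        h ⟨(a, b), ha, hb⟩ = h' ⟨(a, b), ha, hb⟩ → ∀ p (hp : p ∈ A1) q (hq : q ∈ B1),
        ¬ Adj M1 a p → ¬ Adj M1 q b → h ⟨(p, q), hp, hq⟩ = h' ⟨(p, q), hp, hq⟩ := by
      rintro h ⟨M, x, y, hs, hc⟩ h' ⟨M', x', y', hs', hc'⟩ heq p hp q hq hpa hqb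
      have hM := hK M hs.mem
      have hM' := hK M' hs'.mem
      have e1 : h ⟨(p, b), hp, hb⟩ = h' ⟨(p, b), hp, hb⟩ := by
        by_cases hlt : Adj M1 p a
        · rw [crs_left hM1 hM hS hs hc ⟨(p, b), hp, hb⟩ ⟨(a, b), ha, hb⟩ rfl hlt,
            crs_left hM1 hM' hS hs' hc' ⟨(p, b), hp, hb⟩ ⟨(a, b), ha, hb⟩ rfl hlt, heq]
        · rw [crs_left' hM1 hM hS hs hc ⟨(p, b), hp, hb⟩ ⟨(a, b), ha, hb⟩ rfl hlt hpa,
            crs_left' hM1 hM' hS hs' hc' ⟨(p, b), hp, hb⟩ ⟨(a, b), ha, hb⟩ rfl hlt hpa, heq]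
      by_cases hlt : Adj M1 b q
      · rw [crs_right hM1 hM hS hs hc ⟨(p, b), hp, hb⟩ ⟨(p, q), hp, hq⟩ rfl hlt,
          crs_right hM1 hM' hS hs' hc' ⟨(p, b), hp, hb⟩ ⟨(p, q), hp, hq⟩ rfl hlt, e1]
      · rw [crs_right' hM1 hM hS hs hc ⟨(p, b), hp, hb⟩ ⟨(p, q), hp, hq⟩ rfl hlt hqb,
          crs_right' hM1 hM' hS hs' hc' ⟨(p, b), hp, hb⟩ ⟨(p, q), hp, hq⟩ rfl hlt hqb, e1]
    refine ⟨⟨(a, b), ha, hb⟩, ?_⟩
    rintro h ⟨hh, -⟩ h' ⟨hh', -⟩ heq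
    exact ⟨step h hh h' hh' heq p1 hp1 q1 hq1 ha1 hb1,
      step h hh h' hh' heq p2 hp2 q2 hq2 ha2 hb2⟩
  · rintro h ⟨-, hF⟩ q
    exact hF q

/-- simple intervals with the same crossing function are isomorphic -/
theorem crs_iso {N : SM} (hS : Fam μ S) (hM : AC μ M) (hN : AC μ N)
    (hb : ∀ x, (M, Ic M x x) ∈ S) (hb' : ∀ x, (N, Ic N x x) ∈ S)
    (hs : SimP K S M x y) (hs' : SimP K S N x' y') (hc : Crs M1 A1 B1 S M x y h)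
    (hc' : Crs M1 A1 B1 S N x' y' h) : IsoOn M N (Ic M x y) (Ic N x' y') ∅ := by
  obtain ⟨r, s, r2, r3, r4, r5, s2, s3, s4, s5, hh⟩ := hc
  obtain ⟨r', s', r2', r3', r4', r5', s2', s3', s4', s5', hh'⟩ := hc'
  have pr : PIso M N (comp (inv r) r') := r3.symm.comp r3'
  have ps : PIso M N (comp (inv s) s') := s3.symm.comp s3'
  have mr : ∀ a b, (a, b) ∈ comp (inv r) r' → ∃ z, (z, a) ∈ r ∧ (z, b) ∈ r' :=
    fun a b h => h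
  have ms : ∀ a b, (a, b) ∈ comp (inv s) s' → ∃ z, (z, a) ∈ s ∧ (z, b) ∈ s' :=
    fun a b h => h
  have hX : ∀ u ∈ comp (inv r) r', ∀ v ∈ comp (inv s) s', Adj M u.1 v.1 ∧ Adj N u.2 v.2 ∧
      cl M u.1 v.1 = cl N u.2 v.2 := by
    rintro ⟨a, a'⟩ hu ⟨b, b'⟩ hv
    obtain ⟨z, hz1, hz2⟩ := mr a a' hu
    obtain ⟨w, hw1, hw2⟩ := ms b b' hv
    refine ⟨simLt hS hM hs (r2 hz1).2 (s2 hw1).2, simLt hS hN hs' (r2' hz2).2 (s2' hw2).2, ?_⟩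
    rw [← hh ⟨(z, w), (r2 hz1).1, (s2 hw1).1⟩ a b hz1 hw1,
      ← hh' ⟨(z, w), (r2 hz1).1, (s2 hw1).1⟩ a' b' hz2 hw2]
  refine ⟨comp (inv r) r' ∪ comp (inv s) s', empty_subset _, ?_, (piso_iff hM hN).2 ⟨?_, ?_, ?_⟩,
    ?_, ?_⟩
  · rintro ⟨a, b⟩ (hu | hu)
    · obtain ⟨z, hz1, hz2⟩ := mr a b hu
      exact ⟨simL hS hM hs (r2 hz1).2, simL hS hN hs' (r2' hz2).2⟩
    · obtain ⟨z, hz1, hz2⟩ := ms a b hu
      exact ⟨simU hS hM hs (s2 hz1).2, simU hS hN hs' (s2' hz2).2⟩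
  · rintro u (hu | hu) v (hv | hv)
    · exact pr.adj (x := u.1) (x' := u.2) (y := v.1) (y' := v.2) hu hv
    · exact ⟨fun _ => (hX u hu v hv).2.1, fun _ => (hX u hu v hv).1⟩
    · exact ⟨fun h7 => absurd h7 (hM.asymm (hX v hv u hu).1),
        fun h7 => absurd h7 (hN.asymm (hX v hv u hu).2.1)⟩
    · exact ps.adj (x := u.1) (x' := u.2) (y := v.1) (y' := v.2) hu hv
  · rintro u (hu | hu) v (hv | hv) huv
    · exact piso_cl' hM hN pr (x := u.1) (x' := u.2) (y := v.1) (y' := v.2) hu hv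
    · exact (hX u hu v hv).2.2
    · exact absurd (hX v hv u hu).1 huv
    · exact piso_cl' hM hN ps (x := u.1) (x' := u.2) (y := v.1) (y' := v.2) hu hv
  · rintro k u (hu | hu)
    · exact ((piso_iff hM hN).1 pr).2.2 k u hu
    · exact ((piso_iff hM hN).1 ps).2.2 k u hu
  · intro z hz
    rcases simC hS hM hb hs hz with h1 | h1
    · obtain ⟨w, hw⟩ := r5 z h1
      obtain ⟨z', hz'⟩ := r4' w (r2 hw).1
      exact ⟨z', Or.inl ⟨w, hw, hz'⟩⟩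
    · obtain ⟨w, hw⟩ := s5 z h1
      obtain ⟨z', hz'⟩ := s4' w (s2 hw).1
      exact ⟨z', Or.inr ⟨w, hw, hz'⟩⟩
  · intro z hz
    rcases simC hS hN hb' hs' hz with h1 | h1
    · obtain ⟨w, hw⟩ := r5' z h1
      obtain ⟨z', hz'⟩ := r4 w (r2' hw).1
      exact ⟨z', Or.inl ⟨w, hz', hw⟩⟩
    · obtain ⟨w, hw⟩ := s5' z h1
      obtain ⟨z', hz'⟩ := s4 w (s2' hw).1
      exact ⟨z', Or.inr ⟨w, hz', hw⟩⟩

/-- countably many simple intervals with given towers -/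
theorem sim_cnt (hG : G μ α K) (hS : Fam μ S) (hb : ∀ M ∈ K, ∀ x, (M, Ic M x x) ∈ S)
    (P Q : SM × Set ℕ) : ∃ e : ℕ → SM × Set ℕ, ∀ M x y, SimP K S M x y →
      IsoOn P.1 M P.2 (Lw S M x) ∅ → IsoOn Q.1 M Q.2 (Uw S M y) ∅ →
      ∃ n, IsoOn (e n).1 M (e n).2 (Ic M x y) ∅ := by
  classical
  by_cases hex : ∃ M x y, SimP K S M x y ∧ IsoOn P.1 M P.2 (Lw S M x) ∅ ∧
      IsoOn Q.1 M Q.2 (Uw S M y) ∅
  swap
  · refine ⟨fun _ => P, fun M x y h1 h2 h3 => ?_⟩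
    exact absurd ⟨M, x, y, h1, h2, h3⟩ hex
  obtain ⟨M1, x1, y1, hs1, h1, h2⟩ := hex
  have hM1 := hG.os M1 hs1.mem
  have hcnt := crs_countable (A1 := Lw S M1 x1) (B1 := Uw S M1 y1) hM1 hS hG.os
  have hne : {h | ∃ M x y, SimP K S M x y ∧
      Crs M1 (Lw S M1 x1) (Uw S M1 y1) S M x y h}.Nonempty := by
    obtain ⟨h, hh⟩ := crs_ex (S := S) (x := x1) (y := y1) (iso_refl0 (M := M1) (X := Lw S M1 x1))
      (iso_refl0 (M := M1) (X := Uw S M1 y1))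
    exact ⟨h, M1, x1, y1, hs1, hh⟩
  obtain ⟨F, hF⟩ := hcnt.exists_eq_range hne
  have hrep : ∀ n, ∃ T : SM × Set ℕ, ∃ M x y, SimP K S M x y ∧
      Crs M1 (Lw S M1 x1) (Uw S M1 y1) S M x y (F n) ∧ T = (M, Ic M x y) := by
    intro n
    have : F n ∈ {h | ∃ M x y, SimP K S M x y ∧
        Crs M1 (Lw S M1 x1) (Uw S M1 y1) S M x y h} := by
      rw [hF]
      exact mem_range_self n
    obtain ⟨M, x, y, hs, hc⟩ := this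
    exact ⟨(M, Ic M x y), M, x, y, hs, hc, rfl⟩
  choose e he using hrep
  refine ⟨e, fun M x y hs h3 h4 => ?_⟩
  obtain ⟨h, hh⟩ := crs_ex (M1 := M1) (A1 := Lw S M1 x1) (B1 := Uw S M1 y1) (S := S) (M := M)
    (x := x) (y := y) (iso_trans0 (iso_symm0 h1) h3) (iso_trans0 (iso_symm0 h2) h4)
  have hmem : h ∈ {h | ∃ M x y, SimP K S M x y ∧
      Crs M1 (Lw S M1 x1) (Uw S M1 y1) S M x y h} := ⟨M, x, y, hs, hh⟩
  rw [hF] at hmem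
  obtain ⟨n, rfl⟩ := hmem
  refine ⟨n, ?_⟩
  obtain ⟨N, x', y', hs', hc', hT⟩ := he n
  rw [hT]
  exact crs_iso hS (hG.os N hs'.mem) (hG.os M hs.mem) (hb N hs'.mem) (hb M hs.mem) hs' hs hc' hh

theorem t_SIM (hG : G μ α K) (hS : Fam μ S) (hb : ∀ M ∈ K, ∀ x, (M, Ic M x x) ∈ S) :
    ∃ S' : Set (SM × Set ℕ), Fam μ S' ∧ S ⊆ S' ∧ ∀ M ∈ K, ∀ x y, Adj M x y →
    (M, Ic M x y) ∉ S' → ∃ z, Adj M x z ∧ Adj M z y ∧ (M, Ic M x z) ∉ S ∧ (M, Ic M z y) ∉ S := by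
  classical
  obtain ⟨f, hf⟩ := t_TOWC hG hS hb
  obtain ⟨g, hg⟩ := t_TOWR hG hS hb
  obtain ⟨e, he⟩ := hS.cnt
  have hrep : ∀ i j, ∃ r : ℕ → SM × Set ℕ, ∀ M x y, SimP K S M x y →
      IsoOn (f i).1 M (f i).2 (Lw S M x) ∅ → IsoOn (g j).1 M (g j).2 (Uw S M y) ∅ →
      ∃ n, IsoOn (r n).1 M (r n).2 (Ic M x y) ∅ := fun i j => sim_cnt hG hS hb (f i) (g j)
  choose r hr using hrep
  let F : ℕ → SM × Set ℕ := fun n => if n % 2 = 0 then e (n / 2) else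
    r (n / 2).unpair.1 (n / 2).unpair.2.unpair.1 (n / 2).unpair.2.unpair.2
  obtain ⟨S', hS', hF⟩ := t_GENF μ F
  have hS1 : ∀ n, e n ∈ S' := by
    intro n
    have := hF (2 * n)
    simpa [F] using this
  have hS2 : ∀ i j n, r i j n ∈ S' := by
    intro i j n
    have h := hF (2 * Nat.pair i (Nat.pair j n) + 1)
    have h4 : (2 * Nat.pair i (Nat.pair j n) + 1) % 2 = 1 := by omega
    have h5 : (2 * Nat.pair i (Nat.pair j n) + 1) / 2 = Nat.pair i (Nat.pair j n) := by omega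
    simpa [F, h4, h5] using h
  have hsub : S ⊆ S' := by
    rintro ⟨M, X⟩ h
    obtain ⟨n, hn⟩ := he M X h
    exact hS'.iso _ _ _ _ (hS1 n) hn
  refine ⟨S', hS', hsub, ?_⟩
  intro M hM x y hxy hn
  by_contra hcon
  apply hn
  have hs : SimP K S M x y := by
    refine ⟨hM, hxy, fun h => hn (hsub h), ?_⟩
    intro z hxz hzy
    by_contra h4
    rw [not_or] at h4
    exact hcon ⟨z, hxz, hzy, h4.1, h4.2⟩
  obtain ⟨i, hi⟩ := hf M hM x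
  obtain ⟨j, hj⟩ := hg M hM y
  obtain ⟨n, hn⟩ := hr i j M x y hs hi hj
  exact hS'.iso _ _ _ _ (hS2 i j n) hn

theorem t_CNT (hG : G μ α K) (hS : Fam μ S) (hblk : ∀ M ∈ K, ∀ x, (M, Ic M x x) ∈ S)
    (ξ : Ordinal.{0}) : ξ < Ordinal.omega 1 → ∃ S' : Set (SM × Set ℕ), Fam μ S' ∧ S ⊆ S' ∧
    ∀ M ∈ K, ∀ x y, Adj M x y → ¬ Rr (Bg S M) ξ x y → (M, Ic M x y) ∈ S' := by
  induction ξ using WellFoundedLT.induction with
  | ind ξ ih =>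
    intro hξ
    have hc := cnt_countable hξ
    have ih' : ∀ i : Set.Iio ξ, ∃ S' : Set (SM × Set ℕ), Fam μ S' ∧ S ⊆ S' ∧
        ∀ M ∈ K, ∀ x y, Adj M x y → ¬ Rr (Bg S M) i.1 x y → (M, Ic M x y) ∈ S' :=
      fun i => ih i.1 i.2 (lt_trans i.2 hξ)
    choose T hTf hTS hT using ih'
    have hsim : ∀ i : Set.Iio ξ, ∃ S' : Set (SM × Set ℕ), Fam μ S' ∧ T i ⊆ S' ∧
        ∀ M ∈ K, ∀ x y, Adj M x y → (M, Ic M x y) ∉ S' →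
          ∃ z, Adj M x z ∧ Adj M z y ∧ (M, Ic M x z) ∉ T i ∧ (M, Ic M z y) ∉ T i :=
      fun i => t_SIM hG (hTf i) (fun M hM x => hTS i (hblk M hM x))
    choose T' hT'f hT'T hT' using hsim
    obtain ⟨S', hS'f, hS'⟩ := t_GENU μ (Option (Set.Iio ξ))
      (fun o => match o with
        | none => S
        | some i => T' i) (by
          intro o
          cases o with
          | none => exact hS
          | some i => exact hT'f i)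
    refine ⟨S', hS'f, hS' none, ?_⟩
    intro M hM x y hxy hr
    by_cases hmem : (M, Ic M x y) ∈ S
    · exact hS' none hmem
    · rw [Rr] at hr
      have h3 : ¬ ∀ o' : Ordinal.{0}, ∀ _h : o' < ξ, ∃ z, Rr (Bg S M) o' x z ∧
          Rr (Bg S M) o' z y := fun h => hr ⟨⟨hxy, hmem⟩, h⟩
      push Not at h3
      obtain ⟨o', ho', h4⟩ := h3
      apply hS' (some ⟨o', ho'⟩)
      show (M, Ic M x y) ∈ T' ⟨o', ho'⟩
      by_contra hcon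
      obtain ⟨z, hxz, hzy, hz1, hz2⟩ := hT' ⟨o', ho'⟩ M hM x y hxy hcon
      have e1 : Rr (Bg S M) o' x z := by
        by_contra h
        exact hz1 (hT ⟨o', ho'⟩ M hM x z hxz h)
      have e2 : Rr (Bg S M) o' z y := by
        by_contra h
        exact hz2 (hT ⟨o', ho'⟩ M hM z y hzy h)
      exact h4 z e1 e2

end Pool.Agent.N643.AX
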