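import Pool.Agent.N643.AX.Ends

set_option autoImplicit false

/-!
# Surgery: replacing the structure on disjoint closed intervals
-/

namespace Pool.Agent.N643.AX

open Set
open Pool.Agent.H899R2.VP
open Pool.Agent.H533R2.VO (Ic Ge Le Gt Lt Lev Lw Uw Lx NoLast Mt Cls Cl Rk Rr Bg rev revS resBF
  resIso resGe resLe resGt resLt resIc resIsoLt resIsoIc resIsoGe bf_id bf_comp0 bf_comp1 bf_comp2
  bf_symm0 bf_symm1 bf_symm2 iso_symm0 iso_trans0 iso_refl0 bf_mem_right bf_mem_left mem_Ic mem_Ge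
  mem_Le Lw_ge mem_Lx rev_iso rev_bf rev_Ic rev_cont rev_Lw cnt_countable)
open Pool.Agent.H566P (ar R2 v2 lt ac co mk)
open Pool.Agent.Y560.TG (lt_mk ac_mk co_mk)

variable {μ : Par}

theorem cl_raw {M N : SM} {p : Set (ℕ × ℕ)} (h : PIso M N p) {x x' y y' : ℕ} (hx : (x, x') ∈ p)
    (hy : (y, y') ∈ p) : cl M x y = cl N x' y' := by
  unfold cl
  congr 1
  ext s
  exact (piso_raw.1 h).2.2.2.1 s _ hx _ hy

/-- structures equivalent to coloured orders are coloured orders -/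
theorem ac_of_bf {M D : SM} (hM : AC μ M) (hb : BF M D univ univ Ordinal.omega0 ∅) : AC μ D := by
  have hn : ∀ n : ℕ, (n : Ordinal.{0}) < Ordinal.omega0 := Ordinal.natCast_lt_omega0
  have e21 : ((1 : ℕ) : Ordinal.{0}) < ((2 : ℕ) : Ordinal.{0}) := Nat.cast_lt.2 (by norm_num)
  have e32 : ((2 : ℕ) : Ordinal.{0}) < ((3 : ℕ) : Ordinal.{0}) := Nat.cast_lt.2 (by norm_num)
  have e43 : ((3 : ℕ) : Ordinal.{0}) < ((4 : ℕ) : Ordinal.{0}) := Nat.cast_lt.2 (by norm_num)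
  have e10 : ((0 : ℕ) : Ordinal.{0}) < ((1 : ℕ) : Ordinal.{0}) := Nat.cast_lt.2 (by norm_num)
  have two : ∀ x y, ∃ x' y', BF M D univ univ ((2 : ℕ) : Ordinal.{0})
      {(y', y), (x', x)} := by
    intro x y
    obtain ⟨x', -, h1⟩ := hb.back (hn 3) (mem_univ x)
    obtain ⟨y', -, h2⟩ := h1.back e32 (mem_univ y)
    exact ⟨x', y', by rw [insert_empty_eq] at h2; exact h2⟩
  have tri : ∀ x y z, ∃ x' y' z', PIso M D {(z', z), (y', y), (x', x)} := by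
    intro x y z
    obtain ⟨x', y', h⟩ := two x y
    obtain ⟨z', -, h2⟩ := h.back e21 (mem_univ z)
    exact ⟨x', y', z', h2.piso⟩
  have tri' : ∀ x y z, ∃ x' y' z' : ℕ, ∃ p : Set (ℕ × ℕ), PIso M D p ∧ (x', x) ∈ p ∧
      (y', y) ∈ p ∧ (z', z) ∈ p := by
    intro x y z
    obtain ⟨x', y', z', h⟩ := tri x y z
    exact ⟨x', y', z', _, h, Or.inr (Or.inr rfl), Or.inr (Or.inl rfl), Or.inl rfl⟩
  refine ⟨?_, ?_, ?_, ?_, ?_, ?_, ?_, ?_, ?_, ?_, ?_, ?_, ?_⟩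
  · intro x h
    obtain ⟨x', -, -, p, h1, h2, -, -⟩ := tri' x x x
    exact hM.irr x' ((h1.adj h2 h2).2 h)
  · intro x y z h1 h2
    obtain ⟨x', y', z', p, h, mx, my, mz⟩ := tri' x y z
    exact (h.adj mx mz).1 (hM.tr _ _ _ ((h.adj mx my).2 h1) ((h.adj my mz).2 h2))
  · intro x y z h1
    obtain ⟨x', y', z', p, h, mx, my, mz⟩ := tri' x y z
    rcases hM.ntr x' y' z' ((h.adj mx mz).2 h1) with h2 | h2
    · exact Or.inl ((h.adj mx my).1 h2)
    · exact Or.inr ((h.adj my mz).1 h2)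
  · intro x y h1
    obtain ⟨x', y', -, p, h, mx, my, -⟩ := tri' x y y
    exact hM.nl x' y' (((piso_raw.1 h).2.2.1 _ mx _ my).2 h1)
  · intro x y h1
    obtain ⟨x', y', -, p, h, mx, my, -⟩ := tri' x y y
    rw [← cl_raw h mx my, ← cl_raw h my mx]
    exact hM.sy _ _ ((h.adj mx my).2 h1)
  · intro s x y
    obtain ⟨x', y', -, p, h, mx, my, -⟩ := tri' x y y
    rw [← (piso_raw.1 h).2.2.2.1 s _ mx _ my, hM.col, cl_raw h mx my]
  · intro x y z h1 h2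
    obtain ⟨x', y', z', p, h, mx, my, mz⟩ := tri' x y z
    rw [← cl_raw h mx mz, ← cl_raw h mx my, ← cl_raw h my mz]
    exact hM.mul _ _ _ ((h.adj mx my).2 h1) ((h.adj my mz).2 h2)
  · intro x y z h1 h2 h3
    obtain ⟨x', y', z', p, h, mx, my, mz⟩ := tri' x y z
    rw [← cl_raw h mx mz, ← cl_raw h mx my, ← cl_raw h my mx, ← cl_raw h my mz]
    exact hM.bu _ _ _ (fun h4 => h1 ((h.adj mx my).1 h4)) (fun h4 => h2 ((h.adj my mx).1 h4))
      ((h.adj my mz).2 h3)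
  · intro x y z h1 h2 h3
    obtain ⟨x', y', z', p, h, mx, my, mz⟩ := tri' x y z
    rw [← cl_raw h mx mz, ← cl_raw h mx my, ← cl_raw h my mx, ← cl_raw h my mz]
    exact hM.bd _ _ _ (fun h4 => h1 ((h.adj mx my).1 h4)) (fun h4 => h2 ((h.adj my mx).1 h4))
      ((h.adj mz my).2 h3)
  · intro x y z h1 h2 h3 h5
    obtain ⟨x', y', z', p, h, mx, my, mz⟩ := tri' x y z
    rw [← cl_raw h mx mz, ← cl_raw h mx my, ← cl_raw h my mx, ← cl_raw h my mz,
      ← cl_raw h mz my]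
    exact hM.bb _ _ _ (fun h4 => h1 ((h.adj mx my).1 h4)) (fun h4 => h2 ((h.adj my mx).1 h4))
      (fun h4 => h3 ((h.adj mz my).1 h4)) (fun h4 => h5 ((h.adj my mz).1 h4))
  · intro x y k h1 h2
    obtain ⟨x', y', -, p, h, mx, my, -⟩ := tri' x y y
    rw [← (piso_raw.1 h).2.2.2.2 k _ mx, ← cl_raw h mx my, ← cl_raw h my mx,
      ← (piso_raw.1 h).2.2.2.2 _ _ my]
    exact hM.una _ _ _ (fun h4 => h1 ((h.adj mx my).1 h4)) (fun h4 => h2 ((h.adj my mx).1 h4))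
  · intro x y z h1 h2 h3 h5 h6
    obtain ⟨x', y', z', p, h, mx, my, mz⟩ := tri' x y z
    rw [← cl_raw h mx my, ← cl_raw h mx mz] at h6
    have h7 := hM.rig _ _ _ (fun h4 => h1 ((h.adj mx my).1 h4))
      (fun h4 => h2 ((h.adj my mx).1 h4)) (fun h4 => h3 ((h.adj mx mz).1 h4))
      (fun h4 => h5 ((h.adj mz mx).1 h4)) h6
    exact h.snd_eq my mz h7
  · intro x y
    obtain ⟨x', y', h⟩ := two x y
    refine (hM.fin x' y').subset ?_
    rintro s ⟨p, q, h1, h2, h3, h4⟩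
    obtain ⟨p', -, h5⟩ := h.back e21 (mem_univ p)
    obtain ⟨q', -, h6⟩ := h5.back e10 (mem_univ q)
    have mq : (q', q) ∈ ({(q', q), (p', p), (y', y), (x', x)} : Set (ℕ × ℕ)) := Or.inl rfl
    have mp : (p', p) ∈ ({(q', q), (p', p), (y', y), (x', x)} : Set (ℕ × ℕ)) :=
      Or.inr (Or.inl rfl)
    have my : (y', y) ∈ ({(q', q), (p', p), (y', y), (x', x)} : Set (ℕ × ℕ)) :=
      Or.inr (Or.inr (Or.inl rfl))
    have mx : (x', x) ∈ ({(q', q), (p', p), (y', y), (x', x)} : Set (ℕ × ℕ)) :=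
      Or.inr (Or.inr (Or.inr rfl))
    refine ⟨p', q', fun h => h1 ((h6.piso.adj mp mx).1 h), fun h => h2 ((h6.piso.adj mq mp).1 h),
      fun h => h3 ((h6.piso.adj my mq).1 h), ?_⟩
    rw [cl_raw h6.piso mp mq]
    exact h4

theorem conv {M : SM} (hM : AC μ M) {l h x y : ℕ} (hx : x ∈ Ic M l h) (hy : y ∉ Ic M l h) :
    (Adj M y x ∧ ∀ w ∈ Ic M l h, Adj M y w) ∨ (Adj M x y ∧ ∀ w ∈ Ic M l h, Adj M w y) := by
  have hy' : Adj M y l ∨ Adj M h y := by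
    by_contra hc
    rw [not_or] at hc
    exact hy ⟨hc.1, hc.2⟩
  rcases hy' with h1 | h1
  · left
    have h2 : ∀ w ∈ Ic M l h, Adj M y w := fun w hw => hM.lt_le h1 hw.1
    exact ⟨h2 x hx, h2⟩
  · right
    have h2 : ∀ w ∈ Ic M l h, Adj M w y := fun w hw => hM.le_lt hw.2 h1
    exact ⟨h2 x hx, h2⟩

section surg

variable {ι : Type} {M : SM} {lo hi : ι → ℕ} {T : ι → SM}

open Classical in
/-- the structure at `x` -/
noncomputable def Rt (M : SM) (lo hi : ι → ℕ) (T : ι → SM) (x : ℕ) : SM :=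
  if h : ∃ j, x ∈ Ic M (lo j) (hi j) then T h.choose else M

open Classical in
/-- the lower end of the part of `x` -/
noncomputable def Rl (M : SM) (lo hi : ι → ℕ) (x : ℕ) : ℕ :=
  if h : ∃ j, x ∈ Ic M (lo j) (hi j) then lo h.choose else x

open Classical in
/-- the upper end of the part of `x` -/
noncomputable def Rh (M : SM) (lo hi : ι → ℕ) (x : ℕ) : ℕ :=
  if h : ∃ j, x ∈ Ic M (lo j) (hi j) then hi h.choose else x

open Classical in
/-- multiply by the colour of `(x, e)` from the left -/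
noncomputable def ml (μ : Par) (N : SM) (x e s : ℕ) : ℕ :=
  if Adj N x e then μ.m (cl N x e) s else μ.u (cl N x e) (cl N e x) s

open Classical in
/-- multiply by the colour of `(i, z)` from the right -/
noncomputable def mr (μ : Par) (N : SM) (i z s : ℕ) : ℕ :=
  if Adj N i z then μ.m s (cl N i z) else μ.d (cl N z i) (cl N i z) s

/-- the colour of `x < z` in different parts -/
noncomputable def CC (μ : Par) (M : SM) (lo hi : ι → ℕ) (T : ι → SM) (x z : ℕ) : ℕ :=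
  ml μ (Rt M lo hi T x) x (Rh M lo hi x) (mr μ (Rt M lo hi T z) (Rl M lo hi z) z
    (cl M (Rh M lo hi x) (Rl M lo hi z)))

open Classical in
/-- the colour of `x, z` in different parts -/
noncomputable def XC (μ : Par) (M : SM) (lo hi : ι → ℕ) (T : ι → SM) (x z : ℕ) : ℕ :=
  if Adj M x z then CC μ M lo hi T x z else
    if Adj M z x then CC μ M lo hi T z x else cl M x z

/-- `x` and `y` are in the same interval -/
def Sa (M : SM) (lo hi : ι → ℕ) (x y : ℕ) : Prop :=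
  ∃ j, x ∈ Ic M (lo j) (hi j) ∧ y ∈ Ic M (lo j) (hi j)

/-- the relational part of the new structure -/
noncomputable def RD2 (μ : Par) (M : SM) (lo hi : ι → ℕ) (T : ι → SM) : R2 :=
  mk (fun x y => Sa M lo hi x y ∧ lt (Rt M lo hi T x).2 x y)
    (fun s x y => (Sa M lo hi x y ∧ ac (Rt M lo hi T x).2 s x y) ∨
      (¬ Sa M lo hi x y ∧ XC μ M lo hi T x y = s))
    (fun k x => co (Rt M lo hi T x).2 k x)

open Classical in
/-- Replace, for every `j`, the structure on `[lo j, hi j]` by that of `T j`. -/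
noncomputable def RD (μ : Par) (M : SM) (lo hi : ι → ℕ) (T : ι → SM) : SM :=
  (fun x y => if Sa M lo hi x y then (Rt M lo hi T x).1 x y else M.1 x y, RD2 μ M lo hi T)

theorem RD_adj1 {x y : ℕ} (h : Sa M lo hi x y) :
    Adj (RD μ M lo hi T) x y ↔ Adj (Rt M lo hi T x) x y := by
  unfold Adj RD
  simp only [if_pos h]

theorem RD_adj0 {x y : ℕ} (h : ¬ Sa M lo hi x y) :
    Adj (RD μ M lo hi T) x y ↔ Adj M x y := by
  unfold Adj RD
  simp only [if_neg h]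

theorem RD_lt {x y : ℕ} : lt (RD μ M lo hi T).2 x y ↔
    Sa M lo hi x y ∧ lt (Rt M lo hi T x).2 x y := by
  show lt (RD2 μ M lo hi T) x y ↔ _
  unfold RD2
  rw [lt_mk]

theorem RD_ac {s x y : ℕ} : ac (RD μ M lo hi T).2 s x y ↔
    (Sa M lo hi x y ∧ ac (Rt M lo hi T x).2 s x y) ∨
       (¬ Sa M lo hi x y ∧ XC μ M lo hi T x y = s) := by
  show ac (RD2 μ M lo hi T) s x y ↔ _
  unfold RD2
  rw [ac_mk]

theorem RD_ac1 {s x y : ℕ} (h : Sa M lo hi x y) : ac (RD μ M lo hi T).2 s x y ↔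
    ac (Rt M lo hi T x).2 s x y := by
  rw [RD_ac]
  constructor
  · rintro (h1 | h1)
    · exact h1.2
    · exact absurd h h1.1
  · exact fun h1 => Or.inl ⟨h, h1⟩

theorem RD_ac0 {s x y : ℕ} (h : ¬ Sa M lo hi x y) : ac (RD μ M lo hi T).2 s x y ↔
    XC μ M lo hi T x y = s := by
  rw [RD_ac]
  constructor
  · rintro (h1 | h1)
    · exact absurd h1.1 h
    · exact h1.2
  · exact fun h1 => Or.inr ⟨h, h1⟩

theorem RD_co {k x : ℕ} : co (RD μ M lo hi T).2 k x ↔ co (Rt M lo hi T x).2 k x := by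
  show co (RD2 μ M lo hi T) k x ↔ _
  unfold RD2
  rw [co_mk]

theorem R_out {x : ℕ} (h : ∀ j, x ∉ Ic M (lo j) (hi j)) :
    Rt M lo hi T x = M ∧ Rl M lo hi x = x ∧ Rh M lo hi x = x := by
  have h' : ¬ ∃ j, x ∈ Ic M (lo j) (hi j) := fun ⟨j, hj⟩ => h j hj
  unfold Rt Rl Rh
  rw [dif_neg h', dif_neg h', dif_neg h']
  exact ⟨rfl, rfl, rfl⟩

theorem R_in (dj : ∀ i j, i ≠ j → Disjoint (Ic M (lo i) (hi i)) (Ic M (lo j) (hi j)))
    {x : ℕ} {j : ι} (h : x ∈ Ic M (lo j) (hi j)) :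
    Rt M lo hi T x = T j ∧ Rl M lo hi x = lo j ∧ Rh M lo hi x = hi j := by
  have h' : ∃ j, x ∈ Ic M (lo j) (hi j) := ⟨j, h⟩
  have e : h'.choose = j := by
    by_contra hne
    exact Set.disjoint_left.1 (dj _ _ hne) h'.choose_spec h
  unfold Rt Rl Rh
  rw [dif_pos h', dif_pos h', dif_pos h', e]
  exact ⟨rfl, rfl, rfl⟩

theorem Rt_congr {T' : ι → SM} {x : ℕ} (h : ∀ j, x ∈ Ic M (lo j) (hi j) → T j = T' j) :
    Rt M lo hi T x = Rt M lo hi T' x := by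
  unfold Rt
  by_cases h' : ∃ j, x ∈ Ic M (lo j) (hi j)
  · rw [dif_pos h', dif_pos h', h _ h'.choose_spec]
  · rw [dif_neg h', dif_neg h']

/-- The assumptions on the intervals. -/
structure GI (μ : Par) (M : SM) (lo hi : ι → ℕ) : Prop where
  os : AC μ M
  le : ∀ j, ¬ Adj M (hi j) (lo j)
  dj : ∀ i j, i ≠ j → Disjoint (Ic M (lo i) (hi i)) (Ic M (lo j) (hi j))

theorem GI.lo_mem (hG : GI μ M lo hi) (j : ι) : lo j ∈ Ic M (lo j) (hi j) :=
  left_mem_Ic hG.os (hG.le j)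

theorem GI.hi_mem (hG : GI μ M lo hi) (j : ι) : hi j ∈ Ic M (lo j) (hi j) :=
  right_mem_Ic hG.os (hG.le j)

theorem R_le (hG : GI μ M lo hi) (x : ℕ) :
    ¬ Adj M (Rh M lo hi x) x ∧ ¬ Adj M x (Rl M lo hi x) := by
  by_cases h : ∃ j, x ∈ Ic M (lo j) (hi j)
  · obtain ⟨j, hj⟩ := h
    obtain ⟨-, h2, h3⟩ := R_in (T := fun _ => M) hG.dj hj
    rw [h2, h3]
    exact ⟨hj.2, hj.1⟩
  · obtain ⟨-, h2, h3⟩ := R_out (T := fun _ => M) (x := x) fun j hj => h ⟨j, hj⟩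
    rw [h2, h3]
    exact ⟨hG.os.irr x, hG.os.irr x⟩

theorem R_lt (hG : GI μ M lo hi) {x z : ℕ} (hs : ¬ Sa M lo hi x z) :
    Adj M x z ↔ Adj M (Rh M lo hi x) (Rl M lo hi z) := by
  have hM := hG.os
  constructor
  · intro h
    have h1 : Adj M (Rh M lo hi x) z := by
      by_cases hx : ∃ j, x ∈ Ic M (lo j) (hi j)
      · obtain ⟨j, hj⟩ := hx
        obtain ⟨-, -, h3⟩ := R_in (T := fun _ => M) hG.dj hj
        rw [h3]
        rcases conv hM hj (y := z) (fun hz => hs ⟨j, hj, hz⟩) with h4 | h4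
        · exact absurd h4.1 (hM.asymm h)
        · exact h4.2 _ (hG.hi_mem j)
      · obtain ⟨-, -, h3⟩ := R_out (T := fun _ => M) (x := x) fun j hj => hx ⟨j, hj⟩
        rw [h3]
        exact h
    by_cases hz : ∃ j, z ∈ Ic M (lo j) (hi j)
    · obtain ⟨j, hj⟩ := hz
      obtain ⟨-, h3, -⟩ := R_in (T := fun _ => M) hG.dj hj
      rw [h3]
      have h5 : Rh M lo hi x ∉ Ic M (lo j) (hi j) := by
        intro h6
        by_cases hx : ∃ i, x ∈ Ic M (lo i) (hi i)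
        · obtain ⟨i, hi'⟩ := hx
          obtain ⟨-, -, h7⟩ := R_in (T := fun _ => M) hG.dj hi'
          rw [h7] at h6
          by_cases hij : i = j
          · subst hij
            exact hs ⟨i, hi', hj⟩
          · exact Set.disjoint_left.1 (hG.dj i j hij) (hG.hi_mem i) h6
        · obtain ⟨-, -, h7⟩ := R_out (T := fun _ => M) (x := x) fun j hj => hx ⟨j, hj⟩
          rw [h7] at h6
          exact hx ⟨j, h6⟩
      rcases conv hM hj h5 with h4 | h4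
      · exact h4.2 _ (hG.lo_mem j)
      · exact absurd h4.1 (hM.asymm h1)
    · obtain ⟨-, h3, -⟩ := R_out (T := fun _ => M) (x := z) fun j hj => hz ⟨j, hj⟩
      rw [h3]
      exact h1
  · intro h
    exact hM.le_lt (R_le hG x).1 (hM.lt_le h (R_le hG z).2)

theorem R_cl (hG : GI μ M lo hi) {x z : ℕ} (hs : ¬ Sa M lo hi x z) (hxz : Adj M x z) :
    cl M x z = ml μ M x (Rh M lo hi x) (mr μ M (Rl M lo hi z) z
      (cl M (Rh M lo hi x) (Rl M lo hi z))) := by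
  have hM := hG.os
  have h1 := (R_lt hG hs).1 hxz
  have e1 : cl M (Rh M lo hi x) z = mr μ M (Rl M lo hi z) z
      (cl M (Rh M lo hi x) (Rl M lo hi z)) := by
    unfold mr
    by_cases h : Adj M (Rl M lo hi z) z
    · rw [if_pos h]
      exact hM.mul _ _ _ h1 h
    · rw [if_neg h]
      exact hM.br (R_le hG z).2 h h1
  rw [← e1]
  unfold ml
  by_cases h : Adj M x (Rh M lo hi x)
  · rw [if_pos h]
    exact hM.mul _ _ _ h (hM.lt_le h1 (R_le hG z).2)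
  · rw [if_neg h]
    exact hM.bu _ _ _ h (R_le hG x).1 (hM.lt_le h1 (R_le hG z).2)

/-- the part of `p` in the `j`-th interval, with the end points -/
def pj (M : SM) (lo hi : ι → ℕ) (p : Set (ℕ × ℕ)) (j : ι) : Set (ℕ × ℕ) :=
  insert (lo j, lo j) (insert (hi j, hi j) {w | w ∈ p ∧ w.1 ∈ Ic M (lo j) (hi j)})

/-- `p` respects the intervals, and is the identity outside -/
structure Np (M : SM) (lo hi : ι → ℕ) (p : Set (ℕ × ℕ)) : Prop where
  a : ∀ w ∈ p, ∀ j, (w.1 ∈ Ic M (lo j) (hi j) ↔ w.2 ∈ Ic M (lo j) (hi j))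
  b : ∀ w ∈ p, (∀ j, w.1 ∉ Ic M (lo j) (hi j)) → w.1 = w.2

theorem RD_piso (hG : GI μ M lo hi) {p : Set (ℕ × ℕ)} (hN : Np M lo hi p)
    (h : ∀ j, PIso M (T j) (pj M lo hi p j)) : PIso M (RD μ M lo hi T) p := by
  have hM := hG.os
  -- ends
  have hR : ∀ u ∈ p, Rl M lo hi u.1 = Rl M lo hi u.2 ∧ Rh M lo hi u.1 = Rh M lo hi u.2 := by
    intro u hu
    by_cases hx : ∃ j, u.1 ∈ Ic M (lo j) (hi j)
    · obtain ⟨j, hj⟩ := hx
      obtain ⟨-, h2, h3⟩ := R_in (T := T) hG.dj hj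
      obtain ⟨-, h4, h5⟩ := R_in (T := T) hG.dj ((hN.a u hu j).1 hj)
      rw [h2, h3, h4, h5]
      exact ⟨rfl, rfl⟩
    · rw [hN.b u hu fun j hj => hx ⟨j, hj⟩]
      exact ⟨rfl, rfl⟩
  have hml : ∀ u ∈ p, ∀ s, ml μ M u.1 (Rh M lo hi u.1) s =
      ml μ (Rt M lo hi T u.2) u.2 (Rh M lo hi u.2) s := by
    intro u hu s
    by_cases hx : ∃ j, u.1 ∈ Ic M (lo j) (hi j)
    · obtain ⟨j, hj⟩ := hx
      obtain ⟨-, h2, h3⟩ := R_in (T := T) hG.dj hj
      obtain ⟨h6, h4, h5⟩ := R_in (T := T) hG.dj ((hN.a u hu j).1 hj)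
      rw [h3, h5, h6]
      have mu : (u.1, u.2) ∈ pj M lo hi p j := Or.inr (Or.inr ⟨hu, hj⟩)
      have mh : (hi j, hi j) ∈ pj M lo hi p j := Or.inr (Or.inl rfl)
      have e1 := (h j).adj mu mh
      unfold ml
      by_cases h7 : Adj M u.1 (hi j)
      · rw [if_pos h7, if_pos (e1.1 h7), cl_raw (h j) mu mh]
      · rw [if_neg h7, if_neg fun h8 => h7 (e1.2 h8), cl_raw (h j) mu mh, cl_raw (h j) mh mu]
    · have h1 : ∀ j, u.1 ∉ Ic M (lo j) (hi j) := fun j hj => hx ⟨j, hj⟩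
      have h2 := hN.b u hu h1
      obtain ⟨h3, h4, h5⟩ := R_out (T := T) h1
      rw [← h2, h3]
  have hmr : ∀ u ∈ p, ∀ s, mr μ M (Rl M lo hi u.1) u.1 s =
      mr μ (Rt M lo hi T u.2) (Rl M lo hi u.2) u.2 s := by
    intro u hu s
    by_cases hx : ∃ j, u.1 ∈ Ic M (lo j) (hi j)
    · obtain ⟨j, hj⟩ := hx
      obtain ⟨-, h2, h3⟩ := R_in (T := T) hG.dj hj
      obtain ⟨h6, h4, h5⟩ := R_in (T := T) hG.dj ((hN.a u hu j).1 hj)
      rw [h2, h4, h6]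
      have mu : (u.1, u.2) ∈ pj M lo hi p j := Or.inr (Or.inr ⟨hu, hj⟩)
      have mh : (lo j, lo j) ∈ pj M lo hi p j := Or.inl rfl
      have e1 := (h j).adj mh mu
      unfold mr
      by_cases h7 : Adj M (lo j) u.1
      · rw [if_pos h7, if_pos (e1.1 h7), cl_raw (h j) mh mu]
      · rw [if_neg h7, if_neg fun h8 => h7 (e1.2 h8), cl_raw (h j) mu mh, cl_raw (h j) mh mu]
    · have h1 : ∀ j, u.1 ∉ Ic M (lo j) (hi j) := fun j hj => hx ⟨j, hj⟩
      have h2 := hN.b u hu h1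
      obtain ⟨h3, h4, h5⟩ := R_out (T := T) h1
      rw [← h2, h3]
  -- same part
  have hsame : ∀ u ∈ p, ∀ v ∈ p, (Sa M lo hi u.1 v.1 ↔ Sa M lo hi u.2 v.2) := by
    intro u hu v hv
    constructor
    · rintro ⟨j, h1, h2⟩
      exact ⟨j, (hN.a u hu j).1 h1, (hN.a v hv j).1 h2⟩
    · rintro ⟨j, h1, h2⟩
      exact ⟨j, (hN.a u hu j).2 h1, (hN.a v hv j).2 h2⟩
  have hin : ∀ u ∈ p, ∀ v ∈ p, Sa M lo hi u.1 v.1 → ∃ j, Rt M lo hi T u.2 = T j ∧
      (u.1, u.2) ∈ pj M lo hi p j ∧ (v.1, v.2) ∈ pj M lo hi p j := by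
    rintro u hu v hv ⟨j, h1, h2⟩
    exact ⟨j, (R_in (T := T) hG.dj ((hN.a u hu j).1 h1)).1, Or.inr (Or.inr ⟨hu, h1⟩),
      Or.inr (Or.inr ⟨hv, h2⟩)⟩
  have hadj : ∀ u ∈ p, ∀ v ∈ p, ¬ Sa M lo hi u.1 v.1 → (Adj M u.1 v.1 ↔ Adj M u.2 v.2) := by
    intro u hu v hv hs
    rw [R_lt hG hs, R_lt hG fun h => hs ((hsame u hu v hv).2 h), (hR u hu).2, (hR v hv).1]
  have hne : ∀ u ∈ p, ∀ v ∈ p, ¬ Sa M lo hi u.1 v.1 → (u.1 = v.1 ↔ u.2 = v.2) := by
    intro u hu v hv hs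
    constructor
    · intro e
      have h1 : ∀ j, u.1 ∉ Ic M (lo j) (hi j) := fun j hj => hs ⟨j, hj, e ▸ hj⟩
      rw [← hN.b u hu h1, ← hN.b v hv (e ▸ h1)]
      exact e
    · intro e
      have h1 : ∀ j, u.1 ∉ Ic M (lo j) (hi j) := fun j hj => hs ⟨j, hj, by
        rw [hN.a v hv j, ← e]; exact (hN.a u hu j).1 hj⟩
      have h2 : ∀ j, v.1 ∉ Ic M (lo j) (hi j) := fun j hj => h1 j (by
        rw [hN.a u hu j, e]; exact (hN.a v hv j).1 hj)
      rw [hN.b u hu h1, hN.b v hv h2]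
      exact e
  have hcol : ∀ u ∈ p, ∀ v ∈ p, ¬ Sa M lo hi u.1 v.1 → Adj M u.1 v.1 →
      cl M u.1 v.1 = CC μ M lo hi T u.2 v.2 := by
    intro u hu v hv hs huv
    rw [R_cl hG hs huv, hml u hu, hmr v hv, (hR u hu).2, (hR v hv).1]
    rfl
  have hsy : ∀ x y, Sa M lo hi x y → Sa M lo hi y x := fun x y ⟨j, h1, h2⟩ => ⟨j, h2, h1⟩
  rw [piso_raw]
  refine ⟨?_, ?_, ?_, ?_, ?_⟩
  · intro u hu v hv
    by_cases hs : Sa M lo hi u.1 v.1
    · obtain ⟨j, h1, h2, h3⟩ := hin u hu v hv hs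
      exact (h j).1 _ h2 _ h3
    · exact hne u hu v hv hs
  · intro u hu v hv
    by_cases hs : Sa M lo hi u.1 v.1
    · obtain ⟨j, h1, h2, h3⟩ := hin u hu v hv hs
      rw [RD_adj1 ((hsame u hu v hv).1 hs), h1]
      exact (h j).adj h2 h3
    · rw [RD_adj0 fun h => hs ((hsame u hu v hv).2 h)]
      exact hadj u hu v hv hs
  · intro u hu v hv
    rw [RD_lt]
    by_cases hs : Sa M lo hi u.1 v.1
    · obtain ⟨j, h1, h2, h3⟩ := hin u hu v hv hs
      rw [h1]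
      have h4 := (piso_raw.1 (h j)).2.2.1 _ h2 _ h3
      constructor
      · exact fun h5 => ⟨(hsame u hu v hv).1 hs, h4.1 h5⟩
      · exact fun h5 => h4.2 h5.2
    · constructor
      · exact fun h5 => absurd h5 (hM.nl _ _)
      · exact fun h5 => absurd ((hsame u hu v hv).2 h5.1) hs
  · intro s u hu v hv
    by_cases hs : Sa M lo hi u.1 v.1
    · obtain ⟨j, h1, h2, h3⟩ := hin u hu v hv hs
      rw [RD_ac1 ((hsame u hu v hv).1 hs), h1]
      exact (piso_raw.1 (h j)).2.2.2.1 s _ h2 _ h3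
    · rw [RD_ac0 fun h => hs ((hsame u hu v hv).2 h), hM.col]
      have hs' : ¬ Sa M lo hi v.1 u.1 := fun h => hs (hsy _ _ h)
      unfold XC
      by_cases h1 : Adj M u.1 v.1
      · rw [if_pos ((hadj u hu v hv hs).1 h1), hcol u hu v hv hs h1]
      by_cases h3 : Adj M v.1 u.1
      · have h2 : ¬ Adj M u.2 v.2 := hM.asymm ((hadj v hv u hu hs').1 h3)
        rw [if_neg h2, if_pos ((hadj v hv u hu hs').1 h3), ← hM.cl_comm h3,
          hcol v hv u hu hs' h3]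
      have k1 : ∀ j, u.1 ∉ Ic M (lo j) (hi j) := fun j hj => hs ⟨j, hj,
        ⟨fun h4 => hj.1 ((hM.blk_r h3 h1 _).1 h4), fun h4 => hj.2 ((hM.blk_l h3 h1 _).1 h4)⟩⟩
      have k2 : ∀ j, v.1 ∉ Ic M (lo j) (hi j) := fun j hj => hs ⟨j,
        ⟨fun h4 => hj.1 ((hM.blk_r h1 h3 _).1 h4), fun h4 => hj.2 ((hM.blk_l h1 h3 _).1 h4)⟩, hj⟩
      have e1 := hN.b u hu k1
      have e2 := hN.b v hv k2
      rw [← e1, ← e2, if_neg h1, if_neg h3]
  · intro k u hu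
    rw [RD_co]
    by_cases hx : ∃ j, u.1 ∈ Ic M (lo j) (hi j)
    · obtain ⟨j, hj⟩ := hx
      rw [(R_in (T := T) hG.dj ((hN.a u hu j).1 hj)).1]
      exact (piso_raw.1 (h j)).2.2.2.2 k (u.1, u.2) (Or.inr (Or.inr ⟨hu, hj⟩))
    · have h1 : ∀ j, u.1 ∉ Ic M (lo j) (hi j) := fun j hj => hx ⟨j, hj⟩
      have h2 := hN.b u hu h1
      rw [← h2, (R_out (T := T) h1).1]

theorem RD_bf (hG : GI μ M lo hi) {p : Set (ℕ × ℕ)} {o : Ordinal.{0}} (hN : Np M lo hi p)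
    (h : ∀ j, BF M (T j) (Ic M (lo j) (hi j)) (Ic M (lo j) (hi j)) o (pj M lo hi p j)) :
    BF M (RD μ M lo hi T) univ univ o p := by
  induction o using WellFoundedLT.induction generalizing p with
  | ind o ih =>
    have hsub1 : ∀ x x' i, x ∉ Ic M (lo i) (hi i) →
        pj M lo hi (insert (x, x') p) i ⊆ pj M lo hi p i := by
      rintro x x' i hx w (hw | hw | ⟨hw | hw, hw2⟩)
      · exact Or.inl hw
      · exact Or.inr (Or.inl hw)
      · rw [hw] at hw2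
        exact absurd hw2 hx
      · exact Or.inr (Or.inr ⟨hw, hw2⟩)
    have hsub2 : ∀ x x' i,
        pj M lo hi (insert (x, x') p) i ⊆ insert (x, x') (pj M lo hi p i) := by
      rintro x x' i w (hw | hw | ⟨hw | hw, hw2⟩)
      · exact Or.inr (Or.inl hw)
      · exact Or.inr (Or.inr (Or.inl hw))
      · exact Or.inl hw
      · exact Or.inr (Or.inr (Or.inr ⟨hw, hw2⟩))
    have out : ∀ o' < o, ∀ x, (∀ j, x ∉ Ic M (lo j) (hi j)) →
        BF M (RD μ M lo hi T) univ univ o' (insert (x, x) p) := by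
      intro o' ho' x hx
      refine ih o' ho' ⟨?_, ?_⟩ fun i => ((h i).mono ho'.le).subset (hsub1 x x i (hx i))
      · rintro w (rfl | hw) i
        · exact Iff.rfl
        · exact hN.a w hw i
      · rintro w (rfl | hw) h1
        · rfl
        · exact hN.b w hw h1
    have inn : ∀ o' < o, ∀ x x' j, x ∈ Ic M (lo j) (hi j) → x' ∈ Ic M (lo j) (hi j) →
        BF M (T j) (Ic M (lo j) (hi j)) (Ic M (lo j) (hi j)) o'
          (insert (x, x') (pj M lo hi p j)) →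
        BF M (RD μ M lo hi T) univ univ o' (insert (x, x') p) := by
      intro o' ho' x x' j hx hx' hb
      refine ih o' ho' ⟨?_, ?_⟩ fun i => ?_
      · rintro w (rfl | hw) i
        · by_cases hij : j = i
          · subst hij
            exact ⟨fun _ => hx', fun _ => hx⟩
          · exact ⟨fun h1 => absurd h1 (Set.disjoint_left.1 (hG.dj j i hij) hx),
              fun h1 => absurd h1 (Set.disjoint_left.1 (hG.dj j i hij) hx')⟩
        · exact hN.a w hw i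
      · rintro w (rfl | hw) h1
        · exact absurd hx (h1 j)
        · exact hN.b w hw h1
      · by_cases hij : j = i
        · subst hij
          exact hb.subset (hsub2 x x' j)
        · exact ((h i).mono ho'.le).subset
            (hsub1 x x' i (Set.disjoint_left.1 (hG.dj j i hij) hx))
    rw [BF_iff]
    refine ⟨RD_piso hG hN fun j => (h j).piso, fun o' ho' => ⟨fun x _ => ?_, fun y _ => ?_⟩⟩
    · by_cases hx : ∃ j, x ∈ Ic M (lo j) (hi j)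
      · obtain ⟨j, hj⟩ := hx
        obtain ⟨x', hx', hb⟩ := (h j).forth ho' hj
        exact ⟨x', mem_univ _, inn o' ho' x x' j hj hx' hb⟩
      · exact ⟨x, mem_univ _, out o' ho' x fun j hj => hx ⟨j, hj⟩⟩
    · by_cases hy : ∃ j, y ∈ Ic M (lo j) (hi j)
      · obtain ⟨j, hj⟩ := hy
        obtain ⟨x, hx, hb⟩ := (h j).back ho' hj
        exact ⟨x, mem_univ _, inn o' ho' x y j hx hj hb⟩
      · exact ⟨y, mem_univ _, out o' ho' y fun j hj => hy ⟨j, hj⟩⟩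

/-- The assumptions on a family of fillings. -/
structure GA (μ : Par) (α : Ordinal.{0}) (M : SM) (lo hi : ι → ℕ) (T : ι → SM) : Prop
    extends GI μ M lo hi where
  bf : ∀ j, BF M (T j) (Ic M (lo j) (hi j)) (Ic M (lo j) (hi j)) α
    {(lo j, lo j), (hi j, hi j)}

variable {α : Ordinal.{0}}

theorem t_GLB (hG : GA μ α M lo hi T) : BF M (RD μ M lo hi T) univ univ α ∅ := by
  refine RD_bf hG.toGI ⟨fun w hw => absurd hw (notMem_empty w),
    fun w hw => absurd hw (notMem_empty w)⟩ fun j => (hG.bf j).subset ?_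
  rintro w (hw | hw | ⟨hw, -⟩)
  · exact Or.inl hw
  · exact Or.inr hw
  · exact absurd hw (notMem_empty w)

theorem t_GLO (hG : GA μ α M lo hi T) (hα : Ordinal.omega0 ≤ α) : AC μ (RD μ M lo hi T) :=
  ac_of_bf hG.os ((t_GLB hG).mono hα)

theorem glf1 (dj : ∀ i j, i ≠ j → Disjoint (Ic M (lo i) (hi i)) (Ic M (lo j) (hi j))) (j : ι)
    {x y : ℕ} (hx : x ∈ Ic M (lo j) (hi j)) (hy : y ∉ Ic M (lo j) (hi j)) :
    (Adj (RD μ M lo hi T) x y ↔ Adj M x y) ∧ (Adj (RD μ M lo hi T) y x ↔ Adj M y x) := by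
  have h1 : ¬ Sa M lo hi x y := by
    rintro ⟨i, hi', hy'⟩
    by_cases hij : i = j
    · subst hij
      exact hy hy'
    · exact Set.disjoint_left.1 (dj i j hij) hi' hx
  exact ⟨RD_adj0 h1, RD_adj0 fun ⟨i, h2, h3⟩ => h1 ⟨i, h3, h2⟩⟩

theorem glf2 (dj : ∀ i j, i ≠ j → Disjoint (Ic M (lo i) (hi i)) (Ic M (lo j) (hi j))) (j : ι)
    {x y : ℕ} (hx : x ∈ Ic M (lo j) (hi j)) (hy : y ∈ Ic M (lo j) (hi j)) :
    Adj (RD μ M lo hi T) x y ↔ Adj (T j) x y := by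
  rw [RD_adj1 ⟨j, hx, hy⟩, (R_in dj hx).1]

theorem glf_Ic (hM : AC μ M)
    (dj : ∀ i j, i ≠ j → Disjoint (Ic M (lo i) (hi i)) (Ic M (lo j) (hi j))) (j : ι)
    {x y : ℕ} (hx : x ∈ Ic M (lo j) (hi j)) (hy : y ∈ Ic M (lo j) (hi j)) :
    Ic (RD μ M lo hi T) x y = Ic M (lo j) (hi j) ∩ Ic (T j) x y := by
  ext z
  constructor
  · intro hz
    by_cases hzJ : z ∈ Ic M (lo j) (hi j)
    · refine ⟨hzJ, ?_, ?_⟩
      · exact fun h1 => hz.1 ((glf2 dj j hzJ hx).2 h1)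
      · exact fun h1 => hz.2 ((glf2 dj j hy hzJ).2 h1)
    · exfalso
      have h1 : ¬ Adj M z x := fun h1 => hz.1 ((glf1 dj j hx hzJ).2.2 h1)
      have h2 : ¬ Adj M y z := fun h1 => hz.2 ((glf1 dj j hy hzJ).1.2 h1)
      exact hzJ ⟨hM.le_trans hx.1 h1, hM.le_trans h2 hy.2⟩
  · rintro ⟨hzJ, hz1, hz2⟩
    exact ⟨fun h1 => hz1 ((glf2 dj j hzJ hx).1 h1), fun h1 => hz2 ((glf2 dj j hy hzJ).1 h1)⟩

theorem glf_iso (dj : ∀ i j, i ≠ j → Disjoint (Ic M (lo i) (hi i)) (Ic M (lo j) (hi j)))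
    (j : ι) : PIso (T j) (RD μ M lo hi T) (idOn (Ic M (lo j) (hi j))) := by
  rw [piso_raw]
  refine ⟨?_, ?_, ?_, ?_, ?_⟩
  · rintro ⟨u, u'⟩ ⟨h1, hu⟩ ⟨v, v'⟩ ⟨h2, hv⟩
    simp only at h1 h2
    subst h1 h2
    exact Iff.rfl
  · rintro ⟨u, u'⟩ ⟨h1, hu⟩ ⟨v, v'⟩ ⟨h2, hv⟩
    simp only at h1 h2 hu hv
    subst h1 h2
    exact (glf2 dj j hu hv).symm
  · rintro ⟨u, u'⟩ ⟨h1, hu⟩ ⟨v, v'⟩ ⟨h2, hv⟩
    simp only at h1 h2 hu hv
    subst h1 h2
    rw [RD_lt, (R_in dj hu).1]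
    exact ⟨fun h => ⟨⟨j, hu, hv⟩, h⟩, fun h => h.2⟩
  · rintro s ⟨u, u'⟩ ⟨h1, hu⟩ ⟨v, v'⟩ ⟨h2, hv⟩
    simp only at h1 h2 hu hv
    subst h1 h2
    rw [RD_ac1 ⟨j, hu, hv⟩, (R_in dj hu).1]
  · rintro k ⟨u, u'⟩ ⟨h1, hu⟩
    simp only at h1 hu
    subst h1
    rw [RD_co, (R_in dj hu).1]

/-- the atomic facts depend only on the relevant intervals -/
theorem RD_congr {T' : ι → SM} {x y : ℕ}
    (h : ∀ j, (x ∈ Ic M (lo j) (hi j) ∨ y ∈ Ic M (lo j) (hi j)) → T j = T' j) :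
    (Adj (RD μ M lo hi T) x y ↔ Adj (RD μ M lo hi T') x y) ∧
    (lt (RD μ M lo hi T).2 x y ↔ lt (RD μ M lo hi T').2 x y) ∧
    (∀ s, (ac (RD μ M lo hi T).2 s x y ↔ ac (RD μ M lo hi T').2 s x y)) ∧
    (∀ k, (co (RD μ M lo hi T).2 k x ↔ co (RD μ M lo hi T').2 k x)) := by
  have hx : Rt M lo hi T x = Rt M lo hi T' x := Rt_congr fun j hj => h j (Or.inl hj)
  have hy : Rt M lo hi T y = Rt M lo hi T' y := Rt_congr fun j hj => h j (Or.inr hj)
  have hX : XC μ M lo hi T x y = XC μ M lo hi T' x y := by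
    unfold XC CC
    rw [hx, hy]
  refine ⟨?_, ?_, fun s => ?_, fun k => ?_⟩
  · by_cases hs : Sa M lo hi x y
    · rw [RD_adj1 hs, RD_adj1 hs, hx]
    · rw [RD_adj0 hs, RD_adj0 hs]
  · rw [RD_lt, RD_lt, hx]
  · rw [RD_ac, RD_ac, hx, hX]
  · rw [RD_co, RD_co, hx]

end surg

end Pool.Agent.N643.AX
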