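import Pool.Agent.N643.AX.CaseA

set_option autoImplicit false

/-!
# Countably many towers
-/

namespace Pool.Agent.N643.AX

open Set
open Pool.Agent.H899R2.VP
open Pool.Agent.H533R2.VO (Ic Ge Le Gt Lt Lev Lw Uw Lx NoLast Mt Cls Cl Rk Rr Bg rev revS resBF
  resIso resGe resLe resGt resLt resIc resIsoLt resIsoIc resIsoGe bf_id bf_comp0 bf_comp1 bf_comp2
  bf_symm0 bf_symm1 bf_symm2 iso_symm0 iso_trans0 iso_refl0 bf_mem_right bf_mem_left mem_Ic mem_Ge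
  mem_Le Lw_ge mem_Lx rev_iso rev_bf rev_Ic rev_cont rev_Lw)
open Pool.Agent.H566P (ar R2 v2 lt ac co mk)

variable {μ : Par} {α : Ordinal.{0}} {K : Set SM} {S : Set (SM × Set ℕ)} {M N : SM}

/-- the opposite operations -/
def fl (μ : Par) : Par := ⟨fun s t => μ.m t s, μ.d, μ.u, μ.b, μ.k⟩

theorem cl_rev (M : SM) (x y : ℕ) : cl (rev M) x y = cl M x y := rfl

theorem rev_ac (h : AC μ M) : AC (fl μ) (rev M) where
  irr := fun x => h.irr x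
  tr := fun x y z h1 h2 => h.tr z y x h2 h1
  ntr := fun x y z h1 => (h.ntr z y x h1).symm
  nl := fun x y => h.nl x y
  sy := fun x y h1 => (h.sy y x h1).symm
  col := fun s x y => h.col s x y
  mul := by
    intro x y z h1 h2
    show cl M x z = μ.m (cl M y z) (cl M x y)
    rw [← h.sy z x (h.tr z y x h2 h1), ← h.sy z y h2, ← h.sy y x h1]
    exact h.mul z y x h2 h1
  bu := fun x y z h1 h2 h3 => h.bd x y z h2 h1 h3
  bd := fun x y z h1 h2 h3 => h.bu x y z h2 h1 h3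
  bb := fun x y z h1 h2 h3 h4 => h.bb x y z h2 h1 h4 h3
  una := fun x y k h1 h2 => h.una x y k h2 h1
  rig := fun x y z h1 h2 h3 h4 h5 => h.rig x y z h2 h1 h4 h3 h5
  fin := by
    intro x y
    refine (h.fin y x).subset ?_
    rintro s ⟨p, q, h1, h2, h3, h4⟩
    by_cases h5 : Adj M q p
    · refine ⟨q, p, h3, h2, h1, ?_⟩
      rw [h.sy q p h5]
      exact h4
    · exact ⟨p, q, h.le_trans h3 h2, h5, h.le_trans h2 h1, h4⟩

theorem fl_fl (μ : Par) : fl (fl μ) = μ := rfl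

theorem rev_fam (hS : Fam μ S) : Fam (fl μ) (revS S) where
  iso := fun M X N Y h1 h2 => hS.iso (rev M) X (rev N) Y h1 (rev_iso h2)
  cnt := by
    obtain ⟨f, hf⟩ := hS.cnt
    refine ⟨fun n => (rev (f n).1, (f n).2), fun M X h => ?_⟩
    obtain ⟨n, hn⟩ := hf (rev M) X h
    exact ⟨n, rev_iso hn⟩
  sub := by
    intro M hM x y x' y' h h1 h2 h3
    have h' : (rev M, Ic M x y) ∈ S := h
    show (rev M, Ic M x' y') ∈ S
    rw [← rev_Ic] at h' ⊢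
    exact hS.sub (rev M) (rev_ac hM) y x y' x' h' h3 h2 h1
  glue := by
    intro M hM x y z h1 h2 h3 h4
    have h3' : (rev M, Ic M x y) ∈ S := h3
    have h4' : (rev M, Ic M y z) ∈ S := h4
    show (rev M, Ic M x z) ∈ S
    rw [← rev_Ic] at h3' h4' ⊢
    exact hS.glue (rev M) (rev_ac hM) z y x h2 h1 h4' h3'

theorem rev_G (h : G μ α K) : G (fl μ) α {M | rev M ∈ K} where
  meas := h.meas.preimage rev_cont.measurable
  lt := h.lt
  om := h.om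
  closed := fun M hM N hb => h.closed (rev M) hM (rev N) (rev_bf hb)
  os := fun M hM => rev_ac (h.os (rev M) hM)
  few := by
    rintro ⟨g, h1, h2, h3⟩
    refine h.few ⟨fun c => rev (g c), rev_cont.comp h1, h2, fun c d hcd => h3 c d ?_⟩
    exact rev_iso hcd

theorem t_TOWC (hG : G μ α K) (hS : Fam μ S) (hblk : ∀ M ∈ K, ∀ x, (M, Ic M x x) ∈ S) :
    ∃ f : ℕ → SM × Set ℕ, ∀ M ∈ K, ∀ u, ∃ n, IsoOn (f n).1 M (f n).2 (Lw S M u) ∅ := by
  classical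
  obtain ⟨l, hl1, hl2, hl⟩ := t_LEV hS
  obtain ⟨β, hβ, hT⟩ := t_TOW hS hl hl2 hl1
  obtain ⟨c, hc⟩ := labels hG.meas hG.few β hβ
  let f : ℕ → SM × Set ℕ := fun n =>
    if h : ∃ P : SM × ℕ, P.1 ∈ K ∧ c P.1 [P.2] = n then (h.choose.1, Lw S h.choose.1 h.choose.2)
    else ((fun _ _ => false, fun _ _ => false), ∅)
  refine ⟨f, fun N hN v => ⟨c N [v], ?_⟩⟩
  have h : ∃ P : SM × ℕ, P.1 ∈ K ∧ c P.1 [P.2] = c N [v] := ⟨(N, v), hN, rfl⟩
  have hf : f (c N [v]) = (h.choose.1, Lw S h.choose.1 h.choose.2) := dif_pos h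
  rw [hf]
  obtain ⟨hP, hcP⟩ := h.choose_spec
  have hb := hc h.choose.1 hP N hN [h.choose.2] [v] rfl hcP
  rw [zipSet_cons, zipSet_nil_left, insert_empty_eq] at hb
  exact hT h.choose.1 N h.choose.2 v (hG.os _ hP) (hG.os _ hN)
    ⟨(hG.os _ hP).irr _, hblk _ hP _⟩ hb

theorem t_TOWR (hG : G μ α K) (hS : Fam μ S) (hK : ∀ M ∈ K, ∀ x, (M, Ic M x x) ∈ S) :
    ∃ f : ℕ → SM × Set ℕ, ∀ M ∈ K, ∀ u, ∃ n, IsoOn (f n).1 M (f n).2 (Uw S M u) ∅ := by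
  have hK' : ∀ M ∈ {M : SM | rev M ∈ K}, ∀ x, (M, Ic M x x) ∈ revS S := by
    intro M hM x
    show (rev M, Ic M x x) ∈ S
    have h := hK (rev M) hM x
    rw [rev_Ic] at h
    exact h
  obtain ⟨f, hf⟩ := t_TOWC (rev_G hG) (rev_fam hS) hK'
  refine ⟨fun n => (rev (f n).1, (f n).2), fun M hM u => ?_⟩
  obtain ⟨n, hn⟩ := hf (rev M) hM u
  refine ⟨n, ?_⟩
  rw [rev_Lw] at hn
  exact rev_iso hn

/-- two matched blocks are isomorphic -/
theorem iso_blk (hM : AC μ M) (hN : AC μ N) {x x' : ℕ} (h : BF M N univ univ 1 {(x, x')}) :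
    IsoOn M N (Ic M x x) (Ic N x' x') ∅ := by
  let r : Set (ℕ × ℕ) := {w | w.1 ∈ Ic M x x ∧ w.2 ∈ Ic N x' x' ∧ cl M w.1 x = cl N w.2 x' ∧
    cl M x w.1 = cl N x' w.2}
  have key : ∀ w ∈ r, ∀ w' ∈ r, PIso M N (insert w' (insert w {(x, x')})) := by
    rintro w ⟨h1, h2, h3, h4⟩ w' ⟨k1, k2, k3, k4⟩
    refine piso_add hM hN (piso_add hM hN h.piso rfl h1.1 h1.2 h2.1 h2.2 h3 h4) (x := w'.1)
      (w := w'.2) (Or.inr rfl) k1.1 k1.2 k2.1 k2.2 k3 k4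
  refine ⟨r, empty_subset _, fun w hw => ⟨hw.1, hw.2.1⟩, ?_, ?_, ?_⟩
  · have main : ∀ u ∈ r, ∀ v ∈ r, ∃ q, PIso M N q ∧ u ∈ q ∧ v ∈ q := fun u hu v hv =>
      ⟨_, key u hu v hv, Or.inr (Or.inl rfl), Or.inl rfl⟩
    refine piso_raw.2 ⟨?_, ?_, ?_, ?_, ?_⟩
    · intro u hu v hv
      obtain ⟨q, hq, h1, h2⟩ := main u hu v hv
      exact (piso_raw.1 hq).1 u h1 v h2
    · intro u hu v hv
      obtain ⟨q, hq, h1, h2⟩ := main u hu v hv
      exact (piso_raw.1 hq).2.1 u h1 v h2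
    · intro u hu v hv
      obtain ⟨q, hq, h1, h2⟩ := main u hu v hv
      exact (piso_raw.1 hq).2.2.1 u h1 v h2
    · intro s u hu v hv
      obtain ⟨q, hq, h1, h2⟩ := main u hu v hv
      exact (piso_raw.1 hq).2.2.2.1 s u h1 v h2
    · intro k u hu
      obtain ⟨q, hq, h1, h2⟩ := main u hu u hu
      exact (piso_raw.1 hq).2.2.2.2 k u h1
  · intro y hy
    obtain ⟨y', -, hb⟩ := h.forth zero_lt_one (mem_univ y)
    have m1 : (y, y') ∈ (insert (y, y') {(x, x')} : Set (ℕ × ℕ)) := Or.inl rfl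
    have m2 : (x, x') ∈ (insert (y, y') {(x, x')} : Set (ℕ × ℕ)) := Or.inr rfl
    exact ⟨y', hy, ⟨fun h1 => hy.1 ((hb.piso.adj m1 m2).2 h1),
      fun h1 => hy.2 ((hb.piso.adj m2 m1).2 h1)⟩, piso_cl' hM hN hb.piso m1 m2,
      piso_cl' hM hN hb.piso m2 m1⟩
  · intro y' hy
    obtain ⟨y, -, hb⟩ := h.back zero_lt_one (mem_univ y')
    have m1 : (y, y') ∈ (insert (y, y') {(x, x')} : Set (ℕ × ℕ)) := Or.inl rfl
    have m2 : (x, x') ∈ (insert (y, y') {(x, x')} : Set (ℕ × ℕ)) := Or.inr rfl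
    exact ⟨y, ⟨fun h1 => hy.1 ((hb.piso.adj m1 m2).1 h1),
      fun h1 => hy.2 ((hb.piso.adj m2 m1).1 h1)⟩, hy, piso_cl' hM hN hb.piso m1 m2,
      piso_cl' hM hN hb.piso m2 m1⟩

/-- the points -/
theorem t_PTS (hG : G μ α K) : ∃ f : ℕ → SM × Set ℕ, ∀ M ∈ K, ∀ x,
    ∃ n, IsoOn (f n).1 M (f n).2 (Ic M x x) ∅ := by
  classical
  obtain ⟨c, hc⟩ := labels hG.meas hG.few 1 (lt_of_lt_of_le Ordinal.one_lt_omega0
    (Ordinal.omega0_le_omega 1))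
  let f : ℕ → SM × Set ℕ := fun n =>
    if h : ∃ P : SM × ℕ, P.1 ∈ K ∧ c P.1 [P.2] = n then
      (h.choose.1, Ic h.choose.1 h.choose.2 h.choose.2)
    else ((fun _ _ => false, fun _ _ => false), ∅)
  refine ⟨f, fun N hN v => ⟨c N [v], ?_⟩⟩
  have h : ∃ P : SM × ℕ, P.1 ∈ K ∧ c P.1 [P.2] = c N [v] := ⟨(N, v), hN, rfl⟩
  have hf : f (c N [v]) = (h.choose.1, Ic h.choose.1 h.choose.2 h.choose.2) := dif_pos h
  rw [hf]
  obtain ⟨hP, hcP⟩ := h.choose_spec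
  have hb := hc h.choose.1 hP N hN [h.choose.2] [v] rfl hcP
  rw [zipSet_cons, zipSet_nil_left, insert_empty_eq] at hb
  exact iso_blk (hG.os _ hP) (hG.os N hN) hb

end Pool.Agent.N643.AX
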